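import Pool.Agent.Lib.MP_380ab1_coE.Str

/-!
# JOB Agree: what depends only on the members of size `< i`
-/

namespace Pool.Agent.Lib.MP_380ab1_coE

open Finset Pool.Agent.BoolD

variable {α : Type*} [DecidableEq α] [Fintype α]

omit [Fintype α] in
theorem agr_vv {F F' : Finset (Finset α)} {i : ℕ} (h : Agr F F' i) {C : Finset α}
    (hC : C.card ≤ i) : vv F C = vv F' C :=
  vv_congr fun x hx => h x (lt_of_lt_of_le hx hC)

theorem agr_Uu {F F' : Finset (Finset α)} {i : ℕ} (h : Agr F F' i) : Uu F i = Uu F' i := by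
  ext x
  rw [mem_Uu, mem_Uu]
  constructor
  · rintro ⟨h1, h2⟩
    exact ⟨h1, by rw [← agr_vv h h1.le]; exact h2⟩
  · rintro ⟨h1, h2⟩
    exact ⟨h1, by rw [agr_vv h h1.le]; exact h2⟩

theorem agr_Ww {F F' : Finset (Finset α)} {i : ℕ} (h : Agr F F' i) : Ww F i = Ww F' i := by
  ext x
  rw [mem_Ww, mem_Ww]
  constructor
  · rintro ⟨h1, h2⟩
    exact ⟨h1, by rw [← agr_vv h h1.le]; exact h2⟩
  · rintro ⟨h1, h2⟩
    exact ⟨h1, by rw [agr_vv h h1.le]; exact h2⟩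

theorem agr_Gg {F F' : Finset (Finset α)} {i : ℕ} (h : Agr F F' i) : Gg F i = Gg F' i := by
  ext x
  rw [mem_Gg, mem_Gg, agr_Ww h]
  constructor
  · rintro (⟨h1, h2⟩ | h1)
    · exact Or.inl ⟨(h x h2).1 h1, h2⟩
    · exact Or.inr h1
  · rintro (⟨h1, h2⟩ | h1)
    · exact Or.inl ⟨(h x h2).2 h1, h2⟩
    · exact Or.inr h1

theorem agr_Nn {F F' : Finset (Finset α)} {i : ℕ} (h : Agr F F' i) : Nn F i = Nn F' i := by
  unfold Nn
  rw [agr_Gg h]

theorem agr_B0 {F F' : Finset (Finset α)} {i : ℕ} (h : Agr F F' i) : B0 F i = B0 F' i := by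
  unfold B0
  rw [agr_Nn h, agr_Ww h]

theorem agr_B1 {F F' : Finset (Finset α)} {i : ℕ} (h : Agr F F' i) : B1 F i = B1 F' i := by
  unfold B1
  rw [agr_Nn h, agr_Ww h]

theorem agr_B2 {F F' : Finset (Finset α)} {i : ℕ} (h : Agr F F' i) : B2 F i = B2 F' i := by
  unfold B2
  rw [agr_Gg h]

theorem agr_Z0 {F F' : Finset (Finset α)} {i : ℕ} (h : Agr F F' i) : Z0 F i = Z0 F' i := by
  unfold Z0
  rw [agr_Uu h, agr_B2 h]

theorem agr_Lam {F F' : Finset (Finset α)} {i : ℕ} (h : Agr F F' i) : Lam F i = Lam F' i := by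
  unfold Lam
  rw [agr_Z0 h, agr_B1 h]

end Pool.Agent.Lib.MP_380ab1_coE
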