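import Mathlib

/-!
# Binomial sums I (Abel summation and `∑ C(n+1, j) / j`)
-/

namespace Pool.Agent.Lib.MP_380ab1_coE

open Finset

/-- `Nat.sum_range_choose` and `Nat.choose_le_middle`. -/
theorem two_pow_le (n : ℕ) : (2 : ℝ) ^ n ≤ (n + 1) * n.choose (n / 2) := by
  have h1 : 2 ^ n ≤ (n + 1) * n.choose (n / 2) := by
    rw [← Nat.sum_range_choose]
    calc ∑ k ∈ range (n + 1), n.choose k ≤ ∑ _k ∈ range (n + 1), n.choose (n / 2) :=
          Finset.sum_le_sum fun k _ => Nat.choose_le_middle k n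
      _ = (n + 1) * n.choose (n / 2) := by rw [Finset.sum_const, card_range, smul_eq_mul]
  exact_mod_cast h1

/-- `Nat.choose_mul_succ_eq`. -/
theorem choose_div {n j : ℕ} (hj : j ≤ n) :
    (n.choose j : ℝ) / ((n : ℝ) - j + 1) = (n + 1).choose j / (n + 1) := by
  have h1 := Nat.choose_mul_succ_eq n j
  have h2 : ((n.choose j : ℕ) : ℝ) * ((n : ℝ) + 1) = ((n + 1).choose j : ℝ) * ((n : ℝ) - j + 1) := by
    have h3 : ((n + 1 - j : ℕ) : ℝ) = (n : ℝ) - j + 1 := by
      rw [Nat.cast_sub (by omega)]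
      push_cast
      ring
    rw [← h3]
    exact_mod_cast h1
  have h4 : (0 : ℝ) < (n : ℝ) - j + 1 := by
    have : (j : ℝ) ≤ n := by exact_mod_cast hj
    linarith
  rw [div_eq_div_iff h4.ne' (by positivity)]
  linarith

/-- Pascal and `Nat.choose_le_middle`. -/
theorem choose_succ_le (n j : ℕ) : ((n + 1).choose j : ℝ) ≤ 2 * n.choose (n / 2) := by
  have h1 : (n + 1).choose j ≤ 2 * n.choose (n / 2) := by
    cases j with
    | zero =>
      rw [Nat.choose_zero_right]
      have : 0 < n.choose (n / 2) := Nat.choose_pos (Nat.div_le_self n 2)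
      omega
    | succ j =>
      rw [Nat.choose_succ_succ]
      have h2 := Nat.choose_le_middle j n
      have h3 := Nat.choose_le_middle (j + 1) n
      rw [Nat.succ_eq_add_one]
      omega
  exact_mod_cast h1

/-- Abel summation for a unimodal sequence. -/
theorem abel {a r : ℕ → ℝ} {n p : ℕ} {A : ℝ} (ha : ∀ j, 0 ≤ a j) (hA : ∀ j, a j ≤ A)
    (hup : ∀ j, 1 ≤ j → j < p → a j ≤ a (j + 1)) (hdn : ∀ j, p ≤ j → a (j + 1) ≤ a j)
    (hr0 : ∀ j, 0 ≤ r j) (hr1 : ∀ j, r j ≤ 1) :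
    ∑ j ∈ Icc 2 n, a j * (r j - r (j - 1)) ≤ A := by
  have hstep : ∀ q, 1 ≤ q → ∑ j ∈ Icc 2 (q + 1), a j * (r j - r (j - 1)) =
      (∑ j ∈ Icc 2 q, a j * (r j - r (j - 1))) + a (q + 1) * (r (q + 1) - r q) := by
    intro q hq
    rw [Finset.sum_Icc_succ_top (by omega)]
    rfl
  have h1 : ∀ q, 1 ≤ q → q ≤ p → ∑ j ∈ Icc 2 q, a j * (r j - r (j - 1)) ≤ a q * r q := by
    intro q hq
    induction q, hq using Nat.le_induction with
    | base =>
      intro _
      rw [Icc_eq_empty (by omega), sum_empty]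
      exact mul_nonneg (ha 1) (hr0 1)
    | succ q hq ih =>
      intro hqp
      rw [hstep q hq]
      have h2 := ih (by omega)
      have h3 := mul_nonneg (sub_nonneg.2 (hup q hq (by omega))) (hr0 q)
      linarith
  have h2 : ∀ q, max p 1 ≤ q → ∑ j ∈ Icc 2 q, a j * (r j - r (j - 1)) ≤ A + a q * r q - a q := by
    intro q hq
    induction q, hq using Nat.le_induction with
    | base =>
      rcases Nat.eq_zero_or_pos p with hp | hp
      · subst hp
        have h3 : max 0 1 = 1 := by norm_num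
        rw [h3, Icc_eq_empty (by omega), sum_empty]
        have h4 := mul_nonneg (ha 1) (hr0 1)
        linarith [hA 1]
      · rw [max_eq_left hp]
        have h3 := h1 p hp le_rfl
        linarith [hA p]
    | succ q hq ih =>
      have hq1 : 1 ≤ q := (le_max_right _ _).trans hq
      have hqp : p ≤ q := (le_max_left _ _).trans hq
      rw [hstep q hq1]
      have h3 := mul_nonneg (sub_nonneg.2 (hdn q hqp)) (sub_nonneg.2 (hr1 q))
      linarith
  rcases Nat.eq_zero_or_pos n with hn | hn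
  · subst hn
    rw [Icc_eq_empty (by omega), sum_empty]
    exact (ha 0).trans (hA 0)
  rcases le_total n p with hnp | hnp
  · refine (h1 n hn hnp).trans ?_
    calc a n * r n ≤ a n * 1 := mul_le_mul_of_nonneg_left (hr1 n) (ha n)
      _ = a n := mul_one _
      _ ≤ A := hA n
  · have h3 := h2 n (max_le hnp hn)
    have h4 : a n * r n ≤ a n * 1 := mul_le_mul_of_nonneg_left (hr1 n) (ha n)
    linarith

/-- Abel summation with binomial coefficients. -/
theorem abel_choose {r : ℕ → ℝ} (n : ℕ) (hr0 : ∀ j, 0 ≤ r j) (hr1 : ∀ j, r j ≤ 1) :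
    ∑ j ∈ Icc 2 n, ((n + 1).choose j : ℝ) / (n + 1) * (r j - r (j - 1)) ≤
      2 * n.choose (n / 2) / (n + 1) := by
  have hn : (0 : ℝ) < (n : ℝ) + 1 := by positivity
  refine abel (a := fun j => ((n + 1).choose j : ℝ) / (n + 1)) (p := (n + 1) / 2) (fun j => by positivity)
    (fun j => div_le_div_of_nonneg_right (choose_succ_le n j) hn.le) (fun j _ hj => ?_) (fun j hj => ?_) hr0 hr1
  · refine div_le_div_of_nonneg_right ?_ hn.le
    exact_mod_cast Nat.choose_le_succ_of_lt_half_left hj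
  · refine div_le_div_of_nonneg_right ?_ hn.le
    have h1 : (n + 1).choose (j + 1) * (j + 1) = (n + 1).choose j * (n + 1 - j) := Nat.choose_succ_right_eq (n + 1) j
    have h2 : (n + 1).choose (j + 1) * (j + 1) ≤ (n + 1).choose j * (j + 1) := by
      rw [h1]
      exact Nat.mul_le_mul_left _ (by omega)
    exact_mod_cast Nat.le_of_mul_le_mul_right h2 (by omega)

/-- The sum of `C(n+1, j) / j`. -/
theorem sum_choose_div (n : ℕ) :
    ∑ j ∈ Icc 1 n, ((n + 1).choose j : ℝ) / j ≤ 8 * n.choose (n / 2) := by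
  have hn : (0 : ℝ) < (n : ℝ) + 2 := by positivity
  have h1 : ∀ j ∈ Icc 1 n, ((n + 1).choose j : ℝ) / j ≤ 2 / ((n : ℝ) + 2) * ((n + 2).choose (j + 1) : ℝ) := by
    intro j hj
    rw [mem_Icc] at hj
    have hj1 : (1 : ℝ) ≤ j := by exact_mod_cast hj.1
    have h2 : ((n : ℝ) + 2) * ((n + 1).choose j : ℝ) = ((n + 2).choose (j + 1) : ℝ) * ((j : ℝ) + 1) := by
      have h3 := Nat.add_one_mul_choose_eq (n + 1) j
      have h4 : (((n + 1 + 1) * (n + 1).choose j : ℕ) : ℝ) = (((n + 1 + 1).choose (j + 1) * (j + 1) : ℕ) : ℝ) := by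
        rw [h3]
      push_cast at h4
      have h5 : (n : ℝ) + 2 = (n : ℝ) + 1 + 1 := by ring
      rw [h5]
      exact h4
    have h3 : ((n + 1).choose j : ℝ) = ((n + 2).choose (j + 1) : ℝ) * ((j : ℝ) + 1) / ((n : ℝ) + 2) := by
      rw [eq_div_iff hn.ne']
      linarith
    rw [h3, div_div, div_mul_eq_mul_div, div_le_div_iff₀ (by positivity) hn]
    have h4 : (0 : ℝ) ≤ ((n + 2).choose (j + 1) : ℝ) := Nat.cast_nonneg _
    have h5 : ((n + 2).choose (j + 1) : ℝ) * ((j : ℝ) + 1) ≤ ((n + 2).choose (j + 1) : ℝ) * (2 * j) :=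
      mul_le_mul_of_nonneg_left (by linarith) h4
    nlinarith
  refine (Finset.sum_le_sum h1).trans ?_
  rw [← Finset.mul_sum]
  have h2 : ∑ j ∈ Icc 1 n, ((n + 2).choose (j + 1) : ℝ) ≤ 2 ^ (n + 2) := by
    have h3 : ∑ j ∈ Icc 1 n, (n + 2).choose (j + 1) ≤ 2 ^ (n + 2) := by
      rw [← Nat.sum_range_choose]
      have h4 : ∑ j ∈ Icc 1 n, (n + 2).choose (j + 1) =
          ∑ k ∈ (Icc 1 n).map ⟨fun j => j + 1, fun a b h => by simpa using h⟩, (n + 2).choose k := by
        rw [Finset.sum_map]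
        rfl
      rw [h4]
      refine Finset.sum_le_sum_of_subset fun k hk => ?_
      simp only [mem_map, mem_Icc, Function.Embedding.coeFn_mk] at hk
      obtain ⟨j, hj, rfl⟩ := hk
      rw [mem_range]
      omega
    exact_mod_cast h3
  have h3 := two_pow_le n
  have h4 : (0 : ℝ) ≤ (n.choose (n / 2) : ℝ) := Nat.cast_nonneg _
  calc 2 / ((n : ℝ) + 2) * ∑ j ∈ Icc 1 n, ((n + 2).choose (j + 1) : ℝ) ≤ 2 / ((n : ℝ) + 2) * 2 ^ (n + 2) :=
        mul_le_mul_of_nonneg_left h2 (by positivity)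
    _ = 8 * 2 ^ n / ((n : ℝ) + 2) := by rw [pow_add]; ring
    _ ≤ 8 * (((n : ℝ) + 1) * n.choose (n / 2)) / ((n : ℝ) + 2) := by
        refine div_le_div_of_nonneg_right ?_ hn.le
        linarith
    _ ≤ 8 * n.choose (n / 2) := by
        rw [div_le_iff₀ hn]
        nlinarith

end Pool.Agent.Lib.MP_380ab1_coE
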