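import Pool.Agent.Lib.MP_380ab1_coE.BinA

/-!
# Binomial sums II

`N = C(n, n/2)`, `m = n/2`, `2 ≤ n`.
-/

namespace Pool.Agent.Lib.MP_380ab1_coE

open Finset

/-- `C(n, j) (n - 2j + 1)/(n - j + 1) = C(n, j) - C(n, j - 1)` with `j = i + 1`. -/
private theorem BinB_tele {n i : ℕ} (hi : i + 1 ≤ n) :
    (n.choose (i + 1) : ℝ) * ((n : ℝ) - 2 * ((i + 1 : ℕ) : ℝ) + 1) =
      ((n.choose (i + 1) : ℝ) - n.choose i) * ((n : ℝ) - ((i + 1 : ℕ) : ℝ) + 1) := by
  have h := Nat.choose_succ_right_eq n i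
  have h2 : ((n.choose (i + 1) * (i + 1) : ℕ) : ℝ) = ((n.choose i * (n - i) : ℕ) : ℝ) := by
    rw [h]
  have hs : ((n - i : ℕ) : ℝ) = (n : ℝ) - i := by
    rw [Nat.cast_sub (by omega)]
  rw [Nat.cast_mul, Nat.cast_mul, hs] at h2
  push_cast at h2 ⊢
  nlinarith [h2]

/-- Bounds used for every `j ≤ n/2`. -/
private theorem BinB_dpos {n j : ℕ} (hn : 2 ≤ n) (hj : j ≤ n / 2) :
    (n : ℝ) / 2 ≤ (n : ℝ) - j + 1 ∧ (0 : ℝ) < (n : ℝ) - j + 1 ∧ (1 : ℝ) ≤ (n : ℝ) - 2 * j + 1 ∧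
      (0 : ℝ) < n := by
  have h1 : 2 * j ≤ n := by omega
  have h2 : (2 : ℝ) * j ≤ n := by exact_mod_cast h1
  have h3 : (2 : ℝ) ≤ n := by exact_mod_cast hn
  refine ⟨by linarith, by linarith, by linarith, by linarith⟩

/-- `C(n, j) ≤ C(n, n/2)` over the reals. -/
private theorem BinB_mid (n j : ℕ) : (n.choose j : ℝ) ≤ n.choose (n / 2) := by
  exact_mod_cast Nat.choose_le_middle j n

/-- `1 / (n - j + 1) ≤ 2 / n`. -/
private theorem BinB_inv {n j : ℕ} (hn : 2 ≤ n) (hj : j ≤ n / 2) :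
    1 / ((n : ℝ) - j + 1) ≤ 2 / n := by
  obtain ⟨h1, h2, _, h4⟩ := BinB_dpos hn hj
  rw [div_le_div_iff₀ h2 h4]
  linarith

/-- Telescoping sum. -/
private theorem BinB_sumtele (a : ℕ → ℝ) (q : ℕ) (hq : 1 ≤ q) :
    ∑ j ∈ Icc 2 q, (a j - a (j - 1)) = a q - a 1 := by
  induction q, hq using Nat.le_induction with
  | base => simp
  | succ q hq ih =>
    rw [Finset.sum_Icc_succ_top (by omega), ih]
    simp

theorem sumE1 {n : ℕ} (hn : 2 ≤ n) :
    ∑ j ∈ Icc 2 (n / 2), (n.choose j : ℝ) * ((n : ℝ) - 2 * j + 2) / ((n : ℝ) - j + 1) ^ 2 ≤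
      8 * (n.choose (n / 2) : ℝ) / n := by
  have hn0 : (0 : ℝ) < n := by exact_mod_cast (by omega : 0 < n)
  have hn2 : (2 : ℝ) ≤ n := by exact_mod_cast hn
  have hterm : ∀ j ∈ Icc 2 (n / 2),
      (n.choose j : ℝ) * ((n : ℝ) - 2 * j + 2) / ((n : ℝ) - j + 1) ^ 2 ≤
        2 / n * ((n.choose j : ℝ) - n.choose (j - 1)) + 4 / (n : ℝ) ^ 2 * n.choose j := by
    intro j hj
    rw [mem_Icc] at hj
    obtain ⟨i, rfl⟩ : ∃ i, j = i + 1 := ⟨j - 1, by omega⟩
    have hi : i + 1 ≤ n := by omega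
    obtain ⟨h1, h2, h3, _⟩ := BinB_dpos hn hj.2
    have hinv := BinB_inv hn hj.2
    have ht := BinB_tele hi
    set D : ℝ := (n : ℝ) - ((i + 1 : ℕ) : ℝ) + 1 with hD
    have hE : (n : ℝ) - 2 * ((i + 1 : ℕ) : ℝ) + 2 = ((n : ℝ) - 2 * ((i + 1 : ℕ) : ℝ) + 1) + 1 := by
      ring
    have hdiff : 0 ≤ (n.choose (i + 1) : ℝ) - n.choose i := by
      have hc : (0 : ℝ) ≤ n.choose (i + 1) := by positivity
      have : 0 ≤ ((n.choose (i + 1) : ℝ) - n.choose i) * D := by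
        rw [← ht]
        exact mul_nonneg hc (by linarith)
      exact nonneg_of_mul_nonneg_left this h2
    have hc : (0 : ℝ) ≤ n.choose (i + 1) := by positivity
    have hkey : (n.choose (i + 1) : ℝ) * ((n : ℝ) - 2 * ((i + 1 : ℕ) : ℝ) + 2) / D ^ 2 =
        ((n.choose (i + 1) : ℝ) - n.choose i) * (1 / D) +
          (n.choose (i + 1) : ℝ) * ((1 / D) * (1 / D)) := by
      rw [hE, mul_add, ht]
      have hD0 : D ≠ 0 := h2.ne'
      field_simp
    rw [hkey, Nat.add_sub_cancel]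
    have hD1 : 0 ≤ 1 / D := by positivity
    have hm1 : ((n.choose (i + 1) : ℝ) - n.choose i) * (1 / D) ≤
        ((n.choose (i + 1) : ℝ) - n.choose i) * (2 / n) := mul_le_mul_of_nonneg_left hinv hdiff
    have hm2 : (1 / D) * (1 / D) ≤ (2 / n) * (2 / n) :=
      mul_le_mul hinv hinv hD1 (by positivity)
    have hm3 : (n.choose (i + 1) : ℝ) * ((1 / D) * (1 / D)) ≤
        (n.choose (i + 1) : ℝ) * ((2 / n) * (2 / n)) := mul_le_mul_of_nonneg_left hm2 hc
    have hm4 : (2 / (n : ℝ)) * (2 / n) = 4 / (n : ℝ) ^ 2 := by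
      field_simp
      norm_num
    rw [hm4] at hm3
    linarith
  refine (Finset.sum_le_sum hterm).trans ?_
  rw [Finset.sum_add_distrib, ← Finset.mul_sum, ← Finset.mul_sum,
    BinB_sumtele (fun j => (n.choose j : ℝ)) (n / 2) (by omega)]
  have hsum : ∑ j ∈ Icc 2 (n / 2), (n.choose j : ℝ) ≤ (n + 1) * n.choose (n / 2) := by
    refine le_trans ?_ (two_pow_le n)
    have hr : (2 : ℝ) ^ n = ∑ j ∈ range (n + 1), (n.choose j : ℝ) := by
      have := Nat.sum_range_choose n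
      exact_mod_cast this.symm
    rw [hr]
    refine Finset.sum_le_sum_of_subset_of_nonneg ?_ (fun _ _ _ => by positivity)
    intro j hj
    rw [mem_Icc] at hj
    rw [mem_range]
    omega
  have hN : (0 : ℝ) ≤ n.choose (n / 2) := by positivity
  have h1 : (0 : ℝ) ≤ n.choose 1 := by positivity
  have ha : 2 / (n : ℝ) * ((n.choose (n / 2) : ℝ) - n.choose 1) ≤
      2 / n * n.choose (n / 2) := mul_le_mul_of_nonneg_left (by linarith) (by positivity)
  have hb : 4 / (n : ℝ) ^ 2 * ∑ j ∈ Icc 2 (n / 2), (n.choose j : ℝ) ≤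
      4 / (n : ℝ) ^ 2 * ((n + 1) * n.choose (n / 2)) :=
    mul_le_mul_of_nonneg_left hsum (by positivity)
  have hc : 4 / (n : ℝ) ^ 2 * ((n + 1) * n.choose (n / 2)) ≤ 6 / n * n.choose (n / 2) := by
    rw [← mul_assoc]
    refine mul_le_mul_of_nonneg_right ?_ hN
    rw [div_mul_eq_mul_div, div_le_div_iff₀ (by positivity) hn0]
    nlinarith
  have hd : 8 * (n.choose (n / 2) : ℝ) / n =
      2 / n * n.choose (n / 2) + 6 / n * n.choose (n / 2) := by
    ring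
  rw [hd]
  linarith

theorem sumE2 {n : ℕ} (hn : 2 ≤ n) :
    ∑ j ∈ Icc 2 (n / 2), 2 * (n.choose j : ℝ) / (((n : ℝ) - 2 * j + 1) * ((n : ℝ) - j + 1)) ≤
      4 * (n.choose (n / 2) : ℝ) / n * (1 + Real.log n) := by
  have hn0 : (0 : ℝ) < n := by exact_mod_cast (by omega : 0 < n)
  have hN : (0 : ℝ) ≤ n.choose (n / 2) := by positivity
  have hterm : ∀ j ∈ Icc 2 (n / 2),
      2 * (n.choose j : ℝ) / (((n : ℝ) - 2 * j + 1) * ((n : ℝ) - j + 1)) ≤
        4 * (n.choose (n / 2) : ℝ) / n * (((n + 1 - 2 * j : ℕ) : ℝ))⁻¹ := by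
    intro j hj
    rw [mem_Icc] at hj
    obtain ⟨_, h2, h3, _⟩ := BinB_dpos hn hj.2
    have hinv := BinB_inv hn hj.2
    have hcast : ((n + 1 - 2 * j : ℕ) : ℝ) = (n : ℝ) - 2 * j + 1 := by
      rw [Nat.cast_sub (by omega)]
      push_cast
      ring
    rw [hcast]
    have hA : 0 < (n : ℝ) - 2 * j + 1 := by linarith
    have e1 : 2 * (n.choose j : ℝ) / (((n : ℝ) - 2 * j + 1) * ((n : ℝ) - j + 1)) =
        2 * ((n.choose j : ℝ) * (1 / ((n : ℝ) - j + 1))) * ((n : ℝ) - 2 * j + 1)⁻¹ := by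
      field_simp
    have e2 : 4 * (n.choose (n / 2) : ℝ) / n = 2 * ((n.choose (n / 2) : ℝ) * (2 / n)) := by
      ring
    rw [e1, e2]
    refine mul_le_mul_of_nonneg_right ?_ (by positivity)
    refine mul_le_mul_of_nonneg_left ?_ (by norm_num)
    exact mul_le_mul (BinB_mid n j) hinv (by positivity) hN
  refine (Finset.sum_le_sum hterm).trans ?_
  rw [← Finset.mul_sum]
  refine mul_le_mul_of_nonneg_left ?_ (by positivity)
  have hh := harmonic_le_one_add_log n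
  refine le_trans ?_ hh
  rw [harmonic_eq_sum_Icc]
  push_cast
  have himg : ∑ j ∈ Icc 2 (n / 2), (((n + 1 - 2 * j : ℕ) : ℝ))⁻¹ =
      ∑ k ∈ (Icc 2 (n / 2)).image (fun j => n + 1 - 2 * j), ((k : ℝ))⁻¹ := by
    rw [Finset.sum_image]
    intro a ha b hb hab
    rw [mem_coe, mem_Icc] at ha hb
    simp only at hab
    omega
  rw [himg]
  refine Finset.sum_le_sum_of_subset_of_nonneg ?_ (fun _ _ _ => by positivity)
  intro k hk
  rw [mem_image] at hk
  obtain ⟨j, hj, rfl⟩ := hk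
  rw [mem_Icc] at hj
  rw [mem_Icc]
  omega

/-- Abel summation against `1/j`. -/
private theorem BinB_abel (a : ℕ → ℝ) (q : ℕ) (hq : 1 ≤ q) :
    ∑ j ∈ Icc 2 q, (a j - a (j - 1)) / j =
      a q / q - a 1 + ∑ j ∈ Ico 1 q, a j / (j * (j + 1)) := by
  induction q, hq using Nat.le_induction with
  | base => simp
  | succ q hq ih =>
    rw [Finset.sum_Icc_succ_top (by omega), ih, Finset.sum_Ico_succ_top hq, Nat.add_sub_cancel]
    have hq0 : (q : ℝ) ≠ 0 := by exact_mod_cast (by omega : q ≠ 0)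
    have hq1 : (q : ℝ) + 1 ≠ 0 := by positivity
    push_cast
    field_simp
    ring

theorem sumE3 {n : ℕ} (hn : 2 ≤ n) :
    ∑ j ∈ Icc 2 (n / 2), (n.choose j : ℝ) * ((n : ℝ) - 2 * j + 1) / (j * ((n : ℝ) - j + 1)) ≤
      15 * (n.choose (n / 2) : ℝ) / n := by
  have hn0 : (0 : ℝ) < n := by exact_mod_cast (by omega : 0 < n)
  have hN : (0 : ℝ) ≤ n.choose (n / 2) := by positivity
  have hterm : ∀ j ∈ Icc 2 (n / 2),
      (n.choose j : ℝ) * ((n : ℝ) - 2 * j + 1) / (j * ((n : ℝ) - j + 1)) =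
        ((n.choose j : ℝ) - n.choose (j - 1)) / j := by
    intro j hj
    rw [mem_Icc] at hj
    obtain ⟨i, rfl⟩ : ∃ i, j = i + 1 := ⟨j - 1, by omega⟩
    obtain ⟨_, h2, _, _⟩ := BinB_dpos hn hj.2
    rw [BinB_tele (by omega), Nat.add_sub_cancel]
    have hj0 : ((i + 1 : ℕ) : ℝ) ≠ 0 := by positivity
    rw [div_eq_div_iff (mul_ne_zero hj0 h2.ne') hj0]
    ring
  rw [Finset.sum_congr rfl hterm,
    BinB_abel (fun j => (n.choose j : ℝ)) (n / 2) (by omega)]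
  have hfirst : (n.choose (n / 2) : ℝ) / ((n / 2 : ℕ) : ℝ) ≤ 3 * (n.choose (n / 2) : ℝ) / n := by
    have hm : (0 : ℝ) < ((n / 2 : ℕ) : ℝ) := by exact_mod_cast (by omega : 0 < n / 2)
    have hm3 : (n : ℝ) ≤ 3 * ((n / 2 : ℕ) : ℝ) := by
      exact_mod_cast (by omega : n ≤ 3 * (n / 2))
    rw [div_le_div_iff₀ hm hn0]
    nlinarith
  have h1 : (0 : ℝ) ≤ n.choose 1 := by positivity
  have hsec : ∑ j ∈ Ico 1 (n / 2), (n.choose j : ℝ) / (j * (j + 1)) ≤
      12 * (n.choose (n / 2) : ℝ) / n := by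
    have hb : ∀ j ∈ Ico 1 (n / 2), (n.choose j : ℝ) / (j * (j + 1)) ≤
        3 / (((n : ℝ) + 1) * (n + 2)) * ((n + 2).choose (j + 2) : ℝ) := by
      intro j hj
      rw [mem_Ico] at hj
      have hj1 : (1 : ℝ) ≤ j := by exact_mod_cast hj.1
      have hc : (((n + 2).choose (j + 2) : ℕ) : ℝ) * ((j + 1) * (j + 2)) =
          (n.choose j : ℝ) * ((n + 1) * (n + 2)) := by
        have e1 := Nat.add_one_mul_choose_eq n j
        have e2 := Nat.add_one_mul_choose_eq (n + 1) (j + 1)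
        have e1' : ((n : ℝ) + 1) * n.choose j = (n + 1).choose (j + 1) * ((j : ℝ) + 1) := by
          exact_mod_cast e1
        have e2' : ((n : ℝ) + 1 + 1) * (n + 1).choose (j + 1) =
            (n + 1 + 1).choose (j + 1 + 1) * ((j : ℝ) + 1 + 1) := by
          exact_mod_cast e2
        have e3 : (n + 1 + 1).choose (j + 1 + 1) = (n + 2).choose (j + 2) := rfl
        rw [e3] at e2'
        linear_combination (-((n : ℝ) + 2)) * e1' + (-((j : ℝ) + 1)) * e2'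
      have hc0 : (0 : ℝ) ≤ n.choose j := by positivity
      have e4 : 3 / (((n : ℝ) + 1) * (n + 2)) * ((n + 2).choose (j + 2) : ℝ) =
          (n.choose j : ℝ) * (3 / (((j : ℝ) + 1) * (j + 2))) := by
        have hA : ((n : ℝ) + 1) * (n + 2) ≠ 0 := by positivity
        have hB : ((j : ℝ) + 1) * (j + 2) ≠ 0 := by positivity
        field_simp
        linear_combination hc
      rw [e4, div_eq_mul_one_div]
      refine mul_le_mul_of_nonneg_left ?_ hc0
      rw [div_le_div_iff₀ (by positivity) (by positivity)]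
      nlinarith
    refine (Finset.sum_le_sum hb).trans ?_
    rw [← Finset.mul_sum]
    have hs : ∑ j ∈ Ico 1 (n / 2), ((n + 2).choose (j + 2) : ℝ) ≤ (2 : ℝ) ^ (n + 2) := by
      have hr : (2 : ℝ) ^ (n + 2) = ∑ j ∈ range (n + 2 + 1), ((n + 2).choose j : ℝ) := by
        have := Nat.sum_range_choose (n + 2)
        exact_mod_cast this.symm
      rw [hr]
      have himg : ∑ j ∈ Ico 1 (n / 2), ((n + 2).choose (j + 2) : ℝ) =
          ∑ k ∈ (Ico 1 (n / 2)).image (fun j => j + 2), ((n + 2).choose k : ℝ) := by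
        rw [Finset.sum_image]
        intro a _ b _ hab
        simp only at hab
        omega
      rw [himg]
      refine Finset.sum_le_sum_of_subset_of_nonneg ?_ (fun _ _ _ => by positivity)
      intro k hk
      rw [mem_image] at hk
      obtain ⟨j, hj, rfl⟩ := hk
      rw [mem_Ico] at hj
      rw [mem_range]
      omega
    have h2 : (2 : ℝ) ^ (n + 2) ≤ 4 * ((n + 1) * n.choose (n / 2)) := by
      have := two_pow_le n
      rw [pow_add]
      linarith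
    have h3 : 3 / (((n : ℝ) + 1) * (n + 2)) * ∑ j ∈ Ico 1 (n / 2), ((n + 2).choose (j + 2) : ℝ) ≤
        3 / (((n : ℝ) + 1) * (n + 2)) * (4 * ((n + 1) * n.choose (n / 2))) :=
      mul_le_mul_of_nonneg_left (hs.trans h2) (by positivity)
    refine h3.trans ?_
    have h4 : 3 / (((n : ℝ) + 1) * (n + 2)) * (4 * ((n + 1) * (n.choose (n / 2) : ℝ))) =
        12 * n.choose (n / 2) / (n + 2) := by
      field_simp
      ring
    rw [h4]
    exact div_le_div_of_nonneg_left (by positivity) hn0 (by linarith)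
  have hd : 15 * (n.choose (n / 2) : ℝ) / n =
      3 * (n.choose (n / 2) : ℝ) / n + 12 * (n.choose (n / 2) : ℝ) / n := by
    ring
  rw [hd]
  linarith

theorem sumE5 {n : ℕ} (hn : 2 ≤ n) :
    ∑ j ∈ Icc 2 (n / 2), (n.choose j : ℝ) / ((n : ℝ) - j + 1) *
      (2 * (2 : ℝ) ^ (-((n : ℝ) - 2 * j + 1))) ≤ 4 * (n.choose (n / 2) : ℝ) / n := by
  have hn0 : (0 : ℝ) < n := by exact_mod_cast (by omega : 0 < n)
  have hN : (0 : ℝ) ≤ n.choose (n / 2) := by positivity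
  have hterm : ∀ j ∈ Icc 2 (n / 2), (n.choose j : ℝ) / ((n : ℝ) - j + 1) *
      (2 * (2 : ℝ) ^ (-((n : ℝ) - 2 * j + 1))) ≤
        4 * (n.choose (n / 2) : ℝ) / n * (2 : ℝ) ^ (-((n : ℝ) - 2 * j + 1)) := by
    intro j hj
    rw [mem_Icc] at hj
    obtain ⟨_, h2, _, _⟩ := BinB_dpos hn hj.2
    have hinv := BinB_inv hn hj.2
    have hpow : (0 : ℝ) ≤ (2 : ℝ) ^ (-((n : ℝ) - 2 * j + 1)) :=
      Real.rpow_nonneg (by norm_num) _
    have e1 : (n.choose j : ℝ) / ((n : ℝ) - j + 1) *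
        (2 * (2 : ℝ) ^ (-((n : ℝ) - 2 * j + 1))) =
          2 * ((n.choose j : ℝ) * (1 / ((n : ℝ) - j + 1))) *
            (2 : ℝ) ^ (-((n : ℝ) - 2 * j + 1)) := by
      ring
    have e2 : 4 * (n.choose (n / 2) : ℝ) / n = 2 * ((n.choose (n / 2) : ℝ) * (2 / n)) := by
      ring
    rw [e1, e2]
    refine mul_le_mul_of_nonneg_right ?_ hpow
    refine mul_le_mul_of_nonneg_left ?_ (by norm_num)
    exact mul_le_mul (BinB_mid n j) hinv (by positivity) hN
  refine (Finset.sum_le_sum hterm).trans ?_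
  rw [← Finset.mul_sum]
  have hgeo : ∀ q : ℕ, ∑ j ∈ Icc 2 q, (2 : ℝ) ^ (-((n : ℝ) - 2 * j + 1)) ≤
      4 / 3 * (2 : ℝ) ^ (-((n : ℝ) - 2 * q + 1)) := by
    intro q
    induction q with
    | zero =>
      have : (0 : ℝ) ≤ (2 : ℝ) ^ (-((n : ℝ) - 2 * ((0 : ℕ) : ℝ) + 1)) :=
        Real.rpow_nonneg (by norm_num) _
      simp only [show Icc 2 0 = (∅ : Finset ℕ) from rfl, Finset.sum_empty]
      positivity
    | succ q ih =>
      have hstep : (2 : ℝ) ^ (-((n : ℝ) - 2 * ((q + 1 : ℕ) : ℝ) + 1)) =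
          4 * (2 : ℝ) ^ (-((n : ℝ) - 2 * q + 1)) := by
        have e : -((n : ℝ) - 2 * ((q + 1 : ℕ) : ℝ) + 1) = 2 + -((n : ℝ) - 2 * q + 1) := by
          push_cast
          ring
        rw [e, Real.rpow_add (by norm_num)]
        norm_num
      have hx : (0 : ℝ) ≤ (2 : ℝ) ^ (-((n : ℝ) - 2 * q + 1)) :=
        Real.rpow_nonneg (by norm_num) _
      by_cases hq : 1 ≤ q
      · rw [Finset.sum_Icc_succ_top (by omega), hstep]
        linarith
      · have hq0 : q = 0 := by omega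
        subst hq0
        have : Icc 2 (0 + 1) = (∅ : Finset ℕ) := rfl
        rw [this, Finset.sum_empty, hstep]
        positivity
  have hg := hgeo (n / 2)
  have hlast : (2 : ℝ) ^ (-((n : ℝ) - 2 * ((n / 2 : ℕ) : ℝ) + 1)) ≤ 1 / 2 := by
    have hle : 2 * (n / 2) ≤ n := by omega
    have hle' : (2 : ℝ) * ((n / 2 : ℕ) : ℝ) ≤ n := by exact_mod_cast hle
    have := Real.rpow_le_rpow_of_exponent_le (by norm_num : (1 : ℝ) ≤ 2)
      (by linarith : -((n : ℝ) - 2 * ((n / 2 : ℕ) : ℝ) + 1) ≤ -1)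
    refine this.trans ?_
    rw [Real.rpow_neg (by norm_num), Real.rpow_one]
    norm_num
  have hfin : ∑ j ∈ Icc 2 (n / 2), (2 : ℝ) ^ (-((n : ℝ) - 2 * j + 1)) ≤ 1 := by
    linarith
  have := mul_le_mul_of_nonneg_left hfin (by positivity : 0 ≤ 4 * (n.choose (n / 2) : ℝ) / n)
  linarith

theorem sumE6 {n : ℕ} (hn : 2 ≤ n) :
    ∑ j ∈ Icc (n / 2 + 1) n, (n.choose j : ℝ) / ((n : ℝ) - j + 1) *
      (2 : ℝ) ^ ((n : ℝ) - 2 * j + 2) ≤ 6 * (n.choose (n / 2) : ℝ) / n := by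
  have hn0 : (0 : ℝ) < n := by exact_mod_cast (by omega : 0 < n)
  have hN : (0 : ℝ) ≤ n.choose (n / 2) := by positivity
  have hterm : ∀ j ∈ Icc (n / 2 + 1) n, (n.choose j : ℝ) / ((n : ℝ) - j + 1) *
      (2 : ℝ) ^ ((n : ℝ) - 2 * j + 2) ≤
        2 * (n.choose (n / 2) : ℝ) / n * (2 : ℝ) ^ ((n : ℝ) - 2 * j + 2) := by
    intro j hj
    rw [mem_Icc] at hj
    refine mul_le_mul_of_nonneg_right ?_ (Real.rpow_nonneg (by norm_num) _)
    rw [choose_div hj.2]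
    have h1 := choose_succ_le n j
    calc ((n + 1).choose j : ℝ) / ((n : ℝ) + 1) ≤ 2 * n.choose (n / 2) / ((n : ℝ) + 1) :=
          div_le_div_of_nonneg_right h1 (by positivity)
      _ ≤ 2 * n.choose (n / 2) / n :=
          div_le_div_of_nonneg_left (by positivity) hn0 (by linarith)
  refine (Finset.sum_le_sum hterm).trans ?_
  rw [← Finset.mul_sum]
  have hgeo : ∀ q : ℕ, n / 2 ≤ q →
      ∑ j ∈ Icc (n / 2 + 1) q, (2 : ℝ) ^ ((n : ℝ) - 2 * j + 2) ≤
        8 / 3 - 1 / 3 * (2 : ℝ) ^ ((n : ℝ) - 2 * q + 2) := by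
    intro q hq
    induction q, hq using Nat.le_induction with
    | base =>
      rw [Finset.Icc_eq_empty (by omega), Finset.sum_empty]
      have hle : n ≤ 2 * (n / 2) + 1 := by omega
      have hle' : (n : ℝ) ≤ 2 * ((n / 2 : ℕ) : ℝ) + 1 := by exact_mod_cast hle
      have := Real.rpow_le_rpow_of_exponent_le (by norm_num : (1 : ℝ) ≤ 2)
        (by linarith : (n : ℝ) - 2 * ((n / 2 : ℕ) : ℝ) + 2 ≤ 3)
      have h8 : (2 : ℝ) ^ (3 : ℝ) = 8 := by norm_num
      rw [h8] at this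
      linarith
    | succ q hq ih =>
      rw [Finset.sum_Icc_succ_top (by omega)]
      have hstep : (2 : ℝ) ^ ((n : ℝ) - 2 * ((q + 1 : ℕ) : ℝ) + 2) =
          1 / 4 * (2 : ℝ) ^ ((n : ℝ) - 2 * q + 2) := by
        have e : (n : ℝ) - 2 * ((q + 1 : ℕ) : ℝ) + 2 = -2 + ((n : ℝ) - 2 * q + 2) := by
          push_cast
          ring
        rw [e, Real.rpow_add (by norm_num), Real.rpow_neg (by norm_num)]
        norm_num
      rw [hstep]
      linarith
  have hg := hgeo n (Nat.div_le_self n 2)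
  have hx : (0 : ℝ) ≤ (2 : ℝ) ^ ((n : ℝ) - 2 * n + 2) := Real.rpow_nonneg (by norm_num) _
  have hfin : ∑ j ∈ Icc (n / 2 + 1) n, (2 : ℝ) ^ ((n : ℝ) - 2 * j + 2) ≤ 3 := by
    linarith
  have := mul_le_mul_of_nonneg_left hfin (by positivity : 0 ≤ 2 * (n.choose (n / 2) : ℝ) / n)
  refine this.trans (le_of_eq ?_)
  ring

theorem sumE7 {n : ℕ} (hn : 2 ≤ n) :
    ∑ j ∈ Icc 2 n, (n.choose j : ℝ) / ((n : ℝ) - j + 1) * (1 / ((j : ℝ) - 1)) ≤
      16 * (n.choose (n / 2) : ℝ) / n := by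
  have hn0 : (0 : ℝ) < n := by exact_mod_cast (by omega : 0 < n)
  have hN : (0 : ℝ) ≤ n.choose (n / 2) := by positivity
  have hterm : ∀ j ∈ Icc 2 n, (n.choose j : ℝ) / ((n : ℝ) - j + 1) * (1 / ((j : ℝ) - 1)) ≤
      2 / n * (((n + 1).choose j : ℝ) / j) := by
    intro j hj
    rw [mem_Icc] at hj
    have hj2 : (2 : ℝ) ≤ j := by exact_mod_cast hj.1
    rw [choose_div hj.2]
    have hj1 : 1 / ((j : ℝ) - 1) ≤ 2 / j := by
      rw [div_le_div_iff₀ (by linarith) (by linarith)]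
      linarith
    have hc : (0 : ℝ) ≤ (n + 1).choose j := by positivity
    have h1 : ((n + 1).choose j : ℝ) / ((n : ℝ) + 1) ≤ ((n + 1).choose j : ℝ) / n :=
      div_le_div_of_nonneg_left hc hn0 (by linarith)
    have hj0 : (0 : ℝ) ≤ 1 / ((j : ℝ) - 1) := div_nonneg (by norm_num) (by linarith)
    have h2 : ((n + 1).choose j : ℝ) / ((n : ℝ) + 1) * (1 / ((j : ℝ) - 1)) ≤
        ((n + 1).choose j : ℝ) / n * (2 / j) := mul_le_mul h1 hj1 hj0 (by positivity)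
    refine h2.trans (le_of_eq ?_)
    ring
  refine (Finset.sum_le_sum hterm).trans ?_
  rw [← Finset.mul_sum]
  have hs : ∑ j ∈ Icc 2 n, ((n + 1).choose j : ℝ) / j ≤
      ∑ j ∈ Icc 1 n, ((n + 1).choose j : ℝ) / j := by
    refine Finset.sum_le_sum_of_subset_of_nonneg ?_ (fun _ _ _ => by positivity)
    intro j hj
    rw [mem_Icc] at hj ⊢
    omega
  have := mul_le_mul_of_nonneg_left (hs.trans (sum_choose_div n))
    (by positivity : 0 ≤ 2 / (n : ℝ))
  refine this.trans (le_of_eq ?_)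
  ring

/-- Telescoping: `C(n, j) (n - 2j + 1)/(n - j + 1) = C(n, j) - C(n, j - 1)`. -/
theorem choose_tele {n j : ℕ} (hj : 1 ≤ j) (hjn : j ≤ n) :
    (n.choose j : ℝ) * (((n : ℝ) - 2 * j + 1) / ((n : ℝ) - j + 1)) =
      n.choose j - n.choose (j - 1) := by
  obtain ⟨i, rfl⟩ : ∃ i, j = i + 1 := ⟨j - 1, by omega⟩
  have hD : (0 : ℝ) < (n : ℝ) - ((i + 1 : ℕ) : ℝ) + 1 := by
    have : ((i + 1 : ℕ) : ℝ) ≤ n := by exact_mod_cast hjn
    linarith
  rw [← mul_div_assoc, BinB_tele hjn, Nat.add_sub_cancel, mul_div_assoc, div_self hD.ne', mul_one]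

end Pool.Agent.Lib.MP_380ab1_coE
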