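import Pool.Agent.Lib.MP_380ab1_coE.Tot

/-!
# Chain: the chain rule over the levels and the upper bound
-/

namespace Pool.Agent.Lib.MP_380ab1_coE

open Finset Pool.Agent.BoolD

variable {α : Type*} [DecidableEq α] [Fintype α]

/-- All sets of size `< i`. -/
def Lt (i : ℕ) : Finset (Finset α) := univ.filter (fun x => x.card < i)

omit [DecidableEq α] in
theorem mem_Lt {i : ℕ} {x : Finset α} : x ∈ (Lt i : Finset (Finset α)) ↔ x.card < i := by
  unfold Lt
  rw [mem_filter]
  exact ⟨fun h => h.2, fun h => ⟨mem_univ _, h⟩⟩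

theorem Lt_succ (i : ℕ) : (Lt (i + 1) : Finset (Finset α)) = Lt i ∪ Lv i := by
  ext x
  rw [mem_union, mem_Lt, mem_Lt, mem_Lv]
  omega

theorem chain_step (K : Finset (Finset (Finset α))) (i : ℕ) (Φ : Finset (Finset α) → ℝ)
    (h : ∀ K' ⊆ K, (∀ F ∈ K', ∀ G ∈ K', Agr F G i) → Ent K' (Lv i) ≤ ∑ F ∈ K', Φ F) :
    Ent K (Lt (i + 1)) ≤ Ent K (Lt i) + ∑ F ∈ K, Φ F := by
  rw [Lt_succ, Ent_chain]
  have h1 : ∑ F ∈ K, Φ F = ∑ y ∈ K.image (fun F => F ∩ Lt i),
      ∑ F ∈ K.filter (fun F => F ∩ Lt i = y), Φ F :=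
    (sum_fiberwise_of_maps_to (fun F hF => mem_image_of_mem (fun F => F ∩ Lt i) hF) Φ).symm
  rw [h1]
  apply add_le_add le_rfl
  apply sum_le_sum
  intro y _
  apply h _ (filter_subset _ _)
  intro F hF G hG x hx
  rw [mem_filter] at hF hG
  have hx' : x ∈ (Lt i : Finset (Finset α)) := mem_Lt.2 hx
  constructor
  · intro hxF
    have : x ∈ F ∩ Lt i := mem_inter.2 ⟨hxF, hx'⟩
    rw [hF.2, ← hG.2] at this
    exact (mem_inter.1 this).1
  · intro hxG
    have : x ∈ G ∩ Lt i := mem_inter.2 ⟨hxG, hx'⟩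
    rw [hG.2, ← hF.2] at this
    exact (mem_inter.1 this).1

/-- The bound of the contribution of level `i`. -/
noncomputable def Phi (i : ℕ) (F : Finset (Finset α)) : ℝ :=
  if i = 0 then 0 else if i < Fintype.card α / 2 then PhiL F i
  else if i < Fintype.card α then PhiU F i else Real.log 2 * (Uu F i).card

theorem Uu_zero (F : Finset (Finset α)) : Uu F 0 = ∅ := by
  rw [eq_empty_iff_forall_notMem]
  intro x hx
  have h := mem_Uu.1 hx
  have h0 : x = ∅ := card_eq_zero.1 h.1
  apply h.2
  rw [h0]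
  exact subset_empty.1 (vv_subset F ∅)

theorem Ent_le_Phi {K : Finset (Finset (Finset α))} (hK : ∀ F ∈ K, UC F) (i : ℕ)
    (hag : ∀ F ∈ K, ∀ G ∈ K, Agr F G i) : Ent K (Lv i) ≤ ∑ F ∈ K, Phi i F := by
  by_cases h0 : i = 0
  · refine (level_top hK i hag).trans (le_of_eq ?_)
    apply sum_congr rfl
    intro F _
    subst h0
    rw [Uu_zero, card_empty, Phi, if_pos rfl]
    norm_num
  · by_cases h1 : i < Fintype.card α / 2
    · refine (level_low hK (by omega) (by omega) hag).trans (le_of_eq ?_)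
      apply sum_congr rfl
      intro F _
      rw [Phi, if_neg h0, if_pos h1]
    · by_cases h2 : i < Fintype.card α
      · refine (level_up hK (by omega) (by omega) hag).trans (le_of_eq ?_)
        apply sum_congr rfl
        intro F _
        rw [Phi, if_neg h0, if_neg h1, if_pos h2]
      · refine (level_top hK i hag).trans (le_of_eq ?_)
        apply sum_congr rfl
        intro F _
        rw [Phi, if_neg h0, if_neg h1, if_neg h2]

theorem Ent_Lt_le {K : Finset (Finset (Finset α))} (hK : ∀ F ∈ K, UC F) (i : ℕ) :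
    Ent K (Lt i) ≤ ∑ F ∈ K, ∑ k ∈ range i, Phi k F := by
  induction i with
  | zero =>
    have h0 : (Lt 0 : Finset (Finset α)) = ∅ := by
      rw [eq_empty_iff_forall_notMem]
      intro x hx
      exact absurd (mem_Lt.1 hx) (Nat.not_lt_zero _)
    rw [h0, Ent_empty]
    simp
  | succ i ih =>
    have h1 := chain_step K i (Phi i) (fun K' hK' hag => Ent_le_Phi (fun F hF => hK F (hK' hF)) i hag)
    have h2 : ∑ F ∈ K, ∑ k ∈ range (i + 1), Phi k F =
        ∑ F ∈ K, ∑ k ∈ range i, Phi k F + ∑ F ∈ K, Phi i F := by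
      rw [← sum_add_distrib]
      exact sum_congr rfl fun F _ => sum_range_succ _ _
    rw [h2]
    linarith

theorem sum_Phi (F : Finset (Finset α)) (hn : 2 ≤ Fintype.card α) :
    ∑ k ∈ range (Fintype.card α + 1), Phi k F =
      ∑ i ∈ Ico 1 (Fintype.card α / 2), PhiL F i +
      ∑ i ∈ Ico (Fintype.card α / 2) (Fintype.card α), PhiU F i +
      Real.log 2 * (Uu F (Fintype.card α)).card := by
  have e1 : ∑ i ∈ Ico 1 (Fintype.card α / 2), PhiL F i =
      ∑ i ∈ Ico 1 (Fintype.card α / 2), Phi i F := by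
    apply sum_congr rfl
    intro i hi
    rw [mem_Ico] at hi
    rw [Phi, if_neg (by omega), if_pos hi.2]
  have e2 : ∑ i ∈ Ico (Fintype.card α / 2) (Fintype.card α), PhiU F i =
      ∑ i ∈ Ico (Fintype.card α / 2) (Fintype.card α), Phi i F := by
    apply sum_congr rfl
    intro i hi
    rw [mem_Ico] at hi
    rw [Phi, if_neg (by omega), if_neg (by omega), if_pos hi.2]
  have e3 : Real.log 2 * (Uu F (Fintype.card α)).card = Phi (Fintype.card α) F := by
    rw [Phi, if_neg (by omega), if_neg (by omega), if_neg (by omega)]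
  have e4 : Phi 0 F = 0 := by rw [Phi, if_pos rfl]
  rw [e1, e2, e3, sum_Ico_consecutive _ (by omega) (by omega), sum_range_succ,
    ← sum_range_add_sum_Ico _ (show 1 ≤ Fintype.card α by omega), sum_range_one, e4, zero_add]

theorem Ent_top (K : Finset (Finset (Finset α))) :
    Ent K (Lt (Fintype.card α + 1)) = K.card * Real.log K.card := by
  apply Ent_full
  intro F _ G _ h
  have h1 : (Lt (Fintype.card α + 1) : Finset (Finset α)) = univ := by
    rw [eq_univ_iff_forall]
    intro x
    rw [mem_Lt]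
    exact Nat.lt_succ_of_le (card_le_univ x)
  rwa [h1, inter_univ, inter_univ] at h

/-- The upper bound of the number of union-closed families. -/
theorem upper_bound (hn : 2 ≤ Fintype.card α) :
    Real.log ((U α).card : ℝ) ≤
      Real.log 2 * (Fintype.card α).choose (Fintype.card α / 2) +
      154 * Real.log (Fintype.card α) *
        (Fintype.card α).choose (Fintype.card α / 2) / Fintype.card α := by
  have hK : ∀ F ∈ U α, UC F := fun F hF => mem_U.1 hF
  have h1 := Ent_Lt_le hK (Fintype.card α + 1)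
  rw [Ent_top] at h1
  have h2 : ∑ F ∈ U α, ∑ k ∈ range (Fintype.card α + 1), Phi k F ≤
      ∑ F ∈ U α, (Real.log 2 * (Fintype.card α).choose (Fintype.card α / 2) +
      154 * Real.log (Fintype.card α) *
        (Fintype.card α).choose (Fintype.card α / 2) / Fintype.card α) := by
    apply sum_le_sum
    intro F hF
    rw [sum_Phi F hn]
    exact total_le (hK F hF) hn
  rw [sum_const, nsmul_eq_mul] at h2
  have hpos : (0 : ℝ) < (U α).card := by
    have : (univ : Finset (Finset α)) ∈ U α := by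
      rw [mem_U]
      exact ⟨mem_univ _, fun A _ B _ => mem_univ _⟩
    exact_mod_cast card_pos.2 ⟨_, this⟩
  exact le_of_mul_le_mul_left (h1.trans h2) hpos

end Pool.Agent.Lib.MP_380ab1_coE
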