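import Pool.Agent.Lib.MP_380ab1_co.Families

/-!
# The lower bound of the number of union-closed families
-/

namespace Pool.Agent.Lib.MP_380ab1_coE

open Finset Pool.Agent.BoolD

private theorem Code_pair {n k : ℕ} {x y : Finset (Fin n)} (hx : x.card = k) (hy : y.card = k)
    (hc : ∑ e ∈ x, ((e : ℕ) : ZMod n) = ∑ e ∈ y, ((e : ℕ) : ZMod n)) (hxy : x ≠ y) :
    2 ≤ (x \ y).card := by
  by_contra hlt
  have hcard : (x \ y).card = (y \ x).card := by
    have h1 := card_sdiff_add_card_inter x y
    have h2 := card_sdiff_add_card_inter y x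
    rw [inter_comm y x] at h2
    omega
  rcases Nat.eq_zero_or_pos (x \ y).card with h0 | h0
  · have h1 : x ⊆ y := by
      rw [card_eq_zero, sdiff_eq_empty_iff_subset] at h0
      exact h0
    exact hxy (eq_of_subset_of_card_le h1 (by omega))
  · have h1 : (x \ y).card = 1 := by omega
    have h2 : (y \ x).card = 1 := by omega
    obtain ⟨a, ha⟩ := card_eq_one.1 h1
    obtain ⟨b, hb⟩ := card_eq_one.1 h2
    have ex : ∑ e ∈ x, ((e : ℕ) : ZMod n) = ((a : ℕ) : ZMod n) + ∑ e ∈ x ∩ y, ((e : ℕ) : ZMod n) := by
      rw [← sdiff_union_inter x y, sum_union (disjoint_sdiff_inter x y), ha, sum_singleton,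
        ← ha, sdiff_union_inter]
    have ey : ∑ e ∈ y, ((e : ℕ) : ZMod n) = ((b : ℕ) : ZMod n) + ∑ e ∈ x ∩ y, ((e : ℕ) : ZMod n) := by
      rw [← sdiff_union_inter y x, sum_union (disjoint_sdiff_inter y x), hb, sum_singleton,
        ← hb, sdiff_union_inter, inter_comm y x]
    rw [ex, ey] at hc
    have hab : ((a : ℕ) : ZMod n) = ((b : ℕ) : ZMod n) := add_right_cancel hc
    have hab' : (a : ℕ) = (b : ℕ) := by
      rw [ZMod.natCast_eq_natCast_iff'] at hab
      rwa [Nat.mod_eq_of_lt a.2, Nat.mod_eq_of_lt b.2] at hab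
    have hab2 : a = b := Fin.ext hab'
    have ha' : a ∈ x \ y := by rw [ha]; exact mem_singleton_self a
    have hb' : b ∈ y \ x := by rw [hb]; exact mem_singleton_self b
    rw [mem_sdiff] at ha' hb'
    exact ha'.2 (hab2 ▸ hb'.1)

/-- Graham-Sloane codes: a set of `k`-subsets of `Fin n`, pairwise with at least two differences on
each side, with at least `C(n, k) / n` elements. -/
theorem exists_code (n k : ℕ) (hn : 1 ≤ n) :
    ∃ C : Finset (Finset (Fin n)), (∀ x ∈ C, x.card = k) ∧
      (∀ x ∈ C, ∀ y ∈ C, x ≠ y → 2 ≤ (x \ y).card) ∧ n.choose k ≤ n * C.card := by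
  classical
  have : NeZero n := ⟨by omega⟩
  let S : Finset (Finset (Fin n)) := powersetCard k univ
  let c : Finset (Fin n) → ZMod n := fun x => ∑ e ∈ x, ((e : ℕ) : ZMod n)
  have hS : S.card = n.choose k := by
    simp only [S, card_powersetCard, card_univ, Fintype.card_fin]
  have hex : ∃ y : ZMod n, S.card ≤ n * (S.filter (fun x => c x = y)).card := by
    by_contra hcon
    have hcon' : ∀ y : ZMod n, n * (S.filter (fun x => c x = y)).card < S.card := fun y =>
      not_le.1 fun h => hcon ⟨y, h⟩
    have h1 : S.card = ∑ y : ZMod n, (S.filter (fun x => c x = y)).card :=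
      card_eq_sum_card_fiberwise (fun x _ => mem_univ _)
    have h2 : ∑ y : ZMod n, n * (S.filter (fun x => c x = y)).card < ∑ _y : ZMod n, S.card :=
      sum_lt_sum_of_nonempty ⟨0, mem_univ _⟩ fun y _ => hcon' y
    rw [← mul_sum, ← h1, sum_const, card_univ, ZMod.card, smul_eq_mul] at h2
    exact lt_irrefl _ h2
  obtain ⟨y, hy⟩ := hex
  refine ⟨S.filter (fun x => c x = y), ?_, ?_, ?_⟩
  · intro x hx
    exact (mem_powersetCard.1 (mem_filter.1 hx).1).2
  · intro x hx z hz hxz
    have hx' := mem_filter.1 hx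
    have hz' := mem_filter.1 hz
    exact Code_pair (mem_powersetCard.1 hx'.1).2 (mem_powersetCard.1 hz'.1).2
      (hx'.2.trans hz'.2.symm) hxz
  · rw [← hS]
    exact hy

/-- The family of the lower bound. -/
private def Code_F (n h : ℕ) (p : Finset (Finset (Fin n)) × Finset (Finset (Fin n))) :
    Finset (Finset (Fin n)) :=
  ({∅} ∪ p.1 ∪ p.2) ∪ univ.filter (fun x : Finset (Fin n) => h < x.card)

private theorem Code_mem {n h : ℕ} {p : Finset (Finset (Fin n)) × Finset (Finset (Fin n))}
    {x : Finset (Fin n)} : x ∈ Code_F n h p ↔ x = ∅ ∨ x ∈ p.1 ∨ x ∈ p.2 ∨ h < x.card := by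
  simp only [Code_F, mem_union, mem_singleton, mem_filter, mem_univ, true_and, or_assoc]

/-- The families made from subsets of the code and sets of size `h` are union-closed, and they are
pairwise different. -/
theorem two_pow_le_U {n h : ℕ} (hh : 2 ≤ h) {C : Finset (Finset (Fin n))}
    (hC : ∀ x ∈ C, x.card = h - 1) (hC2 : ∀ x ∈ C, ∀ y ∈ C, x ≠ y → 2 ≤ (x \ y).card) :
    2 ^ (n.choose h + C.card) ≤ (U (Fin n)).card := by
  classical
  have hcard : (C.powerset ×ˢ (powersetCard h (univ : Finset (Fin n))).powerset).card =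
      2 ^ (n.choose h + C.card) := by
    rw [card_product, card_powerset, card_powerset, card_powersetCard, card_univ, Fintype.card_fin,
      pow_add, mul_comm]
  rw [← hcard]
  refine card_le_card_of_injOn (Code_F n h) ?_ ?_
  · intro p hp
    rw [mem_coe, mem_product, mem_powerset, mem_powerset] at hp
    obtain ⟨hp1, hp2⟩ := hp
    have hc1 : ∀ x ∈ p.1, x.card = h - 1 := fun x hx => hC x (hp1 hx)
    have hc2 : ∀ x ∈ p.2, x.card = h := fun x hx => (mem_powersetCard.1 (hp2 hx)).2
    rw [mem_coe, U, mem_filter]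
    refine ⟨mem_univ _, Code_mem.2 (Or.inl rfl), ?_⟩
    intro A hA B hB
    by_cases hlt : h < (A ∪ B).card
    · exact Code_mem.2 (Or.inr (Or.inr (Or.inr hlt)))
    · have hA' : A.card ≤ (A ∪ B).card := card_le_card subset_union_left
      have hB' : B.card ≤ (A ∪ B).card := card_le_card subset_union_right
      rcases Code_mem.1 hA with h1 | h1 | h1 | h1
      · rw [h1, empty_union]
        exact hB
      · rcases Code_mem.1 hB with h2 | h2 | h2 | h2
        · rw [h2, union_empty]
          exact hA
        · by_cases hAB : A = B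
          · rw [hAB, union_self]
            exact hB
          · exfalso
            have h3 := hC2 A (hp1 h1) B (hp1 h2) hAB
            have h4 : (A ∪ B).card = B.card + (A \ B).card := by
              rw [union_comm A B, ← union_sdiff_self_eq_union (s := B) (t := A),
                card_union_of_disjoint disjoint_sdiff]
            have h5 := hc1 B h2
            omega
        · have h3 : A ∪ B = B := by
            refine (eq_of_subset_of_card_le subset_union_right ?_).symm
            have := hc2 B h2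
            omega
          rw [h3]
          exact hB
        · omega
      · have h3 : A ∪ B = A := by
          refine (eq_of_subset_of_card_le subset_union_left ?_).symm
          have := hc2 A h1
          omega
        rw [h3]
        exact hA
      · omega
  · intro p hp p' hp' heq
    rw [mem_coe, mem_product, mem_powerset, mem_powerset] at hp hp'
    obtain ⟨hp1, hp2⟩ := hp
    obtain ⟨hp1', hp2'⟩ := hp'
    have hc1 : ∀ x ∈ p.1, x.card = h - 1 := fun x hx => hC x (hp1 hx)
    have hc2 : ∀ x ∈ p.2, x.card = h := fun x hx => (mem_powersetCard.1 (hp2 hx)).2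
    have hc1' : ∀ x ∈ p'.1, x.card = h - 1 := fun x hx => hC x (hp1' hx)
    have hc2' : ∀ x ∈ p'.2, x.card = h := fun x hx => (mem_powersetCard.1 (hp2' hx)).2
    have key : ∀ x : Finset (Fin n), (x = ∅ ∨ x ∈ p.1 ∨ x ∈ p.2 ∨ h < x.card) ↔
        (x = ∅ ∨ x ∈ p'.1 ∨ x ∈ p'.2 ∨ h < x.card) := by
      intro x
      rw [← Code_mem, ← Code_mem, heq]
    have e1 : p.1 = p'.1 := by
      ext x
      have hk := key x
      constructor
      · intro hx
        have hxc := hc1 x hx
        rcases hk.1 (Or.inr (Or.inl hx)) with h1 | h1 | h1 | h1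
        · rw [h1, card_empty] at hxc
          omega
        · exact h1
        · have := hc2' x h1
          omega
        · omega
      · intro hx
        have hxc := hc1' x hx
        rcases hk.2 (Or.inr (Or.inl hx)) with h1 | h1 | h1 | h1
        · rw [h1, card_empty] at hxc
          omega
        · exact h1
        · have := hc2 x h1
          omega
        · omega
    have e2 : p.2 = p'.2 := by
      ext x
      have hk := key x
      constructor
      · intro hx
        have hxc := hc2 x hx
        rcases hk.1 (Or.inr (Or.inr (Or.inl hx))) with h1 | h1 | h1 | h1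
        · rw [h1, card_empty] at hxc
          omega
        · have := hc1' x h1
          omega
        · exact h1
        · omega
      · intro hx
        have hxc := hc2' x hx
        rcases hk.2 (Or.inr (Or.inr (Or.inl hx))) with h1 | h1 | h1 | h1
        · rw [h1, card_empty] at hxc
          omega
        · have := hc1 x h1
          omega
        · exact h1
        · omega
    exact Prod.ext e1 e2

private theorem Code_ratio {n c : ℕ} (hn : 3 ≤ n) (hc : n.choose ((n + 1) / 2 - 1) ≤ n * c) :
    n.choose (n / 2) ≤ (n + 2) * c := by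
  rcases Nat.even_or_odd' n with ⟨m, hm | hm⟩
  · have e1 : (n + 1) / 2 - 1 = m - 1 := by omega
    have e2 : n / 2 = m - 1 + 1 := by omega
    rw [e1] at hc
    have h1 := Nat.choose_succ_right_eq n (m - 1)
    have e3 : m - 1 + 1 = m := by omega
    have e4 : n - (m - 1) = m + 1 := by omega
    rw [e2]
    rw [e4] at h1
    rw [e3] at h1 ⊢
    have hm0 : 0 < m := by omega
    refine Nat.le_of_mul_le_mul_right ?_ hm0
    calc n.choose m * m = n.choose (m - 1) * (m + 1) := h1
      _ ≤ (n * c) * (m + 1) := Nat.mul_le_mul_right _ hc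
      _ = (n + 2) * c * m := by rw [hm]; ring
  · have e1 : (n + 1) / 2 - 1 = n / 2 := by omega
    rw [e1] at hc
    exact hc.trans (Nat.mul_le_mul_right _ (by omega))

/-- The lower bound. -/
theorem lower_bound {n : ℕ} (hn : 3 ≤ n) :
    Real.log 2 * ((n.choose (n / 2) : ℝ) * (1 + 1 / ((n : ℝ) + 2))) ≤
      Real.log ((U (Fin n)).card : ℝ) := by
  obtain ⟨C, hC1, hC2, hC3⟩ := exists_code n ((n + 1) / 2 - 1) (by omega)
  have h1 := two_pow_le_U (n := n) (h := (n + 1) / 2) (by omega) hC1 hC2
  have h2 := Code_ratio hn hC3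
  have h3 : n.choose ((n + 1) / 2) = n.choose (n / 2) :=
    Nat.choose_symm_of_eq_add (by omega)
  rw [h3] at h1
  have h4 : ((2 : ℝ) ^ (n.choose (n / 2) + C.card)) ≤ ((U (Fin n)).card : ℝ) := by
    exact_mod_cast h1
  have h5 := Real.log_le_log (by positivity) h4
  rw [Real.log_pow] at h5
  have hl : 0 < Real.log 2 := Real.log_pos one_lt_two
  have h6 : (n.choose (n / 2) : ℝ) ≤ ((n : ℝ) + 2) * (C.card : ℝ) := by exact_mod_cast h2
  have hn2 : (0 : ℝ) < (n : ℝ) + 2 := by positivity
  have h7 : (n.choose (n / 2) : ℝ) * (1 + 1 / ((n : ℝ) + 2)) ≤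
      (n.choose (n / 2) : ℝ) + (C.card : ℝ) := by
    have h8 : (n.choose (n / 2) : ℝ) / ((n : ℝ) + 2) ≤ (C.card : ℝ) := by
      rw [div_le_iff₀ hn2]
      linarith [mul_comm ((n : ℝ) + 2) (C.card : ℝ)]
    calc (n.choose (n / 2) : ℝ) * (1 + 1 / ((n : ℝ) + 2)) =
        (n.choose (n / 2) : ℝ) + (n.choose (n / 2) : ℝ) / ((n : ℝ) + 2) := by ring
      _ ≤ _ := by linarith
  calc Real.log 2 * ((n.choose (n / 2) : ℝ) * (1 + 1 / ((n : ℝ) + 2))) ≤
      Real.log 2 * ((n.choose (n / 2) : ℝ) + (C.card : ℝ)) := mul_le_mul_of_nonneg_left h7 hl.le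
    _ = ((n.choose (n / 2) + C.card : ℕ) : ℝ) * Real.log 2 := by push_cast; ring
    _ ≤ _ := h5

end Pool.Agent.Lib.MP_380ab1_coE
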