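import Pool.Agent.Lib.MP_380ab1_coE.Str

/-!
# Cov: the sets of size `i + 1`, their lower covers and the events of not being forced
-/

namespace Pool.Agent.Lib.MP_380ab1_coE

open Finset Pool.Agent.BoolD

variable {α : Type*} [DecidableEq α] [Fintype α]

omit [DecidableEq α] [Fintype α] in
private theorem Cov_ssub {i : ℕ} {B x : Finset α} (hB : B.card = i + 1) (hx : x.card = i)
    (h : x ⊆ B) : x ⊂ B := by
  refine lt_of_le_of_ne h fun e => ?_
  rw [e, hB] at hx
  omega

omit [Fintype α] in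
/-- Two distinct lower covers have union `B`. -/
theorem union_lower {i : ℕ} {B x x' : Finset α} (hB : B.card = i + 1) (hx : x.card = i)
    (hx' : x'.card = i) (h : x ⊆ B) (h' : x' ⊆ B) (hne : x ≠ x') : x ∪ x' = B := by
  refine eq_of_subset_of_card_le (union_subset h h') ?_
  rw [hB]
  by_contra hlt
  have h1 : x ∪ x' = x := (eq_of_subset_of_card_le subset_union_left (by omega)).symm
  have h2 : x' ⊆ x := by
    rw [← h1]
    exact subset_union_right
  exact hne (eq_of_subset_of_card_le h2 (by omega)).symm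

omit [Fintype α] in
/-- If `B` is not forced, at most one of its lower covers is a member. -/
theorem lower_unique {F : Finset (Finset α)} {i : ℕ} {B x x' : Finset α} (hB : B.card = i + 1)
    (hx : x.card = i) (hx' : x'.card = i) (h : x ⊆ B) (h' : x' ⊆ B) (hF : x ∈ F) (hF' : x' ∈ F)
    (hvv : vv F B ≠ B) : x = x' := by
  by_contra hne
  apply hvv
  refine (vv_subset F B).antisymm ?_
  calc B = x ∪ x' := (union_lower hB hx hx' h h' hne).symm
    _ ⊆ vv F B := union_subset (le_vv hF (Cov_ssub hB hx h)) (le_vv hF' (Cov_ssub hB hx' h'))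

/-- Not forced implies not already forced. -/
theorem Uu_subset_Nn {F : Finset (Finset α)} (hF : UC F) (i : ℕ) : Uu F (i + 1) ⊆ Nn F i := by
  intro x hx
  rw [mem_Uu] at hx
  rw [mem_Nn]
  refine ⟨hx.1, fun h => hx.2 ?_⟩
  refine (vv_subset F x).antisymm ?_
  calc x = vv (Gg F i) x := h.symm
    _ ⊆ vv F x := vv_mono (Gg_subset hF i) x

/-- A set which is not already forced has at most one forced lower cover. -/
theorem Ww_unique {F : Finset (Finset α)} {i : ℕ} {B x x' : Finset α} (hB : B ∈ Nn F i)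
    (hx : x ∈ Ww F i) (hx' : x' ∈ Ww F i) (h : x ⊆ B) (h' : x' ⊆ B) : x = x' :=
  lower_unique (mem_Nn.1 hB).1 (mem_Ww.1 hx).1 (mem_Ww.1 hx').1 h h' (mem_Gg.2 (Or.inr hx))
    (mem_Gg.2 (Or.inr hx')) (mem_Nn.1 hB).2

omit [Fintype α] in
private theorem Cov_vv_eq {F : Finset (Finset α)} {i : ℕ} {B x : Finset α} (hB : B.card = i + 1)
    (hx : x.card = i) (h : x ⊆ B) (hF : x ∈ F) (hvv : vv F B ≠ B) : vv F B = x := by
  have h1 : x ⊆ vv F B := le_vv hF (Cov_ssub hB hx h)
  have h2 : (vv F B).card < i + 1 := by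
    rw [← hB]
    exact card_lt_card (lt_of_le_of_ne (vv_subset F B) hvv)
  exact (eq_of_subset_of_card_le h1 (by omega)).symm

/-- If `B` is not already forced and `x` is its forced lower cover, then `vv (Gg F i) B = x`. -/
theorem vv_Gg_eq {F : Finset (Finset α)} {i : ℕ} {B x : Finset α} (hB : B ∈ Nn F i)
    (hx : x ∈ Ww F i) (h : x ⊆ B) : vv (Gg F i) B = x :=
  Cov_vv_eq (mem_Nn.1 hB).1 (mem_Ww.1 hx).1 h (mem_Gg.2 (Or.inr hx)) (mem_Nn.1 hB).2

private theorem Cov_mem {F : Finset (Finset α)} {i : ℕ} {B x : Finset α} :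
    x ∈ powersetCard i B ∩ Uu F i ↔ x ⊆ B ∧ x.card = i ∧ vv F x ≠ x := by
  rw [mem_inter, mem_powersetCard, mem_Uu]
  tauto

/-- For `B ∈ B0 F i` all `i + 1` lower covers are nonforced. -/
theorem B0_inter {F : Finset (Finset α)} {i : ℕ} {B : Finset α} (hB : B ∈ B0 F i) :
    powersetCard i B ∩ Uu F i = powersetCard i B ∧ (powersetCard i B ∩ Uu F i).card = i + 1 := by
  rw [mem_B0] at hB
  have h : powersetCard i B ∩ Uu F i = powersetCard i B := by
    refine inter_eq_left.2 fun x hx => ?_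
    rw [mem_powersetCard] at hx
    rw [mem_Uu]
    exact ⟨hx.2, fun h => hB.2 x (mem_Ww.2 ⟨hx.2, h⟩) hx.1⟩
  refine ⟨h, ?_⟩
  rw [h, card_powersetCard, (mem_Nn.1 hB.1).1, Nat.choose_succ_self_right]

/-- For `B ∈ B1 F i` exactly `i` lower covers are nonforced. -/
theorem B1_inter {F : Finset (Finset α)} {i : ℕ} {B : Finset α} (hB : B ∈ B1 F i) :
    (powersetCard i B ∩ Uu F i).card = i := by
  rw [mem_B1] at hB
  obtain ⟨hN, x0, hx0, hx0B⟩ := hB
  have h : powersetCard i B ∩ Uu F i = (powersetCard i B).erase x0 := by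
    ext x
    rw [Cov_mem, mem_erase, mem_powersetCard]
    constructor
    · rintro ⟨h1, h2, h3⟩
      refine ⟨fun e => h3 ?_, h1, h2⟩
      rw [e]
      exact (mem_Ww.1 hx0).2
    · rintro ⟨h1, h2, h3⟩
      refine ⟨h2, h3, fun e => h1 ?_⟩
      exact Ww_unique hN (mem_Ww.2 ⟨h3, e⟩) hx0 h2 hx0B
  rw [h, card_erase_of_mem (mem_powersetCard.2 ⟨hx0B, (mem_Ww.1 hx0).1⟩), card_powersetCard,
    (mem_Nn.1 hN).1, Nat.choose_succ_self_right]
  rfl

/-- If `B ∈ B1 F i` is not forced in `F`, no nonforced lower cover is a member. -/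
theorem B1_trace {F : Finset (Finset α)} (hF : UC F) {i : ℕ} {B : Finset α} (hB : B ∈ B1 F i)
    (hvv : vv F B ≠ B) : F ∩ (powersetCard i B ∩ Uu F i) = ∅ := by
  rw [mem_B1] at hB
  obtain ⟨hN, x0, hx0, hx0B⟩ := hB
  rw [eq_empty_iff_forall_notMem]
  intro x hx
  rw [mem_inter, Cov_mem] at hx
  obtain ⟨h1, h2, h3, h4⟩ := hx
  have h5 : x = x0 :=
    lower_unique (mem_Nn.1 hN).1 h3 (mem_Ww.1 hx0).1 h2 hx0B h1 (Ww_subset hF i hx0) hvv
  apply h4
  rw [h5]
  exact (mem_Ww.1 hx0).2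

/-- If `B ∈ B0 F i` is not forced in `F`, at most one lower cover is a member. -/
theorem B0_trace {F : Finset (Finset α)} {i : ℕ} {B : Finset α} (hB : B ∈ B0 F i)
    (hvv : vv F B ≠ B) : (F ∩ (powersetCard i B ∩ Uu F i)).card ≤ 1 := by
  rw [card_le_one]
  intro x hx x' hx'
  rw [mem_inter, Cov_mem] at hx hx'
  exact lower_unique (mem_Nn.1 (mem_B0.1 hB).1).1 hx.2.2.1 hx'.2.2.1 hx.2.1 hx'.2.1 hx.1 hx'.1 hvv

/-- If `B ∈ B0 F i` is not forced in `F` and one lower cover `x` is a member, then `vv F B = x`,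
`|A(F, B)| = 1` and `x` is nonforced. -/
theorem B0_trace_one {F : Finset (Finset α)} {i : ℕ} {B : Finset α} (hB : B ∈ B0 F i)
    (hvv : vv F B ≠ B) (h1 : (F ∩ (powersetCard i B ∩ Uu F i)).card = 1) :
    (AA F B).card = 1 ∧ vv F (vv F B) ≠ vv F B := by
  obtain ⟨x, hx⟩ := card_eq_one.1 h1
  have hx1 : x ∈ F ∩ (powersetCard i B ∩ Uu F i) := by
    rw [hx]
    exact mem_singleton_self x
  rw [mem_inter, Cov_mem] at hx1
  obtain ⟨h2, h3, h4, h5⟩ := hx1
  have hB1 : B.card = i + 1 := (mem_Nn.1 (mem_B0.1 hB).1).1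
  have h6 : vv F B = x := Cov_vv_eq hB1 h4 h3 h2 hvv
  have h7 := AA_card_add F B
  rw [h6, hB1, h4] at h7
  refine ⟨by omega, ?_⟩
  rw [h6]
  exact h5

/-- The three kinds of upper covers of a set of size `i` add up to `n - i`. -/
theorem upper_split {F : Finset (Finset α)} {i : ℕ} {x : Finset α} (hx : x.card = i) :
    ((B0 F i).filter (fun B => x ⊆ B)).card + ((B1 F i).filter (fun B => x ⊆ B)).card +
      ((B2 F i).filter (fun B => x ⊆ B)).card = Fintype.card α - i := by
  rw [← card_upper hx]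
  have e1 : (B2 F i).filter (fun B => x ⊆ B) =
      ((Lv (i + 1) : Finset (Finset α)).filter (fun B => x ⊆ B)).filter
        (fun B => vv (Gg F i) B = B) := by
    rw [B2, filter_filter, filter_filter]
    exact filter_congr fun _ _ => and_comm
  have e2 : (Nn F i).filter (fun B => x ⊆ B) =
      ((Lv (i + 1) : Finset (Finset α)).filter (fun B => x ⊆ B)).filter
        (fun B => ¬ vv (Gg F i) B = B) := by
    rw [Nn, filter_filter, filter_filter]
    exact filter_congr fun _ _ => and_comm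
  have e3 : (B1 F i).filter (fun B => x ⊆ B) =
      ((Nn F i).filter (fun B => x ⊆ B)).filter (fun B => ∃ y ∈ Ww F i, y ⊆ B) := by
    rw [B1, filter_filter, filter_filter]
    exact filter_congr fun _ _ => and_comm
  have e4 : (B0 F i).filter (fun B => x ⊆ B) =
      ((Nn F i).filter (fun B => x ⊆ B)).filter (fun B => ¬ ∃ y ∈ Ww F i, y ⊆ B) := by
    rw [B0, filter_filter, filter_filter]
    refine filter_congr fun _ _ => ?_
    rw [and_comm, not_exists]
    simp only [not_and]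
  have h1 := card_filter_add_card_filter_not
    (s := (Lv (i + 1) : Finset (Finset α)).filter (fun B => x ⊆ B))
    (fun B => vv (Gg F i) B = B)
  have h2 := card_filter_add_card_filter_not (s := (Nn F i).filter (fun B => x ⊆ B))
    (fun B => ∃ y ∈ Ww F i, y ⊆ B)
  rw [← e1, ← e2] at h1
  rw [← e3, ← e4] at h2
  omega

end Pool.Agent.Lib.MP_380ab1_coE
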