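import Pool.Agent.Lib.MP_380ab1_co.Families

/-!
# Entropy and union-closed families: definitions

`Ent K T` is `|K|` times the entropy (in nats) of the trace on `T` of a uniformly random member of
the finite family `K` of finite sets.

For a family `F` of subsets of `α` and a set `C`: `vv F C` is the union of the members strictly
inside `C`; `C` is forced if `vv F C = C`; `AA F C = C \ vv F C`.
-/

namespace Pool.Agent.Lib.MP_380ab1_coE

open Finset Pool.Agent.BoolD

section Ent

variable {β : Type*} [DecidableEq β]

/-- The number of members of `K` which agree with `F` on `T`. -/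
def cnt (K : Finset (Finset β)) (T F : Finset β) : ℕ := (K.filter (fun G => G ∩ T = F ∩ T)).card

/-- `|K|` times the entropy (in nats) of the trace on `T` of a uniformly random member of `K`. -/
noncomputable def Ent (K : Finset (Finset β)) (T : Finset β) : ℝ :=
  ∑ F ∈ K, Real.log ((K.card : ℝ) / (cnt K T F : ℝ))

end Ent

section Fam

variable {α : Type*} [DecidableEq α]

/-- The union of the members of `F` strictly inside `C`. -/
def vv (F : Finset (Finset α)) (C : Finset α) : Finset α := (F.filter (fun B => B ⊂ C)).sup id

/-- `A(F, C) = C \ v(F, C)`. It is empty iff `C` is forced. -/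
def AA (F : Finset (Finset α)) (C : Finset α) : Finset α := C \ vv F C

/-- `F` and `F'` have the same members of size `< i`. -/
def Agr (F F' : Finset (Finset α)) (i : ℕ) : Prop := ∀ x : Finset α, x.card < i → (x ∈ F ↔ x ∈ F')

variable [Fintype α]

/-- All sets of size `i`. -/
def Lv (i : ℕ) : Finset (Finset α) := powersetCard i univ

/-- The sets of size `i` which are not forced. -/
def Uu (F : Finset (Finset α)) (i : ℕ) : Finset (Finset α) := (Lv i).filter (fun C => vv F C ≠ C)

/-- The forced sets of size `i`. -/
def Ww (F : Finset (Finset α)) (i : ℕ) : Finset (Finset α) := (Lv i).filter (fun C => vv F C = C)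

/-- What is known before the sets of size `i` are exposed: the members of size `< i` and the
forced sets of size `i`. -/
def Gg (F : Finset (Finset α)) (i : ℕ) : Finset (Finset α) :=
  F.filter (fun x => x.card < i) ∪ Ww F i

/-- The sets of size `i + 1` which are not already forced by `Gg F i`. -/
def Nn (F : Finset (Finset α)) (i : ℕ) : Finset (Finset α) :=
  (Lv (i + 1)).filter (fun B => vv (Gg F i) B ≠ B)

/-- Those without a forced lower cover. -/
def B0 (F : Finset (Finset α)) (i : ℕ) : Finset (Finset α) :=
  (Nn F i).filter (fun B => ∀ x ∈ Ww F i, ¬ x ⊆ B)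

/-- Those with a forced lower cover (it is then unique). -/
def B1 (F : Finset (Finset α)) (i : ℕ) : Finset (Finset α) :=
  (Nn F i).filter (fun B => ∃ x ∈ Ww F i, x ⊆ B)

/-- The sets of size `i + 1` which are already forced by `Gg F i`. -/
def B2 (F : Finset (Finset α)) (i : ℕ) : Finset (Finset α) :=
  (Lv (i + 1)).filter (fun B => vv (Gg F i) B = B)

/-- The nonforced sets of size `i` with no already forced upper cover. -/
def Z0 (F : Finset (Finset α)) (i : ℕ) : Finset (Finset α) :=
  (Uu F i).filter (fun x => ∀ B ∈ B2 F i, ¬ x ⊆ B)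

/-- The loss at level `i`: the number of pairs `x ∈ Z0 F i`, `B ∈ B1 F i`, `x ⊆ B`. -/
def Lam (F : Finset (Finset α)) (i : ℕ) : ℕ :=
  ∑ x ∈ Z0 F i, ((B1 F i).filter (fun B => x ⊆ B)).card

/-- The number of sets `B` of size `j` such that `|A(F, B)| ≤ 1`. -/
def RR (F : Finset (Finset α)) (j : ℕ) : ℕ := ((Lv j).filter (fun B => (AA F B).card ≤ 1)).card

/-- The number of sets `B` of size `j` with `|A(F, B)| = 1` whose lower cover `v(F, B)` is a
nonforced member. -/
def SS (F : Finset (Finset α)) (j : ℕ) : ℕ :=
  ((Lv j).filter (fun B => (AA F B).card = 1 ∧ vv F (vv F B) ≠ vv F B)).card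

/-- The number of pairs `(B, b)` with `b ∈ B`, `|B| = j`, `|A(F, B)| ≤ 1`, `2 ≤ |A(F, B \ b)|`. -/
def PP (F : Finset (Finset α)) (j : ℕ) : ℕ :=
  ∑ B ∈ (Lv j).filter (fun B => (AA F B).card ≤ 1),
    (B.filter (fun b => 2 ≤ (AA F (B.erase b)).card)).card

end Fam

end Pool.Agent.Lib.MP_380ab1_coE
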