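import Pool.Agent.Lib.MP_380ab1_coE.Defs

/-!
# Elementary properties of `Ent`
-/

namespace Pool.Agent.Lib.MP_380ab1_coE

open Finset

variable {β : Type*} [DecidableEq β]

theorem cnt_pos {K : Finset (Finset β)} {T F : Finset β} (hF : F ∈ K) : 0 < cnt K T F :=
  card_pos.2 ⟨F, mem_filter.2 ⟨hF, rfl⟩⟩

theorem cnt_le (K : Finset (Finset β)) (T F : Finset β) : cnt K T F ≤ K.card :=
  card_le_card (filter_subset _ _)

/-- Agreement on a bigger set is rarer. -/
theorem cnt_anti {T T' : Finset β} (h : T ⊆ T') (K : Finset (Finset β)) (F : Finset β) :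
    cnt K T' F ≤ cnt K T F := by
  refine card_le_card fun G hG => ?_
  rw [mem_filter] at hG ⊢
  refine ⟨hG.1, ?_⟩
  have h1 : ∀ A : Finset β, A ∩ T = (A ∩ T') ∩ T := by
    intro A
    rw [inter_assoc, inter_eq_right.2 h]
  rw [h1 G, hG.2, ← h1 F]

/-- Members which agree on `T` have the same count. -/
theorem cnt_eq {K : Finset (Finset β)} {T F G : Finset β} (h : G ∩ T = F ∩ T) :
    cnt K T G = cnt K T F := by
  unfold cnt
  rw [h]

theorem Ent_mono {T T' : Finset β} (h : T ⊆ T') (K : Finset (Finset β)) :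
    Ent K T ≤ Ent K T' := by
  refine sum_le_sum fun F hF => ?_
  have h1 : (0 : ℝ) < cnt K T' F := by exact_mod_cast cnt_pos hF
  have h2 : (0 : ℝ) < cnt K T F := by exact_mod_cast cnt_pos hF
  have h3 : (0 : ℝ) < K.card := by exact_mod_cast card_pos.2 ⟨F, hF⟩
  refine Real.log_le_log (div_pos h3 h2) ?_
  exact div_le_div_of_nonneg_left h3.le h1 (by exact_mod_cast cnt_anti h K F)

theorem Ent_congr {K : Finset (Finset β)} {T T' : Finset β}
    (h : ∀ F ∈ K, ∀ G ∈ K, (G ∩ T = F ∩ T ↔ G ∩ T' = F ∩ T')) : Ent K T = Ent K T' := by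
  refine sum_congr rfl fun F hF => ?_
  have h1 : cnt K T F = cnt K T' F := by
    unfold cnt
    rw [filter_congr fun G hG => h F hF G hG]
  rw [h1]

theorem Ent_empty (K : Finset (Finset β)) : Ent K ∅ = 0 := by
  refine sum_eq_zero fun F hF => ?_
  have h1 : cnt K ∅ F = K.card := by
    unfold cnt
    rw [filter_true_of_mem fun G _ => by rw [inter_empty, inter_empty]]
  have h3 : (K.card : ℝ) ≠ 0 := by exact_mod_cast (card_pos.2 ⟨F, hF⟩).ne'
  rw [h1, div_self h3, Real.log_one]

/-- If the members of `K` are determined by their traces on `T`, all counts are `1`. -/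
theorem Ent_full {K : Finset (Finset β)} {T : Finset β}
    (h : ∀ F ∈ K, ∀ G ∈ K, G ∩ T = F ∩ T → G = F) :
    Ent K T = K.card * Real.log K.card := by
  have h1 : ∀ F ∈ K, Real.log ((K.card : ℝ) / (cnt K T F : ℝ)) = Real.log K.card := by
    intro F hF
    have h2 : cnt K T F = 1 := by
      unfold cnt
      rw [card_eq_one]
      refine ⟨F, ?_⟩
      ext G
      rw [mem_filter, mem_singleton]
      constructor
      · rintro ⟨hG, h3⟩
        exact h F hF G hG h3
      · rintro rfl
        exact ⟨hF, rfl⟩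
    rw [h2, Nat.cast_one, div_one]
  unfold Ent
  rw [sum_congr rfl h1, sum_const, nsmul_eq_mul]

/-- Chain rule. -/
theorem Ent_chain (K : Finset (Finset β)) (Y X : Finset β) :
    Ent K (Y ∪ X) = Ent K Y +
      ∑ y ∈ K.image (fun F => F ∩ Y), Ent (K.filter (fun F => F ∩ Y = y)) X := by
  have h1 : ∀ y ∈ K.image (fun F => F ∩ Y), Ent (K.filter (fun F => F ∩ Y = y)) X =
      ∑ F ∈ K.filter (fun F => F ∩ Y = y), Real.log ((cnt K Y F : ℝ) / (cnt K (Y ∪ X) F : ℝ)) := by
    intro y _
    unfold Ent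
    refine sum_congr rfl fun F hF => ?_
    rw [mem_filter] at hF
    have h2 : (K.filter (fun F => F ∩ Y = y)).card = cnt K Y F := by
      unfold cnt
      rw [hF.2]
    have h3 : cnt (K.filter (fun F => F ∩ Y = y)) X F = cnt K (Y ∪ X) F := by
      unfold cnt
      rw [filter_filter]
      refine congrArg card (filter_congr fun G _ => ?_)
      rw [← hF.2]
      constructor
      · rintro ⟨h4, h5⟩
        rw [inter_union_distrib_left, inter_union_distrib_left, h4, h5]
      · intro h4
        have h5 : ∀ A : Finset β, A ∩ Y = (A ∩ (Y ∪ X)) ∩ Y := by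
          intro A
          rw [inter_assoc, inter_eq_right.2 subset_union_left]
        have h6 : ∀ A : Finset β, A ∩ X = (A ∩ (Y ∪ X)) ∩ X := by
          intro A
          rw [inter_assoc, inter_eq_right.2 subset_union_right]
        exact ⟨by rw [h5 G, h4, ← h5 F], by rw [h6 G, h4, ← h6 F]⟩
    rw [h2, h3]
  rw [sum_congr rfl h1, sum_fiberwise_of_maps_to (fun F hF => mem_image_of_mem _ hF)]
  unfold Ent
  rw [← sum_add_distrib]
  refine sum_congr rfl fun F hF => ?_
  have h2 : (0 : ℝ) < cnt K Y F := by exact_mod_cast cnt_pos hF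
  have h3 : (0 : ℝ) < cnt K (Y ∪ X) F := by exact_mod_cast cnt_pos hF
  have h4 : (0 : ℝ) < K.card := by exact_mod_cast card_pos.2 ⟨F, hF⟩
  rw [← Real.log_mul (div_pos h4 h2).ne' (div_pos h2 h3).ne']
  congr 1
  field_simp

end Pool.Agent.Lib.MP_380ab1_coE
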