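import Pool.Agent.Lib.MP_380ab1_coE.Cov

/-!
# JOB LamA: the loss `Lam`, splitting
-/

namespace Pool.Agent.Lib.MP_380ab1_coE

open Finset Pool.Agent.BoolD

variable {α : Type*} [DecidableEq α] [Fintype α]

/-- The bad upper directions `c` of the forced set `x0` with respect to `b ∈ x0`. -/
def DD (F : Finset (Finset α)) (i : ℕ) (x0 : Finset α) (b : α) : Finset α :=
  univ.filter (fun c => c ∉ x0 ∧ insert c x0 ∈ B1 F i ∧ insert c (x0.erase b) ∈ Z0 F i ∧
    x0.erase b ∈ F)

/-- The loss, split.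

Proof. Let `x ∈ Z0 F i`, `B ∈ B1 F i`, `x ⊆ B`, and let `x0 ∈ Ww F i` be the forced lower cover of
`B` (`vv (Gg F i) B = x0`, `vv_Gg_eq`). Write `B = insert c x0`, `c ∉ x0`, and `x = B.erase b`.
`x ≠ x0` (`x` is nonforced), so `b ∈ x0` and `x = insert c (x0.erase b)`.
If `x0.erase b ∈ F`, then `c ∈ DD F i x0 b`, and `(x0, b, c)` determines `(x, B)`.
If `x0.erase b ∉ F`: `(B, b)` is counted by `PP F (i + 1)`. Indeed `AA F B ⊆ B \ x0 = {c}`
(`vv (Gg F i) B ⊆ vv F B` by `vv_mono`), so `(AA F B).card ≤ 1`. And `c ∉ vv F x`: a member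
`z ⊂ x` containing `c` has size `< i`, so it is in `Gg F i`, and `z ⊂ B`, so
`c ∈ vv (Gg F i) B = x0`, impossible. Hence `vv F x ⊆ x.erase c = x0.erase b`, and they are not
equal, because `vv F x ∈ F` (`vv_mem`); so `(vv F x).card ≤ i - 2` and
`(AA F x).card = i - (vv F x).card ≥ 2` (`AA_card_add`). And `(x, B) ↦ (B, b)` is injective.
(One may also write `Lam F i` as a sum over `B ∈ B1 F i` and `b ∈ B` with `sum_upper_lower_nat`,
and compare for each `B` the number of `b` with `B.erase b ∈ Z0 F i`.) -/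
theorem Lam_split {F : Finset (Finset α)} (hF : UC F) (i : ℕ) :
    Lam F i ≤ ∑ x0 ∈ Ww F i, ∑ b ∈ x0, (DD F i x0 b).card + PP F (i + 1) := by
  classical
  have hLam : Lam F i = ((Z0 F i ×ˢ B1 F i).filter (fun p => p.1 ⊆ p.2)).card := by
    rw [Lam, card_filter, sum_product]
    exact sum_congr rfl fun x _ => card_filter _ _
  have hcov : (Z0 F i ×ˢ B1 F i).filter (fun p => p.1 ⊆ p.2) ⊆
      (((Ww F i).sigma (fun x0 => x0.sigma (fun b => DD F i x0 b))).image
        (fun q => (insert q.2.2 (q.1.erase q.2.1), insert q.2.2 q.1))) ∪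
      ((((Lv (i + 1)).filter (fun B => (AA F B).card ≤ 1)).sigma
        (fun B => B.filter (fun b => 2 ≤ (AA F (B.erase b)).card))).image
        (fun q => (q.1.erase q.2, q.1))) := by
    rintro ⟨x, B⟩ hp
    obtain ⟨hp1, hxB⟩ := mem_filter.1 hp
    obtain ⟨hx, hB⟩ := mem_product.1 hp1
    change x ∈ Z0 F i at hx
    change B ∈ B1 F i at hB
    change x ⊆ B at hxB
    obtain ⟨hBN, x0, hx0, hx0B⟩ := mem_B1.1 hB
    have hBc := (mem_Nn.1 hBN).1
    have hx0c := (mem_Ww.1 hx0).1
    have hxU : x ∈ Uu F i := (mem_filter.1 hx).1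
    have hxc := (mem_Uu.1 hxU).1
    have hvB : vv (Gg F i) B = x0 := vv_Gg_eq hBN hx0 hx0B
    -- `B = insert c x0`
    have hB1 : B ∈ (Lv (i + 1) : Finset (Finset α)).filter (fun B => x0 ⊆ B) :=
      mem_filter.2 ⟨mem_Lv.2 hBc, hx0B⟩
    rw [upper_eq hx0c] at hB1
    obtain ⟨c, hc, hcB⟩ := mem_image.1 hB1
    have hc' : c ∉ x0 := mem_compl.1 hc
    have hx1 : x ∈ (Lv i : Finset (Finset α)).filter (fun x => x ⊆ B) :=
      mem_filter.2 ⟨mem_Lv.2 hxc, hxB⟩
    rw [lower_eq hBc] at hx1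
    obtain ⟨b, hb, hbx⟩ := mem_image.1 hx1
    change B.erase b = x at hbx
    change insert c x0 = B at hcB
    have hbc : b ≠ c := by
      rintro rfl
      rw [← hcB, erase_insert hc'] at hbx
      exact (mem_Uu.1 hxU).2 (hbx ▸ (mem_Ww.1 hx0).2)
    have hbx0 : b ∈ x0 := by
      rw [← hcB] at hb
      exact (mem_insert.1 hb).resolve_left hbc
    have hxe : insert c (x0.erase b) = x := by
      rw [← hbx, ← hcB, erase_insert_of_ne hbc.symm]
    have hcx : c ∈ x := hxe ▸ mem_insert_self c _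
    rw [mem_union]
    by_cases hF0 : x0.erase b ∈ F
    · left
      refine mem_image.2 ⟨⟨x0, b, c⟩, mem_sigma.2 ⟨hx0, mem_sigma.2 ⟨hbx0, ?_⟩⟩, ?_⟩
      · refine mem_filter.2 ⟨mem_univ _, hc', ?_, ?_, hF0⟩
        · change insert c x0 ∈ B1 F i
          rw [hcB]
          exact hB
        · change insert c (x0.erase b) ∈ Z0 F i
          rw [hxe]
          exact hx
      · change (insert c (x0.erase b), insert c x0) = (x, B)
        rw [hxe, hcB]
    · right
      refine mem_image.2 ⟨⟨B, b⟩, mem_sigma.2 ⟨mem_filter.2 ⟨mem_Lv.2 hBc, ?_⟩, mem_filter.2 ⟨hb, ?_⟩⟩, ?_⟩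
      · change (AA F B).card ≤ 1
        have h1 : x0 ⊆ vv F B := hvB ▸ vv_mono (Gg_subset hF i) B
        have h2 := card_le_card h1
        have h3 := AA_card_add F B
        omega
      · change 2 ≤ (AA F (B.erase b)).card
        rw [hbx]
        have hcv : c ∉ vv F x := by
          intro hcv
          obtain ⟨z, hz, hzx, hcz⟩ := mem_vv.1 hcv
          have h1 : z.card < i := hxc ▸ card_lt_card hzx
          have h2 : z ⊆ vv (Gg F i) B :=
            le_vv (mem_Gg.2 (Or.inl ⟨hz, h1⟩)) (lt_of_lt_of_le hzx hxB)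
          rw [hvB] at h2
          exact hc' (h2 hcz)
        have hsub : vv F x ⊆ x0.erase b := by
          intro a ha
          have h1 := vv_subset F x ha
          rw [← hxe] at h1
          rcases mem_insert.1 h1 with h2 | h2
          · exact absurd (h2 ▸ ha) hcv
          · exact h2
        have hss : vv F x ⊂ x0.erase b :=
          lt_of_le_of_ne hsub fun h => hF0 (h ▸ vv_mem hF x)
        have h1 := card_lt_card hss
        rw [card_erase_of_mem hbx0, hx0c] at h1
        have h2 := AA_card_add F x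
        omega
      · change (B.erase b, B) = (x, B)
        rw [hbx]
  rw [hLam]
  refine (card_le_card hcov).trans ((card_union_le _ _).trans (add_le_add ?_ ?_))
  · refine card_image_le.trans (le_of_eq ?_)
    rw [card_sigma]
    exact sum_congr rfl fun x0 _ => card_sigma _ _
  · refine card_image_le.trans (le_of_eq ?_)
    rw [card_sigma]
    rfl

end Pool.Agent.Lib.MP_380ab1_coE
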