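import Pool.Agent.Lib.MP_380ab1_coE.LamA

/-!
# LamB: the packing of the pairs of bad directions
-/

namespace Pool.Agent.Lib.MP_380ab1_coE

open Finset Pool.Agent.BoolD

variable {α : Type*} [DecidableEq α] [Fintype α]

theorem mem_DD {F : Finset (Finset α)} {i : ℕ} {x0 : Finset α} {b c : α} :
    c ∈ DD F i x0 b ↔ c ∉ x0 ∧ insert c x0 ∈ B1 F i ∧ insert c (x0.erase b) ∈ Z0 F i ∧
      x0.erase b ∈ F := by
  unfold DD
  rw [mem_filter]
  exact ⟨fun h => h.2, fun h => ⟨mem_univ _, h⟩⟩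

theorem LamB_aux {F : Finset (Finset α)} {i : ℕ} {x0 z : Finset α} {b c c' : α}
    (hx0 : x0 ∈ Ww F i) (hb : b ∈ x0) (hc : c ∈ DD F i x0 b) (hc' : c' ∈ DD F i x0 b)
    (hz : z ∈ Gg F i) (hzE : z ⊂ insert c (insert c' (x0.erase b))) (hcz : c ∈ z)
    (hcz' : c' ∉ z) : False := by
  rw [mem_DD] at hc hc'
  have hbz : b ∉ z := by
    intro h
    have h1 := hzE.1 h
    rw [mem_insert, mem_insert, mem_erase] at h1
    rcases h1 with h1 | h1 | h1
    · exact hc.1 (h1 ▸ hb)
    · exact hc'.1 (h1 ▸ hb)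
    · exact h1.1 rfl
  have hsub : z ⊆ insert c x0 := by
    intro a ha
    have h1 := hzE.1 ha
    rw [mem_insert, mem_insert, mem_erase] at h1
    rw [mem_insert]
    rcases h1 with h1 | h1 | h1
    · exact Or.inl h1
    · exact absurd (h1 ▸ ha) hcz'
    · exact Or.inr h1.2
  have hss : z ⊂ insert c x0 := by
    refine ⟨hsub, fun h => hbz (h (mem_insert_of_mem hb))⟩
  have h2 := vv_Gg_eq (mem_B1.1 hc.2.1).1 hx0 (subset_insert c x0)
  have h3 := le_vv hz hss hcz
  rw [h2] at h3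
  exact hc.1 h3

/-- The key fact on pairs of bad directions. -/
theorem pair_vv {F : Finset (Finset α)} {i : ℕ} {x0 : Finset α} {b c c' : α}
    (hx0 : x0 ∈ Ww F i) (hb : b ∈ x0) (hc : c ∈ DD F i x0 b) (hc' : c' ∈ DD F i x0 b)
    (hne : c ≠ c') :
    (insert c (insert c' (x0.erase b))).card = i + 1 ∧
      vv (Gg F i) (insert c (insert c' (x0.erase b))) = x0.erase b := by
  have hcD := mem_DD.1 hc
  have hcD' := mem_DD.1 hc'
  have hcard0 := (mem_Ww.1 hx0).1
  have hcard1 : (x0.erase b).card = i - 1 := by rw [card_erase_of_mem hb, hcard0]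
  have hi : 1 ≤ i := by rw [← hcard0]; exact card_pos.2 ⟨b, hb⟩
  have hc'y : c' ∉ x0.erase b := fun h => hcD'.1 (mem_of_mem_erase h)
  have hcy : c ∉ insert c' (x0.erase b) := by
    rw [mem_insert]
    rintro (h | h)
    · exact hne h
    · exact hcD.1 (mem_of_mem_erase h)
  have hcard : (insert c (insert c' (x0.erase b))).card = i + 1 := by
    rw [card_insert_of_notMem hcy, card_insert_of_notMem hc'y, hcard1]
    omega
  refine ⟨hcard, ?_⟩
  have hEne : vv (Gg F i) (insert c (insert c' (x0.erase b))) ≠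
      insert c (insert c' (x0.erase b)) := by
    intro h
    have h1 : insert c (insert c' (x0.erase b)) ∈ B2 F i := mem_B2.2 ⟨hcard, h⟩
    have h2 := (mem_filter.1 hcD.2.2.1).2 _ h1
    apply h2
    exact insert_subset_insert c (subset_insert c' _)
  have hyG : x0.erase b ∈ Gg F i := by
    rw [mem_Gg]
    left
    exact ⟨hcD.2.2.2, by rw [hcard1]; omega⟩
  have hyE : x0.erase b ⊂ insert c (insert c' (x0.erase b)) := by
    refine ⟨(subset_insert c' _).trans (subset_insert c _), fun h => ?_⟩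
    exact hcD.1 (mem_of_mem_erase (h (mem_insert_self c _)))
  have hno : ∀ z ∈ Gg F i, z ⊂ insert c (insert c' (x0.erase b)) → c ∉ z ∧ c' ∉ z := by
    intro z hz hzE
    by_cases h1 : c ∈ z
    · by_cases h2 : c' ∈ z
      · exfalso
        apply hEne
        apply subset_antisymm (vv_subset _ _)
        intro a ha
        rw [mem_insert, mem_insert] at ha
        rcases ha with ha | ha | ha
        · rw [ha]; exact le_vv hz hzE h1
        · rw [ha]; exact le_vv hz hzE h2
        · exact le_vv hyG hyE ha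
      · exact (LamB_aux hx0 hb hc hc' hz hzE h1 h2).elim
    · by_cases h2 : c' ∈ z
      · have hzE' : z ⊂ insert c' (insert c (x0.erase b)) := by
          rw [insert_comm]
          exact hzE
        exact (LamB_aux hx0 hb hc' hc hz hzE' h2 h1).elim
      · exact ⟨h1, h2⟩
  apply subset_antisymm
  · intro a ha
    obtain ⟨z, hz, hzE, haz⟩ := mem_vv.1 ha
    have h1 := hzE.1 haz
    have h2 := hno z hz hzE
    rw [mem_insert, mem_insert] at h1
    rcases h1 with h1 | h1 | h1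
    · exact absurd (h1 ▸ haz) h2.1
    · exact absurd (h1 ▸ haz) h2.2
    · exact h1
  · exact le_vv hyG hyE

/-- Packing. -/
theorem sum_pairs_le (F : Finset (Finset α)) (i : ℕ) :
    ∑ x0 ∈ Ww F i, ∑ b ∈ x0, (DD F i x0 b).card * ((DD F i x0 b).card - 1) ≤
      2 * (Fintype.card α - i) * (Fintype.card α).choose (i + 1) := by
  let P : Finset (Σ _ : Finset α, Σ _ : α, α × α) :=
    (Ww F i).sigma (fun x0 => x0.sigma (fun b => (DD F i x0 b).offDiag))
  let T : Finset (Σ _ : Finset α, Σ _ : α, α) :=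
    (Lv (i + 1) : Finset (Finset α)).sigma (fun E => (Eᶜ).sigma (fun _ =>
      if (E \ vv (Gg F i) E).card = 2 then E \ vv (Gg F i) E else ∅))
  have hP : P.card = ∑ x0 ∈ Ww F i, ∑ b ∈ x0, (DD F i x0 b).card * ((DD F i x0 b).card - 1) := by
    show ((Ww F i).sigma _).card = _
    rw [card_sigma]
    apply sum_congr rfl
    intro x0 _
    rw [card_sigma]
    apply sum_congr rfl
    intro b _
    rw [offDiag_card, Nat.mul_sub, mul_one]
  have hT : T.card ≤ 2 * (Fintype.card α - i) * (Fintype.card α).choose (i + 1) := by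
    show ((Lv (i + 1) : Finset (Finset α)).sigma _).card ≤ _
    rw [card_sigma]
    have h1 : ∀ E ∈ (Lv (i + 1) : Finset (Finset α)), ((Eᶜ).sigma (fun _ =>
        if (E \ vv (Gg F i) E).card = 2 then E \ vv (Gg F i) E else ∅)).card ≤
        2 * (Fintype.card α - i) := by
      intro E hE
      rw [card_sigma]
      have h2 : ∀ b ∈ Eᶜ, (if (E \ vv (Gg F i) E).card = 2 then E \ vv (Gg F i) E
          else ∅ : Finset α).card ≤ 2 := by
        intro b _
        by_cases h : (E \ vv (Gg F i) E).card = 2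
        · rw [if_pos h, h]
        · rw [if_neg h, card_empty]; omega
      have h3 := sum_le_card_nsmul _ _ _ h2
      rw [smul_eq_mul, card_compl, mem_Lv.1 hE] at h3
      refine h3.trans ?_
      rw [mul_comm]
      apply Nat.mul_le_mul_left
      omega
    have h4 := sum_le_card_nsmul _ _ _ h1
    rw [smul_eq_mul, card_Lv] at h4
    refine h4.trans (le_of_eq ?_)
    ring
  rw [← hP]
  refine le_trans ?_ hT
  apply card_le_card_of_injOn (fun t => ⟨insert t.2.2.1 (insert t.2.2.2 (t.1.erase t.2.1)),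
    ⟨t.2.1, t.2.2.1⟩⟩)
  · rintro ⟨x0, b, c, c'⟩ ht
    have ht' : ⟨x0, ⟨b, (c, c')⟩⟩ ∈ P := ht
    rw [mem_sigma, mem_sigma, mem_offDiag] at ht'
    obtain ⟨hx0, hb, hc, hc', hne⟩ := ht'
    dsimp only at hx0 hb hc hc' hne
    have h := pair_vv hx0 hb hc hc' hne
    have hcD := mem_DD.1 hc
    have hcD' := mem_DD.1 hc'
    show (⟨insert c (insert c' (x0.erase b)), ⟨b, c⟩⟩ : Σ _ : Finset α, Σ _ : α, α) ∈ T
    have hsd : insert c (insert c' (x0.erase b)) \ vv (Gg F i) (insert c (insert c' (x0.erase b))) =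
        {c, c'} := by
      rw [h.2]
      ext a
      rw [mem_sdiff, mem_insert, mem_insert, mem_insert, mem_singleton]
      constructor
      · rintro ⟨h1 | h1 | h1, h2⟩
        · exact Or.inl h1
        · exact Or.inr h1
        · exact absurd h1 h2
      · rintro (h1 | h1)
        · exact ⟨Or.inl h1, fun h2 => hcD.1 (mem_of_mem_erase (h1 ▸ h2))⟩
        · exact ⟨Or.inr (Or.inl h1), fun h2 => hcD'.1 (mem_of_mem_erase (h1 ▸ h2))⟩
    show _ ∈ (Lv (i + 1) : Finset (Finset α)).sigma _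
    rw [mem_sigma, mem_sigma]
    refine ⟨mem_Lv.2 h.1, ?_, ?_⟩
    · rw [mem_compl]
      intro hbE
      have hbE' : b ∈ insert c (insert c' (x0.erase b)) := hbE
      rw [mem_insert, mem_insert, mem_erase] at hbE'
      rcases hbE' with h1 | h1 | h1
      · exact hcD.1 (h1 ▸ hb)
      · exact hcD'.1 (h1 ▸ hb)
      · exact h1.1 rfl
    · show c ∈ (if _ then _ else _ : Finset α)
      rw [hsd, if_pos (card_pair hne)]
      exact mem_insert_self _ _
  · rintro ⟨x0, b, c, c'⟩ ht ⟨x1, b1, c1, c1'⟩ ht1 heq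
    have ht' : ⟨x0, ⟨b, (c, c')⟩⟩ ∈ P := ht
    have ht1' : ⟨x1, ⟨b1, (c1, c1')⟩⟩ ∈ P := ht1
    rw [mem_sigma, mem_sigma, mem_offDiag] at ht' ht1'
    obtain ⟨hx0, hb, hc, hc', hne⟩ := ht'
    obtain ⟨hx1, hb1, hc1, hc1', hne1⟩ := ht1'
    dsimp only at hx0 hb hc hc' hne hx1 hb1 hc1 hc1' hne1
    have heq' : (⟨insert c (insert c' (x0.erase b)), ⟨b, c⟩⟩ : Σ _ : Finset α, Σ _ : α, α) =
        ⟨insert c1 (insert c1' (x1.erase b1)), ⟨b1, c1⟩⟩ := heq
    rw [Sigma.mk.injEq, heq_eq_eq, Sigma.mk.injEq, heq_eq_eq] at heq'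
    obtain ⟨hE, rfl, rfl⟩ := heq'
    have h := (pair_vv hx0 hb hc hc' hne).2
    have h1 := (pair_vv hx1 hb1 hc1 hc1' hne1).2
    have hy : x0.erase b = x1.erase b := by rw [← h, ← h1, hE]
    have hx : x0 = x1 := by rw [← insert_erase hb, ← insert_erase hb1, hy]
    subst hx
    have hcc : c' = c1' := by
      have h2 : c' ∈ insert c (insert c1' (x0.erase b)) := by
        rw [← hE]
        exact mem_insert_of_mem (mem_insert_self _ _)
      rw [mem_insert, mem_insert] at h2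
      rcases h2 with h2 | h2 | h2
      · exact absurd h2.symm hne
      · exact h2
      · exact absurd (mem_of_mem_erase h2) (mem_DD.1 hc').1
    rw [hcc]

/-- For a natural number `s` and a real `K ≥ 1`: `s ≤ K + s (s - 1) / K`. -/
theorem nat_le_K (s : ℕ) {K : ℝ} (hK : 1 ≤ K) :
    (s : ℝ) ≤ K + ((s * (s - 1) : ℕ) : ℝ) / K := by
  have hK0 : 0 < K := by linarith
  rcases Nat.eq_zero_or_pos s with h | h
  · subst h
    simp
    exact hK0.le
  · have h1 : ((s * (s - 1) : ℕ) : ℝ) = (s : ℝ) * ((s : ℝ) - 1) := by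
      push_cast [Nat.cast_sub h]
      ring
    have hs : (1 : ℝ) ≤ s := by exact_mod_cast h
    rw [h1]
    by_cases h2 : (s : ℝ) ≤ K
    · have : 0 ≤ (s : ℝ) * ((s : ℝ) - 1) / K := by
        apply div_nonneg (mul_nonneg (by linarith) (by linarith)) hK0.le
      linarith
    · push Not at h2
      have h3 : (s : ℝ) - 1 ≤ (s : ℝ) * ((s : ℝ) - 1) / K := by
        rw [le_div_iff₀ hK0, mul_comm]
        exact mul_le_mul_of_nonneg_right h2.le (by linarith)
      linarith

/-- The bound of the loss. -/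
theorem Lam_le {F : Finset (Finset α)} (hF : UC F) {i : ℕ} (hi : i ≤ Fintype.card α) {K : ℝ}
    (hK : 1 ≤ K) :
    (Lam F i : ℝ) ≤ K * (i * (Ww F i).card) +
      2 * ((Fintype.card α : ℝ) - i) * (Fintype.card α).choose (i + 1) / K + PP F (i + 1) := by
  have hK0 : 0 < K := by linarith
  have h1 : (Lam F i : ℝ) ≤ ∑ x0 ∈ Ww F i, ∑ b ∈ x0, ((DD F i x0 b).card : ℝ) + PP F (i + 1) := by
    exact_mod_cast Lam_split hF i
  have h2 : ∑ x0 ∈ Ww F i, ∑ b ∈ x0, ((DD F i x0 b).card : ℝ) ≤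
      ∑ x0 ∈ Ww F i, ∑ b ∈ x0, (K + (((DD F i x0 b).card * ((DD F i x0 b).card - 1) : ℕ) : ℝ) / K) :=
    sum_le_sum fun x0 _ => sum_le_sum fun b _ => nat_le_K _ hK
  have h3 : ∑ x0 ∈ Ww F i, ∑ b ∈ x0,
      (K + (((DD F i x0 b).card * ((DD F i x0 b).card - 1) : ℕ) : ℝ) / K) =
      K * (i * (Ww F i).card) +
      ((∑ x0 ∈ Ww F i, ∑ b ∈ x0, (DD F i x0 b).card * ((DD F i x0 b).card - 1) : ℕ) : ℝ) / K := by
    simp only [sum_add_distrib, sum_const, nsmul_eq_mul, ← sum_div]
    push_cast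
    congr 1
    have : ∀ x ∈ Ww F i, ((x.card : ℝ) * K) = (i : ℝ) * K := by
      intro x hx
      rw [(mem_Ww.1 hx).1]
    rw [sum_congr rfl this, sum_const, nsmul_eq_mul]
    ring
  have h4 : ((∑ x0 ∈ Ww F i, ∑ b ∈ x0, (DD F i x0 b).card * ((DD F i x0 b).card - 1) : ℕ) : ℝ) / K ≤
      2 * ((Fintype.card α : ℝ) - i) * (Fintype.card α).choose (i + 1) / K := by
    apply div_le_div_of_nonneg_right _ hK0.le
    have h5 : ((∑ x0 ∈ Ww F i, ∑ b ∈ x0, (DD F i x0 b).card * ((DD F i x0 b).card - 1) : ℕ) : ℝ) ≤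
        ((2 * (Fintype.card α - i) * (Fintype.card α).choose (i + 1) : ℕ) : ℝ) := by
      exact_mod_cast sum_pairs_le F i
    push_cast [Nat.cast_sub hi] at h5
    exact_mod_cast h5
  linarith

end Pool.Agent.Lib.MP_380ab1_coE
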