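import Pool.Agent.Lib.MP_380ab1_coE.Level

/-!
# JOB LevB: the entropy inequality at level `i`, below the middle, above the middle, at the top

`n = Fintype.card α`.
-/

namespace Pool.Agent.Lib.MP_380ab1_coE

open Finset Pool.Agent.BoolD

variable {α : Type*} [DecidableEq α] [Fintype α]

/-- The bound of the contribution of level `i` below the middle. -/
noncomputable def PhiL (F : Finset (Finset α)) (i : ℕ) : ℝ :=
  Real.log 2 * ((Uu F i).card - (Uu F (i + 1)).card +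
    Lam F i / ((Fintype.card α : ℝ) - i) ^ 2 +
    (Nn F i).card * (((Fintype.card α : ℝ) - 2 * i - 1) / ((Fintype.card α : ℝ) - i) +
      ((Fintype.card α : ℝ) - 2 * i) / ((Fintype.card α : ℝ) - i) ^ 2)) +
  (Fintype.card α).choose (i + 1) / ((Fintype.card α : ℝ) - i) *
    (2 * 2 ^ (-((Fintype.card α : ℝ) - 2 * i - 1)) + 1 / i) +
  1 / ((Fintype.card α : ℝ) - i) * (2 * Real.log (i + 1) * SS F (i + 1))

/-- The bound of the contribution of level `i` above the middle. -/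
noncomputable def PhiU (F : Finset (Finset α)) (i : ℕ) : ℝ :=
  Real.log 2 * ((Uu F i).card - (Uu F (i + 1)).card) +
  (Fintype.card α).choose (i + 1) / ((Fintype.card α : ℝ) - i) *
    (2 ^ ((Fintype.card α : ℝ) - 2 * i) + 1 / i) +
  1 / ((Fintype.card α : ℝ) - i) * (2 * Real.log (i + 1) * SS F (i + 1))

theorem LevB_m {α : Type*} [Fintype α] {i : ℕ} (hin : i + 1 ≤ Fintype.card α) :
    (1 : ℝ) ≤ (Fintype.card α : ℝ) - i := by
  have h1 : ((i + 1 : ℕ) : ℝ) ≤ (Fintype.card α : ℝ) := by exact_mod_cast hin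
  push_cast at h1
  linarith

/-- The numbers of upper covers of the first two kinds. -/
theorem LevB_g (F : Finset (Finset α)) {i : ℕ} (hin : i + 1 ≤ Fintype.card α) {x : Finset α}
    (hx : x ∈ Uu F i) :
    (((B0 F i).filter (fun B => x ⊆ B)).card : ℝ) + ((B1 F i).filter (fun B => x ⊆ B)).card +
      ((B2 F i).filter (fun B => x ⊆ B)).card = (Fintype.card α : ℝ) - i := by
  have h1 := upper_split (F := F) (i := i) (x := x) (mem_Uu.1 hx).1
  have h2 : (((B0 F i).filter (fun B => x ⊆ B)).card + ((B1 F i).filter (fun B => x ⊆ B)).card +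
      ((B2 F i).filter (fun B => x ⊆ B)).card + i : ℕ) = Fintype.card α := by
    rw [h1]
    omega
  have h3 := congrArg (Nat.cast : ℕ → ℝ) h2
  push_cast at h3
  linarith

theorem LevB_wt_low (F : Finset (Finset α)) {i : ℕ} (hin : i + 1 ≤ Fintype.card α) {x : Finset α}
    (hx : x ∈ Uu F i) :
    max 1 (wt F i (((Fintype.card α : ℝ) - i + 1) / ((Fintype.card α : ℝ) - i) ^ 2) x) ≤
      1 + (if ∀ B ∈ B2 F i, ¬ x ⊆ B then (((B1 F i).filter (fun B => x ⊆ B)).card : ℝ) else 0) /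
        ((Fintype.card α : ℝ) - i) ^ 2 := by
  have hg := LevB_g F hin hx
  have hm : (1 : ℝ) ≤ (Fintype.card α : ℝ) - i := LevB_m hin
  unfold wt
  have e0 : (0 : ℝ) ≤ ((B0 F i).filter (fun B => x ⊆ B)).card := Nat.cast_nonneg _
  have e1 : (0 : ℝ) ≤ ((B1 F i).filter (fun B => x ⊆ B)).card := Nat.cast_nonneg _
  have e2 : (0 : ℝ) ≤ ((B2 F i).filter (fun B => x ⊆ B)).card := Nat.cast_nonneg _
  have hm2 : (0 : ℝ) < ((Fintype.card α : ℝ) - i) ^ 2 := by positivity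
  split_ifs with h
  · refine max_le ?_ ?_
    · have := div_nonneg e1 hm2.le
      linarith
    · generalize (((B0 F i).filter (fun B => x ⊆ B)).card : ℝ) = g0 at *
      generalize (((B1 F i).filter (fun B => x ⊆ B)).card : ℝ) = g1 at *
      generalize (((B2 F i).filter (fun B => x ⊆ B)).card : ℝ) = g2 at *
      generalize (Fintype.card α : ℝ) - i = m at *
      have hm0 : 0 < m := by linarith
      have h1 : 1 / m * g0 + (m + 1) / m ^ 2 * g1 = (g0 + g1) / m + g1 / m ^ 2 := by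
        field_simp
        ring
      have h2 : (g0 + g1) / m ≤ 1 := by
        rw [div_le_one hm0]
        linarith
      rw [h1]
      linarith
  · rw [zero_div, add_zero]
    refine max_le le_rfl ?_
    have h3 : (1 : ℝ) ≤ ((B2 F i).filter (fun B => x ⊆ B)).card := by
      push Not at h
      obtain ⟨B, hB, hxB⟩ := h
      have : 0 < ((B2 F i).filter (fun B => x ⊆ B)).card :=
        card_pos.2 ⟨B, mem_filter.2 ⟨hB, hxB⟩⟩
      exact_mod_cast this
    generalize (((B0 F i).filter (fun B => x ⊆ B)).card : ℝ) = g0 at *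
    generalize (((B1 F i).filter (fun B => x ⊆ B)).card : ℝ) = g1 at *
    generalize (((B2 F i).filter (fun B => x ⊆ B)).card : ℝ) = g2 at *
    generalize (Fintype.card α : ℝ) - i = m at *
    have hm0 : 0 < m := by linarith
    have h1 : 1 / m * g0 + (m + 1) / m ^ 2 * g1 = (g0 * m + (m + 1) * g1) / m ^ 2 := by
      field_simp
    rw [h1, div_le_one hm2]
    nlinarith

/-- With `w1 = (n - i + 1) / (n - i)^2`.

Proof. Let `g0, g1, g2` be the numbers of upper covers of `x` in `B0, B1, B2`: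
`g0 + g1 + g2 = n - i` (`upper_split`) and `wt = (g0 + g1 + g1 / (n - i)) / (n - i)`. If
`x ∉ Z0 F i`, then `g2 ≥ 1` and `wt ≤ 1`. If `x ∈ Z0 F i`, then `g2 = 0` and
`wt = 1 + g1 / (n - i)^2`. Sum: `Z0 F i ⊆ Uu F i` and the definition of `Lam`. -/
theorem sum_max_low (F : Finset (Finset α)) {i : ℕ} (hin : i + 1 ≤ Fintype.card α) :
    ∑ x ∈ Uu F i, max 1 (wt F i (((Fintype.card α : ℝ) - i + 1) / ((Fintype.card α : ℝ) - i) ^ 2) x)
      ≤ (Uu F i).card + Lam F i / ((Fintype.card α : ℝ) - i) ^ 2 := by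
  refine (sum_le_sum fun x hx => LevB_wt_low F hin hx).trans (le_of_eq ?_)
  rw [sum_add_distrib, sum_const, nsmul_eq_mul, mul_one, ← sum_div, ← sum_filter]
  congr 2
  unfold Lam Z0
  rw [Nat.cast_sum]

/-- With `w1 = 1 / (n - i)` the total weight is at most `1`. -/
theorem sum_max_up (F : Finset (Finset α)) {i : ℕ} (hin : i + 1 ≤ Fintype.card α) :
    ∑ x ∈ Uu F i, max 1 (wt F i (1 / ((Fintype.card α : ℝ) - i)) x) ≤ (Uu F i).card := by
  have h0 : ∀ x ∈ Uu F i, max 1 (wt F i (1 / ((Fintype.card α : ℝ) - i)) x) ≤ 1 := by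
    intro x hx
    have hg := LevB_g F hin hx
    have hm : (1 : ℝ) ≤ (Fintype.card α : ℝ) - i := LevB_m hin
    unfold wt
    have e2 : (0 : ℝ) ≤ ((B2 F i).filter (fun B => x ⊆ B)).card := Nat.cast_nonneg _
    refine max_le le_rfl ?_
    rw [← mul_add, one_div, ← div_eq_inv_mul, div_le_one (by linarith)]
    linarith
  refine (sum_le_sum h0).trans (le_of_eq ?_)
  rw [sum_const, nsmul_eq_mul, mul_one]

/-- `log (1 + 2 ^ a) ≤ a log 2 + 2 ^ (-a)`. -/
theorem LevB_log (a : ℝ) : Real.log (1 + 2 ^ a) ≤ a * Real.log 2 + 2 ^ (-a) := by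
  have h1 : (0 : ℝ) < 2 ^ a := Real.rpow_pos_of_pos two_pos a
  have h2 : (0 : ℝ) < 2 ^ (-a) := Real.rpow_pos_of_pos two_pos (-a)
  have h3 : (1 : ℝ) + 2 ^ a = 2 ^ a * (1 + 2 ^ (-a)) := by
    rw [mul_add, mul_one, ← Real.rpow_add two_pos, add_neg_cancel, Real.rpow_zero, add_comm]
  rw [h3, Real.log_mul h1.ne' (by positivity), Real.log_rpow two_pos]
  have h4 := Real.log_le_sub_one_of_pos (show (0 : ℝ) < 1 + 2 ^ (-a) by positivity)
  linarith

/-- `log (1 + 2 ^ a) ≤ 2 ^ a`. -/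
theorem LevB_log' (a : ℝ) : Real.log (1 + 2 ^ a) ≤ 2 ^ a := by
  have h1 : (0 : ℝ) < 2 ^ a := Real.rpow_pos_of_pos two_pos a
  have h4 := Real.log_le_sub_one_of_pos (show (0 : ℝ) < 1 + 2 ^ a by positivity)
  linarith

/-- The real inequality below the middle. -/
theorem LevB_real_low {m i a a1 w1 b0 b1 ν C : ℝ} (hm : 1 ≤ m) (hi : 1 ≤ i) (ha : a = m - i - 1)
    (ha0 : 0 ≤ a) (hw : w1 = (m + 1) / m ^ 2) (ha1 : a1 = 1 / w1 - i) (h0 : 0 ≤ b0) (h1 : 0 ≤ b1)
    (hν : b0 + b1 = ν) (hC : ν ≤ C) :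
    b0 * (1 / m * (Real.log (1 + 2 ^ a) + 1 / i)) + b1 * (w1 * Real.log (1 + 2 ^ a1)) ≤
      Real.log 2 * (ν * (a / m + (a + 1) / m ^ 2)) + C / m * (2 * 2 ^ (-a) + 1 / i) := by
  have hm0 : 0 < m := by linarith
  have hw0 : 0 < w1 := by rw [hw]; positivity
  have hl2 : 0 ≤ Real.log 2 := Real.log_nonneg one_le_two
  have hi0 : 0 < i := by linarith
  have hp : (0 : ℝ) < 2 ^ (-a) := Real.rpow_pos_of_pos two_pos (-a)
  have h3 : a ≤ a1 := by
    rw [ha1, ha, hw, one_div_div]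
    have : m - 1 ≤ m ^ 2 / (m + 1) := by
      rw [le_div_iff₀ (by linarith)]
      nlinarith
    linarith
  have h4 : (2 : ℝ) ^ (-a1) ≤ 2 ^ (-a) :=
    Real.rpow_le_rpow_of_exponent_le one_le_two (by linarith)
  have h5 : w1 * a1 = a / m + (a + 1) / m ^ 2 := by
    rw [ha1, mul_sub, mul_one_div_cancel hw0.ne', hw, ha]
    field_simp
    ring
  have h6 : w1 ≤ 2 / m := by
    rw [hw, div_le_div_iff₀ (by positivity) hm0]
    nlinarith
  have h7 : w1 * Real.log (1 + 2 ^ a1) ≤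
      (a / m + (a + 1) / m ^ 2) * Real.log 2 + 2 / m * 2 ^ (-a) := by
    have e1 : w1 * Real.log (1 + 2 ^ a1) ≤ w1 * (a1 * Real.log 2 + 2 ^ (-a1)) :=
      mul_le_mul_of_nonneg_left (LevB_log a1) hw0.le
    have e2 : w1 * 2 ^ (-a1) ≤ 2 / m * 2 ^ (-a) :=
      mul_le_mul h6 h4 (Real.rpow_pos_of_pos two_pos _).le (by positivity)
    calc w1 * Real.log (1 + 2 ^ a1) ≤ w1 * (a1 * Real.log 2 + 2 ^ (-a1)) := e1
      _ = w1 * a1 * Real.log 2 + w1 * 2 ^ (-a1) := by ring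
      _ ≤ _ := by
        rw [h5]
        linarith
  have h8 : 1 / m * (Real.log (1 + 2 ^ a) + 1 / i) ≤
      (a / m + (a + 1) / m ^ 2) * Real.log 2 + (2 / m * 2 ^ (-a) + 1 / m * (1 / i)) := by
    have e1 : 1 / m * (Real.log (1 + 2 ^ a) + 1 / i) ≤
        1 / m * (a * Real.log 2 + 2 ^ (-a) + 1 / i) :=
      mul_le_mul_of_nonneg_left (by linarith [LevB_log a]) (by positivity)
    have e2 : 0 ≤ (a + 1) / m ^ 2 * Real.log 2 := by positivity
    have e3 : 0 ≤ 1 / m * 2 ^ (-a) := by positivity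
    calc 1 / m * (Real.log (1 + 2 ^ a) + 1 / i)
        ≤ 1 / m * (a * Real.log 2 + 2 ^ (-a) + 1 / i) := e1
      _ = a / m * Real.log 2 + 1 / m * 2 ^ (-a) + 1 / m * (1 / i) := by ring
      _ ≤ a / m * Real.log 2 + 1 / m * 2 ^ (-a) + 1 / m * (1 / i) +
          (a + 1) / m ^ 2 * Real.log 2 + 1 / m * 2 ^ (-a) := by linarith
      _ = _ := by ring
  have h9 : 0 ≤ 1 / m * (1 / i) := by positivity
  have h10 : b0 * (1 / m * (Real.log (1 + 2 ^ a) + 1 / i)) + b1 * (w1 * Real.log (1 + 2 ^ a1)) ≤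
      ν * ((a / m + (a + 1) / m ^ 2) * Real.log 2 + (2 / m * 2 ^ (-a) + 1 / m * (1 / i))) := by
    rw [← hν, add_mul]
    refine add_le_add (mul_le_mul_of_nonneg_left h8 h0) (mul_le_mul_of_nonneg_left ?_ h1)
    linarith
  have h11 : ν * (2 / m * 2 ^ (-a) + 1 / m * (1 / i)) ≤ C * (2 / m * 2 ^ (-a) + 1 / m * (1 / i)) :=
    mul_le_mul_of_nonneg_right hC (by positivity)
  calc _ ≤ _ := h10
    _ = Real.log 2 * (ν * (a / m + (a + 1) / m ^ 2)) +
        ν * (2 / m * 2 ^ (-a) + 1 / m * (1 / i)) := by ring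
    _ ≤ Real.log 2 * (ν * (a / m + (a + 1) / m ^ 2)) +
        C * (2 / m * 2 ^ (-a) + 1 / m * (1 / i)) := by linarith
    _ = _ := by ring

/-- The real inequality above the middle. -/
theorem LevB_real_up {m i a a1 b0 b1 ν C : ℝ} (hm : 1 ≤ m) (hi : 1 ≤ i) (ha : a ≤ a1)
    (h0 : 0 ≤ b0) (h1 : 0 ≤ b1) (hν : b0 + b1 = ν) (hC : ν ≤ C) :
    b0 * (1 / m * (Real.log (1 + 2 ^ a) + 1 / i)) + b1 * (1 / m * Real.log (1 + 2 ^ a1)) ≤
      C / m * (2 ^ a1 + 1 / i) := by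
  have hm0 : 0 < m := by linarith
  have hi0 : 0 < i := by linarith
  have hp : (0 : ℝ) < 2 ^ a1 := Real.rpow_pos_of_pos two_pos a1
  have h4 : (2 : ℝ) ^ a ≤ 2 ^ a1 := Real.rpow_le_rpow_of_exponent_le one_le_two ha
  have h8 : 1 / m * (Real.log (1 + 2 ^ a) + 1 / i) ≤ 1 / m * (2 ^ a1 + 1 / i) :=
    mul_le_mul_of_nonneg_left (by linarith [LevB_log' a]) (by positivity)
  have h9 : 0 ≤ 1 / i := by positivity
  have h7 : 1 / m * Real.log (1 + 2 ^ a1) ≤ 1 / m * (2 ^ a1 + 1 / i) :=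
    mul_le_mul_of_nonneg_left (by linarith [LevB_log' a1]) (by positivity)
  have h10 : b0 * (1 / m * (Real.log (1 + 2 ^ a) + 1 / i)) + b1 * (1 / m * Real.log (1 + 2 ^ a1)) ≤
      ν * (1 / m * (2 ^ a1 + 1 / i)) := by
    rw [← hν, add_mul]
    exact add_le_add (mul_le_mul_of_nonneg_left h8 h0) (mul_le_mul_of_nonneg_left h7 h1)
  have h11 : ν * (1 / m * (2 ^ a1 + 1 / i)) ≤ C * (1 / m * (2 ^ a1 + 1 / i)) :=
    mul_le_mul_of_nonneg_right hC (by positivity)
  calc _ ≤ _ := h10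
    _ ≤ _ := h11
    _ = _ := by ring

theorem LevB_card (F : Finset (Finset α)) (i : ℕ) :
    ((B0 F i).card : ℝ) + (B1 F i).card = (Nn F i).card := by
  exact_mod_cast B0_add_B1 F i

theorem LevB_Nn_le (F : Finset (Finset α)) (i : ℕ) :
    ((Nn F i).card : ℝ) ≤ (Fintype.card α).choose (i + 1) := by
  have := Nn_add_B2 F i
  exact_mod_cast (by omega : (Nn F i).card ≤ (Fintype.card α).choose (i + 1))

/-- The level inequality below the middle.

Proof. If `K` is empty both sides are `0`. Otherwise take `F0 ∈ K` and `level_gen` with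
`w1 = (n - i + 1) / (n - i)^2`, and `sum_max_low`. `log (1 + 2 ^ a) = a log 2 + log (1 + 2 ^ (-a)) ≤
a log 2 + 2 ^ (-a)`. For `B0`: `a = n - 2 i - 1`, `w0 a = (n - 2i - 1)/(n - i)`. For `B1`:
`a = 1/w1 - i ≥ n - 2 i - 1`, `w1 a = 1 - w1 i = (n - 2i - 1)/(n - i) + (n - 2i)/(n - i)^2` and
`w1 ≤ 2 / (n - i)`. `(B0 F i).card + (B1 F i).card = (Nn F i).card ≤ C(n, i + 1)`. All
quantities of `F0` are equal to those of `F` (`agr_...`), so `K.card * (...)` is the sum over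
`F ∈ K`. -/
theorem level_low {K : Finset (Finset (Finset α))} (hK : ∀ F ∈ K, UC F)
    {i : ℕ} (hi : 1 ≤ i) (hin : 2 * (i + 1) ≤ Fintype.card α)
    (hag : ∀ F ∈ K, ∀ G ∈ K, Agr F G i) : Ent K (Lv i) ≤ ∑ F ∈ K, PhiL F i := by
  rcases K.eq_empty_or_nonempty with rfl | ⟨F0, hF0⟩
  · simp [Ent]
  have hin' : i + 1 ≤ Fintype.card α := by omega
  have hm : (1 : ℝ) ≤ (Fintype.card α : ℝ) - i := LevB_m hin'
  have hm0 : (0 : ℝ) < (Fintype.card α : ℝ) - i := by linarith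
  have hi' : (1 : ℝ) ≤ (i : ℝ) := by exact_mod_cast hi
  have hin2 : 2 * ((i : ℝ) + 1) ≤ (Fintype.card α : ℝ) := by exact_mod_cast hin
  have h1 := level_gen hK (F0 := F0) hi hin' (fun F hF => hag F hF F0 hF0)
    (w1 := ((Fintype.card α : ℝ) - i + 1) / ((Fintype.card α : ℝ) - i) ^ 2) (by positivity)
  have h2 := sum_max_low F0 hin'
  have h3 := LevB_real_low (m := (Fintype.card α : ℝ) - i) (i := i)
    (a := (Fintype.card α : ℝ) - 2 * i - 1)
    (a1 := 1 / (((Fintype.card α : ℝ) - i + 1) / ((Fintype.card α : ℝ) - i) ^ 2) - i)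
    (w1 := ((Fintype.card α : ℝ) - i + 1) / ((Fintype.card α : ℝ) - i) ^ 2)
    (b0 := (B0 F0 i).card) (b1 := (B1 F0 i).card) (ν := (Nn F0 i).card)
    (C := (Fintype.card α).choose (i + 1)) hm hi' (by ring) (by linarith) rfl rfl
    (Nat.cast_nonneg _) (Nat.cast_nonneg _) (LevB_card F0 i) (LevB_Nn_le F0 i)
  have hk : (0 : ℝ) ≤ K.card := Nat.cast_nonneg _
  have hl2 : 0 ≤ Real.log 2 := Real.log_nonneg one_le_two
  have h4 := mul_le_mul_of_nonneg_left h2 (mul_nonneg hk hl2)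
  have h5 := mul_le_mul_of_nonneg_left h3 hk
  have h6 : ∑ F ∈ K, PhiL F i = K.card * (Real.log 2 * ((Uu F0 i).card +
      Lam F0 i / ((Fintype.card α : ℝ) - i) ^ 2)) +
      K.card * (Real.log 2 * ((Nn F0 i).card * (((Fintype.card α : ℝ) - 2 * i - 1) /
        ((Fintype.card α : ℝ) - i) + ((Fintype.card α : ℝ) - 2 * i - 1 + 1) /
        ((Fintype.card α : ℝ) - i) ^ 2)) + (Fintype.card α).choose (i + 1) /
        ((Fintype.card α : ℝ) - i) * (2 * 2 ^ (-((Fintype.card α : ℝ) - 2 * i - 1)) + 1 / i)) +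
      ∑ F ∈ K, (1 / ((Fintype.card α : ℝ) - i) * (2 * Real.log (i + 1) * SS F (i + 1)) -
        Real.log 2 * (Uu F (i + 1)).card) := by
    rw [← nsmul_eq_mul, ← nsmul_eq_mul, ← sum_const, ← sum_const, ← sum_add_distrib,
      ← sum_add_distrib]
    refine sum_congr rfl fun F hF => ?_
    have hA := hag F hF F0 hF0
    unfold PhiL
    rw [agr_Uu hA, agr_Lam hA, agr_Nn hA]
    ring
  rw [h6]
  refine h1.trans (add_le_add (add_le_add ?_ h5) le_rfl)
  calc _ ≤ _ := h4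
    _ = _ := by ring

/-- The level inequality above the middle (true for all `1 ≤ i < n`).

Proof. As `level_low`, with `w1 = 1 / (n - i)`, `sum_max_up` and `log (1 + 2 ^ a) ≤ 2 ^ a ≤
2 ^ (n - 2 i)`. -/
theorem level_up {K : Finset (Finset (Finset α))} (hK : ∀ F ∈ K, UC F)
    {i : ℕ} (hi : 1 ≤ i) (hin : i + 1 ≤ Fintype.card α)
    (hag : ∀ F ∈ K, ∀ G ∈ K, Agr F G i) : Ent K (Lv i) ≤ ∑ F ∈ K, PhiU F i := by
  rcases K.eq_empty_or_nonempty with rfl | ⟨F0, hF0⟩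
  · simp [Ent]
  have hm : (1 : ℝ) ≤ (Fintype.card α : ℝ) - i := LevB_m hin
  have hm0 : (0 : ℝ) < (Fintype.card α : ℝ) - i := by linarith
  have hi' : (1 : ℝ) ≤ (i : ℝ) := by exact_mod_cast hi
  have h1 := level_gen hK (F0 := F0) hi hin (fun F hF => hag F hF F0 hF0)
    (w1 := 1 / ((Fintype.card α : ℝ) - i)) (by positivity)
  have h2 := sum_max_up F0 hin
  have e1 : 1 / (1 / ((Fintype.card α : ℝ) - i)) - i = (Fintype.card α : ℝ) - 2 * i := by
    rw [one_div_one_div]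
    ring
  rw [e1] at h1
  have h3 := LevB_real_up (m := (Fintype.card α : ℝ) - i) (i := i)
    (a := (Fintype.card α : ℝ) - 2 * i - 1) (a1 := (Fintype.card α : ℝ) - 2 * i)
    (b0 := (B0 F0 i).card) (b1 := (B1 F0 i).card) (ν := (Nn F0 i).card)
    (C := (Fintype.card α).choose (i + 1)) hm hi' (by linarith)
    (Nat.cast_nonneg _) (Nat.cast_nonneg _) (LevB_card F0 i) (LevB_Nn_le F0 i)
  have hk : (0 : ℝ) ≤ K.card := Nat.cast_nonneg _
  have hl2 : 0 ≤ Real.log 2 := Real.log_nonneg one_le_two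
  have h4 := mul_le_mul_of_nonneg_left h2 (mul_nonneg hk hl2)
  have h5 := mul_le_mul_of_nonneg_left h3 hk
  have h6 : ∑ F ∈ K, PhiU F i = K.card * Real.log 2 * (Uu F0 i).card +
      K.card * ((Fintype.card α).choose (i + 1) / ((Fintype.card α : ℝ) - i) *
        (2 ^ ((Fintype.card α : ℝ) - 2 * i) + 1 / i)) +
      ∑ F ∈ K, (1 / ((Fintype.card α : ℝ) - i) * (2 * Real.log (i + 1) * SS F (i + 1)) -
        Real.log 2 * (Uu F (i + 1)).card) := by
    rw [mul_assoc, ← nsmul_eq_mul, ← nsmul_eq_mul, ← sum_const, ← sum_const, ← sum_add_distrib,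
      ← sum_add_distrib]
    refine sum_congr rfl fun F hF => ?_
    have hA := hag F hF F0 hF0
    unfold PhiU
    rw [agr_Uu hA]
    ring
  rw [h6]
  exact h1.trans (add_le_add (add_le_add h4 h5) le_rfl)

/-- The top level: `Ent_Lv_eq` and `shearer` with `I = ∅`. -/
theorem level_top {K : Finset (Finset (Finset α))} (hK : ∀ F ∈ K, UC F) (i : ℕ)
    (hag : ∀ F ∈ K, ∀ G ∈ K, Agr F G i) :
    Ent K (Lv i) ≤ ∑ F ∈ K, Real.log 2 * (Uu F i).card := by
  rcases K.eq_empty_or_nonempty with rfl | ⟨F0, hF0⟩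
  · simp [Ent]
  rw [Ent_Lv_eq hK (fun F hF => hag F hF F0 hF0)]
  have h1 := shearer K (Uu F0 i) (∅ : Finset ℕ) (fun _ => ∅) (fun _ => 0) (by simp)
  simp only [sum_empty, filter_empty, sub_zero, zero_add] at h1
  rw [max_eq_right (zero_le_one' ℝ), sum_const, nsmul_eq_mul, mul_one] at h1
  refine h1.trans (le_of_eq ?_)
  rw [mul_assoc, ← nsmul_eq_mul, ← sum_const]
  refine sum_congr rfl fun F hF => ?_
  rw [agr_Uu (hag F hF F0 hF0)]

end Pool.Agent.Lib.MP_380ab1_coE
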