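import Pool.Agent.Lib.MP_380ab1_coE.Shear
import Pool.Agent.Lib.MP_380ab1_coE.Cov
import Pool.Agent.Lib.MP_380ab1_coE.Agree

/-!
# JOB Level: the entropy inequality at level `i`, general weights

`n = Fintype.card α`. The weight of `B ∈ B0` is `1 / (n - i)`, the weight of `B ∈ B1` is `w1 > 0`.
-/

namespace Pool.Agent.Lib.MP_380ab1_coE

open Finset Pool.Agent.BoolD

variable {α : Type*} [DecidableEq α] [Fintype α]

/-- The total weight of the sets not already forced above `x`. -/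
noncomputable def wt (F : Finset (Finset α)) (i : ℕ) (w1 : ℝ) (x : Finset α) : ℝ :=
  1 / ((Fintype.card α : ℝ) - i) * ((B0 F i).filter (fun B => x ⊆ B)).card +
    w1 * ((B1 F i).filter (fun B => x ⊆ B)).card

/-- The trace on the level `i` is equivalent to the trace on the nonforced sets, since the forced
sets are members (`Ww_subset`, `agr_Ww`): `Ent_congr`. -/
theorem Ent_Lv_eq {K : Finset (Finset (Finset α))} (hK : ∀ F ∈ K, UC F) {F0 : Finset (Finset α)}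
    {i : ℕ} (hag : ∀ F ∈ K, Agr F F0 i) : Ent K (Lv i) = Ent K (Uu F0 i) := by
  have hW : ∀ F ∈ K, Ww F0 i ⊆ F := fun F hF => by
    rw [← agr_Ww (hag F hF)]
    exact Ww_subset (hK F hF) i
  have hsub : (Uu F0 i : Finset (Finset α)) ⊆ Lv i := filter_subset _ _
  apply Ent_congr
  intro F hF G hG
  constructor
  · intro h
    ext x
    rw [mem_inter, mem_inter]
    constructor
    · rintro ⟨h1, h2⟩
      have h3 : x ∈ F ∩ Lv i := by
        rw [← h]
        exact mem_inter.2 ⟨h1, hsub h2⟩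
      exact ⟨(mem_inter.1 h3).1, h2⟩
    · rintro ⟨h1, h2⟩
      have h3 : x ∈ G ∩ Lv i := by
        rw [h]
        exact mem_inter.2 ⟨h1, hsub h2⟩
      exact ⟨(mem_inter.1 h3).1, h2⟩
  · intro h
    ext x
    rw [mem_inter, mem_inter]
    by_cases hx : vv F0 x = x
    · constructor
      · rintro ⟨_, h2⟩
        exact ⟨hW F hF (mem_Ww.2 ⟨mem_Lv.1 h2, hx⟩), h2⟩
      · rintro ⟨_, h2⟩
        exact ⟨hW G hG (mem_Ww.2 ⟨mem_Lv.1 h2, hx⟩), h2⟩
    · constructor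
      · rintro ⟨h1, h2⟩
        have h3 : x ∈ F ∩ Uu F0 i := by
          rw [← h]
          exact mem_inter.2 ⟨h1, mem_Uu.2 ⟨mem_Lv.1 h2, hx⟩⟩
        exact ⟨(mem_inter.1 h3).1, h2⟩
      · rintro ⟨h1, h2⟩
        have h3 : x ∈ G ∩ Uu F0 i := by
          rw [h]
          exact mem_inter.2 ⟨h1, mem_Uu.2 ⟨mem_Lv.1 h2, hx⟩⟩
        exact ⟨(mem_inter.1 h3).1, h2⟩

/-- The sum of the events not forced over the sets not already forced. -/
theorem sum_Nn_ite {F : Finset (Finset α)} (hF : UC F) (i : ℕ) :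
    ∑ B ∈ Nn F i, (if vv F B ≠ B then (1 : ℝ) else 0) = (Uu F (i + 1)).card := by
  have h : (Nn F i).filter (fun B => vv F B ≠ B) = Uu F (i + 1) := by
    ext B
    rw [mem_filter, mem_Uu]
    constructor
    · rintro ⟨h1, h2⟩
      exact ⟨(mem_Nn.1 h1).1, h2⟩
    · intro h1
      exact ⟨Uu_subset_Nn hF i (mem_Uu.2 h1), h1.2⟩
  rw [← h, sum_boole]

/-- The events not forced and exactly one lower cover over `B0` are counted by `SS`
(`B0_trace_one`). -/
theorem sum_B0_ite (F : Finset (Finset α)) (i : ℕ) :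
    ∑ B ∈ B0 F i, (if vv F B ≠ B ∧ (F ∩ (powersetCard i B ∩ Uu F i)).card = 1 then (1 : ℝ)
      else 0) ≤ SS F (i + 1) := by
  rw [sum_boole]
  unfold SS
  refine Nat.cast_le.2 (card_le_card fun B hB => ?_)
  rw [mem_filter] at hB
  rw [mem_filter]
  exact ⟨mem_Lv.2 (mem_Nn.1 (mem_B0.1 hB.1).1).1, B0_trace_one hB.1 hB.2.1 hB.2.2⟩

/-- Double counting of `x ⊆ B`, `x ∈ Uu F i`, `B ∈ 𝓑` (any family `𝓑` of sets of size `i + 1`). -/
theorem sum_inter_card (F : Finset (Finset α)) (i : ℕ) (Bs : Finset (Finset α))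
    (hBs : ∀ B ∈ Bs, B.card = i + 1) :
    ∑ B ∈ Bs, (powersetCard i B ∩ Uu F i).card = ∑ x ∈ Uu F i, (Bs.filter (fun B => x ⊆ B)).card := by
  have _ := hBs
  have h1 : ∀ B ∈ Bs, (powersetCard i B ∩ Uu F i).card = ((Uu F i).filter (fun x => x ⊆ B)).card := by
    intro B _
    congr 1
    ext x
    rw [mem_inter, mem_filter, mem_powersetCard]
    constructor
    · rintro ⟨⟨h1, _⟩, h2⟩
      exact ⟨h2, h1⟩
    · rintro ⟨h1, h2⟩
      exact ⟨⟨h2, (mem_Uu.1 h1).1⟩, h1⟩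
  rw [sum_congr rfl h1]
  exact sum_card_bipartiteAbove_eq_sum_card_bipartiteBelow (fun (B x : Finset α) => x ⊆ B)

/-- The bound for `B ∈ B1`. -/
private theorem Level_one {K : Finset (Finset (Finset α))} (hK : ∀ F ∈ K, UC F)
    {F0 : Finset (Finset α)} {i : ℕ} (hag : ∀ F ∈ K, Agr F F0 i) {w1 : ℝ} (hw1 : 0 < w1)
    {B : Finset α} (hB : B ∈ B1 F0 i) :
    w1 * Ent K (powersetCard i B ∩ Uu F0 i) ≤
      ∑ F ∈ K, (w1 * Real.log (1 + 2 ^ (1 / w1 - i)) +
        w1 * Real.log 2 * (powersetCard i B ∩ Uu F0 i).card -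
        Real.log 2 * (if vv F B ≠ B then (1 : ℝ) else 0)) := by
  have hc := B1_inter hB
  have h := loc_one K (powersetCard i B ∩ Uu F0 i) (fun F => vv F B ≠ B) (1 / w1 - i)
    (fun F hF hQ => by
      have h1 : B ∈ B1 F i := by rw [agr_B1 (hag F hF)]; exact hB
      have h2 := B1_trace (hK F hF) h1 hQ
      rw [agr_Uu (hag F hF)] at h2
      exact h2)
  have h2 := mul_le_mul_of_nonneg_left h hw1.le
  refine h2.trans (le_of_eq ?_)
  rw [mul_sum]
  refine sum_congr rfl fun F _ => ?_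
  rw [hc]
  have hne : w1 ≠ 0 := hw1.ne'
  by_cases hQ : vv F B ≠ B
  · rw [if_pos hQ, if_pos hQ]
    field_simp
    ring
  · rw [if_neg hQ, if_neg hQ]
    ring

/-- The bound for `B ∈ B0`. -/
private theorem Level_zero {K : Finset (Finset (Finset α))} {F0 : Finset (Finset α)} {i : ℕ}
    (hi : 1 ≤ i) (hin : i + 1 ≤ Fintype.card α) (hag : ∀ F ∈ K, Agr F F0 i)
    {B : Finset α} (hB : B ∈ B0 F0 i) :
    1 / ((Fintype.card α : ℝ) - i) * Ent K (powersetCard i B ∩ Uu F0 i) ≤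
      ∑ F ∈ K, (1 / ((Fintype.card α : ℝ) - i) *
          (Real.log (1 + 2 ^ ((Fintype.card α : ℝ) - 2 * i - 1)) + 1 / i) +
        1 / ((Fintype.card α : ℝ) - i) * Real.log 2 * (powersetCard i B ∩ Uu F0 i).card -
        Real.log 2 * (if vv F B ≠ B then (1 : ℝ) else 0) +
        1 / ((Fintype.card α : ℝ) - i) * (2 * Real.log (i + 1)) *
          (if vv F B ≠ B ∧ (F ∩ (powersetCard i B ∩ Uu F i)).card = 1 then (1 : ℝ) else 0)) := by
  have hc := (B0_inter hB).2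
  have hn : (0 : ℝ) < (Fintype.card α : ℝ) - i := by
    have : ((i + 1 : ℕ) : ℝ) ≤ (Fintype.card α : ℝ) := Nat.cast_le.2 hin
    push_cast at this
    linarith
  have hi' : (0 : ℝ) < i := by exact_mod_cast hi
  have h := loc_two K (powersetCard i B ∩ Uu F0 i) (fun F => vv F B ≠ B)
    ((Fintype.card α : ℝ) - 2 * i - 1) (by rw [hc]; omega)
    (fun F hF hQ => by
      have h1 : B ∈ B0 F i := by rw [agr_B0 (hag F hF)]; exact hB
      have h2 := B0_trace h1 hQ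
      rw [agr_Uu (hag F hF)] at h2
      exact h2)
  have h2 := mul_le_mul_of_nonneg_left h (one_div_pos.2 hn).le
  refine h2.trans (le_of_eq ?_)
  rw [mul_sum]
  refine sum_congr rfl fun F hF => ?_
  rw [agr_Uu (hag F hF), hc]
  push_cast
  have hne : (Fintype.card α : ℝ) - i ≠ 0 := hn.ne'
  have hi2 : (i : ℝ) ≠ 0 := hi'.ne'
  have e1 : ((i : ℝ) + 1 - 1) = i := by ring
  rw [e1]
  by_cases hQ : vv F B ≠ B
  · by_cases h1 : (F ∩ (powersetCard i B ∩ Uu F0 i)).card = 1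
    · rw [if_pos hQ, if_pos hQ, if_pos ⟨hQ, h1⟩, if_pos ⟨hQ, h1⟩]
      field_simp
      ring
    · rw [if_pos hQ, if_pos hQ, if_neg (fun h => h1 h.2), if_neg (fun h => h1 h.2)]
      field_simp
      ring
  · rw [if_neg hQ, if_neg hQ, if_neg (fun h => hQ h.1), if_neg (fun h => hQ h.1)]
    ring

/-- The entropy inequality at level `i`.

Proof. `Ent_Lv_eq`; then `shearer` with `V = Uu F0 i`, `I = Nn F0 i`, `S B = powersetCard i B`,
`w B = if B ∈ B1 F0 i then w1 else w0`, `w0 = 1 / (n - i)`. Note that `x ∈ powersetCard i B` iff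
`x ⊆ B` when `x.card = i`. The sum over `Nn` splits into the sums over `B0` and `B1`.
For `B ∈ B1 F0 i` (`= B1 F i` for all `F ∈ K`, `agr_B1`): `loc_one` with
`T = powersetCard i B ∩ Uu F0 i`, `T.card = i` (`B1_inter`), `Q F = (vv F B ≠ B)`,
`a = 1 / w1 - i` (hypothesis: `B1_trace`, `agr_Uu`). Multiplied by `w1`, the summand at `F` is
`w1 * log (1 + 2 ^ a) + w1 * i * log 2 - (if Q F then log 2 else 0)`, because
`w1 * (a + i) = 1`.
For `B ∈ B0 F0 i`: `loc_two` with `T.card = i + 1 ≥ 2` (`B0_inter`), `a = n - 2 i - 1`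
(hypothesis: `B0_trace`); multiplied by `w0` the summand is
`w0 * log (1 + 2 ^ a) + w0 * (i + 1) * log 2 - (if Q F then log 2 else 0) + w0 / i +
w0 * (if Q F and one then 2 log (i + 1) else 0)`, because `w0 * (a + i + 1) = 1`.
The sum of `w B * T.card * log 2` is `log 2 * ∑ x ∈ Uu F0 i, wt F0 i w1 x` (`sum_inter_card`),
and `wt + max 0 (1 - wt) = max 1 wt`. The `Q`-terms: `sum_Nn_ite`; the last terms: `sum_B0_ite`. -/
theorem level_gen {K : Finset (Finset (Finset α))} (hK : ∀ F ∈ K, UC F) {F0 : Finset (Finset α)}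
    {i : ℕ} (hi : 1 ≤ i) (hin : i + 1 ≤ Fintype.card α)
    (hag : ∀ F ∈ K, Agr F F0 i) {w1 : ℝ} (hw1 : 0 < w1) :
    Ent K (Lv i) ≤
      K.card * Real.log 2 * ∑ x ∈ Uu F0 i, max 1 (wt F0 i w1 x) +
      K.card * ((B0 F0 i).card * (1 / ((Fintype.card α : ℝ) - i) *
        (Real.log (1 + 2 ^ ((Fintype.card α : ℝ) - 2 * i - 1)) + 1 / i)) +
        (B1 F0 i).card * (w1 * Real.log (1 + 2 ^ (1 / w1 - i)))) +
      ∑ F ∈ K, (1 / ((Fintype.card α : ℝ) - i) * (2 * Real.log (i + 1) * SS F (i + 1)) -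
        Real.log 2 * (Uu F (i + 1)).card) := by
  set w0 : ℝ := 1 / ((Fintype.card α : ℝ) - i) with hw0
  have hn : (0 : ℝ) < (Fintype.card α : ℝ) - i := by
    have : ((i + 1 : ℕ) : ℝ) ≤ (Fintype.card α : ℝ) := Nat.cast_le.2 hin
    push_cast at this
    linarith
  have hw0' : 0 < w0 := one_div_pos.2 hn
  have hlog : 0 ≤ Real.log 2 := Real.log_nonneg (by norm_num)
  -- splitting of sums over `Nn`
  have hsplit : ∀ f : Finset α → ℝ, ∑ B ∈ Nn F0 i, f B = ∑ B ∈ B0 F0 i, f B + ∑ B ∈ B1 F0 i, f B := by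
    intro f
    rw [← sum_filter_add_sum_filter_not (Nn F0 i) (fun B => ∀ x ∈ Ww F0 i, ¬ x ⊆ B) f]
    congr 1
    refine sum_congr ?_ fun _ _ => rfl
    ext B
    rw [mem_filter, mem_B1]
    push Not
    rfl
  set w : Finset α → ℝ := fun B => if B ∈ B1 F0 i then w1 else w0 with hw
  have hwB1 : ∀ B ∈ B1 F0 i, w B = w1 := fun B hB => if_pos hB
  have hwB0 : ∀ B ∈ B0 F0 i, w B = w0 := fun B hB => if_neg fun h => by
    obtain ⟨x, hx, hxB⟩ := (mem_B1.1 h).2
    exact (mem_B0.1 hB).2 x hx hxB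
  have hwnn : ∀ B ∈ Nn F0 i, 0 ≤ w B := fun B _ => by
    simp only [hw]
    split_ifs
    · exact hw1.le
    · exact hw0'.le
  have hwt : ∀ x ∈ Uu F0 i, ∑ B ∈ (Nn F0 i).filter (fun B => x ∈ powersetCard i B), w B =
      wt F0 i w1 x := by
    intro x hx
    have hxc := (mem_Uu.1 hx).1
    rw [sum_filter, hsplit]
    unfold wt
    have e0 : ∑ B ∈ B0 F0 i, (if x ∈ powersetCard i B then w B else 0) =
        w0 * ((B0 F0 i).filter (fun B => x ⊆ B)).card := by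
      rw [← sum_filter, card_eq_sum_ones, Nat.cast_sum, mul_sum]
      have e : (B0 F0 i).filter (fun B => x ∈ powersetCard i B) =
          (B0 F0 i).filter (fun B => x ⊆ B) := by
        ext B
        rw [mem_filter, mem_filter, mem_powersetCard]
        exact ⟨fun h => ⟨h.1, h.2.1⟩, fun h => ⟨h.1, h.2, hxc⟩⟩
      rw [e]
      refine sum_congr rfl fun B hB => ?_
      rw [hwB0 B (mem_filter.1 hB).1]
      push_cast
      ring
    have e1 : ∑ B ∈ B1 F0 i, (if x ∈ powersetCard i B then w B else 0) =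
        w1 * ((B1 F0 i).filter (fun B => x ⊆ B)).card := by
      rw [← sum_filter, card_eq_sum_ones, Nat.cast_sum, mul_sum]
      have e : (B1 F0 i).filter (fun B => x ∈ powersetCard i B) =
          (B1 F0 i).filter (fun B => x ⊆ B) := by
        ext B
        rw [mem_filter, mem_filter, mem_powersetCard]
        exact ⟨fun h => ⟨h.1, h.2.1⟩, fun h => ⟨h.1, h.2, hxc⟩⟩
      rw [e]
      refine sum_congr rfl fun B hB => ?_
      rw [hwB1 B (mem_filter.1 hB).1]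
      push_cast
      ring
    rw [e0, e1]
  have hS := shearer K (Uu F0 i) (Nn F0 i) (fun B => powersetCard i B) w hwnn
  rw [Ent_Lv_eq hK hag]
  refine hS.trans ?_
  -- the residual term
  have hres : ∑ x ∈ Uu F0 i, max 0 (1 - ∑ B ∈ (Nn F0 i).filter (fun B => x ∈ powersetCard i B), w B) =
      ∑ x ∈ Uu F0 i, max 1 (wt F0 i w1 x) - ∑ x ∈ Uu F0 i, wt F0 i w1 x := by
    rw [← sum_sub_distrib]
    refine sum_congr rfl fun x hx => ?_
    rw [hwt x hx]
    rcases le_total 1 (wt F0 i w1 x) with h | h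
    · rw [max_eq_right h, max_eq_left (by linarith)]
      ring
    · rw [max_eq_left h, max_eq_right (by linarith)]
  rw [hres]
  -- the total weight
  have hB0c : ∀ B ∈ B0 F0 i, B.card = i + 1 := fun B hB => (mem_Nn.1 (mem_B0.1 hB).1).1
  have hB1c : ∀ B ∈ B1 F0 i, B.card = i + 1 := fun B hB => (mem_Nn.1 (mem_B1.1 hB).1).1
  have hT0 : ∑ B ∈ B0 F0 i, ((powersetCard i B ∩ Uu F0 i).card : ℝ) =
      ∑ x ∈ Uu F0 i, (((B0 F0 i).filter (fun B => x ⊆ B)).card : ℝ) := by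
    exact_mod_cast sum_inter_card F0 i (B0 F0 i) hB0c
  have hT1 : ∑ B ∈ B1 F0 i, ((powersetCard i B ∩ Uu F0 i).card : ℝ) =
      ∑ x ∈ Uu F0 i, (((B1 F0 i).filter (fun B => x ⊆ B)).card : ℝ) := by
    exact_mod_cast sum_inter_card F0 i (B1 F0 i) hB1c
  have hwtot : ∑ x ∈ Uu F0 i, wt F0 i w1 x =
      w0 * ∑ B ∈ B0 F0 i, ((powersetCard i B ∩ Uu F0 i).card : ℝ) +
        w1 * ∑ B ∈ B1 F0 i, ((powersetCard i B ∩ Uu F0 i).card : ℝ) := by
    rw [hT0, hT1, mul_sum, mul_sum, ← sum_add_distrib]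
    rfl
  -- the local bounds
  have h1 : ∑ B ∈ B1 F0 i, w B * Ent K (powersetCard i B ∩ Uu F0 i) ≤
      ∑ B ∈ B1 F0 i, ∑ F ∈ K, (w1 * Real.log (1 + 2 ^ (1 / w1 - i)) +
        w1 * Real.log 2 * (powersetCard i B ∩ Uu F0 i).card -
        Real.log 2 * (if vv F B ≠ B then (1 : ℝ) else 0)) := by
    refine sum_le_sum fun B hB => ?_
    rw [hwB1 B hB]
    exact Level_one hK hag hw1 hB
  have h0 : ∑ B ∈ B0 F0 i, w B * Ent K (powersetCard i B ∩ Uu F0 i) ≤
      ∑ B ∈ B0 F0 i, ∑ F ∈ K, (w0 *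
          (Real.log (1 + 2 ^ ((Fintype.card α : ℝ) - 2 * i - 1)) + 1 / i) +
        w0 * Real.log 2 * (powersetCard i B ∩ Uu F0 i).card -
        Real.log 2 * (if vv F B ≠ B then (1 : ℝ) else 0) +
        w0 * (2 * Real.log (i + 1)) *
          (if vv F B ≠ B ∧ (F ∩ (powersetCard i B ∩ Uu F i)).card = 1 then (1 : ℝ) else 0)) := by
    refine sum_le_sum fun B hB => ?_
    rw [hwB0 B hB]
    exact Level_zero hi hin hag hB
  -- the events
  have hN : ∀ F ∈ K, ∑ B ∈ B0 F0 i, (if vv F B ≠ B then (1 : ℝ) else 0) +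
      ∑ B ∈ B1 F0 i, (if vv F B ≠ B then (1 : ℝ) else 0) = (Uu F (i + 1)).card := by
    intro F hF
    rw [← hsplit, ← agr_Nn (hag F hF)]
    exact sum_Nn_ite (hK F hF) i
  have hO : ∀ F ∈ K, ∑ B ∈ B0 F0 i, (if vv F B ≠ B ∧
      (F ∩ (powersetCard i B ∩ Uu F i)).card = 1 then (1 : ℝ) else 0) ≤ SS F (i + 1) := by
    intro F hF
    rw [← agr_B0 (hag F hF)]
    exact sum_B0_ite F i
  have e1 : ∑ B ∈ B1 F0 i, ∑ F ∈ K, (w1 * Real.log (1 + 2 ^ (1 / w1 - i)) +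
        w1 * Real.log 2 * (powersetCard i B ∩ Uu F0 i).card -
        Real.log 2 * (if vv F B ≠ B then (1 : ℝ) else 0)) =
      K.card * ((B1 F0 i).card * (w1 * Real.log (1 + 2 ^ (1 / w1 - i)))) +
      K.card * Real.log 2 * (w1 * ∑ B ∈ B1 F0 i, ((powersetCard i B ∩ Uu F0 i).card : ℝ)) -
      Real.log 2 * ∑ F ∈ K, ∑ B ∈ B1 F0 i, (if vv F B ≠ B then (1 : ℝ) else 0) := by
    rw [sum_comm]
    simp only [sum_sub_distrib, sum_add_distrib, sum_const, nsmul_eq_mul, ← mul_sum]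
    ring
  have e0 : ∑ B ∈ B0 F0 i, ∑ F ∈ K, (w0 *
          (Real.log (1 + 2 ^ ((Fintype.card α : ℝ) - 2 * i - 1)) + 1 / i) +
        w0 * Real.log 2 * (powersetCard i B ∩ Uu F0 i).card -
        Real.log 2 * (if vv F B ≠ B then (1 : ℝ) else 0) +
        w0 * (2 * Real.log (i + 1)) *
          (if vv F B ≠ B ∧ (F ∩ (powersetCard i B ∩ Uu F i)).card = 1 then (1 : ℝ) else 0)) =
      K.card * ((B0 F0 i).card * (w0 *
        (Real.log (1 + 2 ^ ((Fintype.card α : ℝ) - 2 * i - 1)) + 1 / i))) +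
      K.card * Real.log 2 * (w0 * ∑ B ∈ B0 F0 i, ((powersetCard i B ∩ Uu F0 i).card : ℝ)) -
      Real.log 2 * ∑ F ∈ K, ∑ B ∈ B0 F0 i, (if vv F B ≠ B then (1 : ℝ) else 0) +
      w0 * (2 * Real.log (i + 1)) * ∑ F ∈ K, ∑ B ∈ B0 F0 i, (if vv F B ≠ B ∧
        (F ∩ (powersetCard i B ∩ Uu F i)).card = 1 then (1 : ℝ) else 0) := by
    rw [sum_comm]
    simp only [sum_sub_distrib, sum_add_distrib, sum_const, nsmul_eq_mul, ← mul_sum]
    ring
  have hN' : ∑ F ∈ K, ∑ B ∈ B0 F0 i, (if vv F B ≠ B then (1 : ℝ) else 0) +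
      ∑ F ∈ K, ∑ B ∈ B1 F0 i, (if vv F B ≠ B then (1 : ℝ) else 0) =
      ∑ F ∈ K, ((Uu F (i + 1)).card : ℝ) := by
    rw [← sum_add_distrib]
    exact sum_congr rfl hN
  have hO' : ∑ F ∈ K, ∑ B ∈ B0 F0 i, (if vv F B ≠ B ∧
      (F ∩ (powersetCard i B ∩ Uu F i)).card = 1 then (1 : ℝ) else 0) ≤
      ∑ F ∈ K, (SS F (i + 1) : ℝ) := sum_le_sum hO
  have hcoef : 0 ≤ w0 * (2 * Real.log (i + 1)) := by
    have : 0 ≤ Real.log ((i : ℝ) + 1) := Real.log_nonneg (by
      have : (0 : ℝ) ≤ i := Nat.cast_nonneg i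
      linarith)
    positivity
  have hO2 := mul_le_mul_of_nonneg_left hO' hcoef
  have efin : ∑ F ∈ K, (w0 * (2 * Real.log (i + 1) * SS F (i + 1)) -
        Real.log 2 * (Uu F (i + 1)).card) =
      w0 * (2 * Real.log (i + 1)) * ∑ F ∈ K, (SS F (i + 1) : ℝ) -
        Real.log 2 * ∑ F ∈ K, ((Uu F (i + 1)).card : ℝ) := by
    rw [sum_sub_distrib, mul_sum, mul_sum]
    congr 1
    refine sum_congr rfl fun F _ => ?_
    ring
  rw [efin, ← hN', hwtot, hsplit]
  rw [e1] at h1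
  rw [e0] at h0
  linarith

end Pool.Agent.Lib.MP_380ab1_coE
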