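import Pool.Agent.Lib.MP_380ab1_coE.Ent

/-!
# JOB Loc: Gibbs inequality and two local entropy bounds
-/

namespace Pool.Agent.Lib.MP_380ab1_coE

open Finset

variable {β : Type*} [DecidableEq β]

/-- Gibbs inequality (cross entropy).

Proof. `Ent K T - ∑ F, -log (s (F ∩ T)) = ∑ F ∈ K, log (K.card * s (F ∩ T) / cnt K T F)
≤ ∑ F ∈ K, (K.card * s (F ∩ T) / cnt K T F - 1)` by `log t ≤ t - 1`. Group the `F` by `v = F ∩ T`
(`Finset.sum_fiberwise_of_maps_to` into `T.powerset`, or into the image and then monotonicity with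
`hs0`): the fibre over `v` has `cnt K T F` elements, so `∑ F ∈ K, s (F ∩ T) / cnt K T F =
∑ v ∈ image, s v ≤ ∑ v ∈ T.powerset, s v ≤ 1`. -/
theorem gibbs (K : Finset (Finset β)) (T : Finset β) (s : Finset β → ℝ)
    (hs : ∀ F ∈ K, 0 < s (F ∩ T)) (hs0 : ∀ v, 0 ≤ s v) (hsum : ∑ v ∈ T.powerset, s v ≤ 1) :
    Ent K T ≤ ∑ F ∈ K, -Real.log (s (F ∩ T)) := by
  have h1 : ∀ F ∈ K, Real.log ((K.card : ℝ) / (cnt K T F : ℝ)) + Real.log (s (F ∩ T)) ≤
      K.card * (s (F ∩ T) / cnt K T F) - 1 := by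
    intro F hF
    have h2 : (0 : ℝ) < K.card := Nat.cast_pos.2 (card_pos.2 ⟨F, hF⟩)
    have h3 : (0 : ℝ) < cnt K T F := Nat.cast_pos.2 (cnt_pos hF)
    have h4 := hs F hF
    rw [← Real.log_mul (by positivity) h4.ne']
    have h5 : (K.card : ℝ) / (cnt K T F : ℝ) * s (F ∩ T) = K.card * (s (F ∩ T) / cnt K T F) := by ring
    rw [h5]
    exact Real.log_le_sub_one_of_pos (by positivity)
  have h2 : ∑ F ∈ K, s (F ∩ T) / cnt K T F ≤ 1 := by
    rw [← sum_fiberwise_of_maps_to (g := fun F => F ∩ T) (t := T.powerset)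
      (fun F _ => mem_powerset.2 inter_subset_right)]
    refine le_trans (sum_le_sum fun v _ => ?_) hsum
    have h3 : ∀ F ∈ K.filter (fun F => F ∩ T = v), s (F ∩ T) / cnt K T F =
        s v / ((K.filter (fun F => F ∩ T = v)).card : ℝ) := by
      intro F hF
      have h4 := (mem_filter.1 hF).2
      unfold cnt
      rw [h4]
    rw [sum_congr rfl h3, sum_const, nsmul_eq_mul]
    rcases Nat.eq_zero_or_pos (K.filter (fun F => F ∩ T = v)).card with h4 | h4
    · rw [h4]
      simpa using hs0 v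
    · have h5 : ((K.filter (fun F => F ∩ T = v)).card : ℝ) ≠ 0 := by positivity
      rw [mul_div_cancel₀ _ h5]
  have h3 := sum_le_sum h1
  rw [sum_add_distrib, sum_sub_distrib, ← mul_sum] at h3
  simp only [sum_const, nsmul_eq_mul, mul_one] at h3
  rw [sum_neg_distrib]
  unfold Ent
  have h4 : (K.card : ℝ) * ∑ F ∈ K, s (F ∩ T) / cnt K T F ≤ K.card * 1 :=
    mul_le_mul_of_nonneg_left h2 (Nat.cast_nonneg _)
  linarith

/-- One coordinate carries at most one bit: `gibbs` with `s = 1/2`
(`({x} : Finset β).powerset` has two elements). -/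
theorem Ent_single_le (K : Finset (Finset β)) (x : β) :
    Ent K {x} ≤ K.card * Real.log 2 := by
  refine (gibbs K {x} (fun _ => 1 / 2) (fun _ _ => by norm_num) (fun _ => by norm_num) ?_).trans ?_
  · rw [sum_const, card_powerset, card_singleton]
    norm_num
  · rw [sum_const, nsmul_eq_mul]
    refine le_of_eq ?_
    rw [one_div, Real.log_inv, neg_neg]

/-- Local bound 1: if `Q F` implies that the trace on `T` is empty.

Proof. `L = 2 ^ a > 0`. `gibbs` with `s v = (if v = ∅ then L / (1 + L) else 0) +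
(1 / (1 + L)) * (1/2) ^ T.card`. The sum over the powerset is `L/(1+L) + 1/(1+L) = 1`
(`Finset.card_powerset`). If `Q F`, then `s (F ∩ T) ≥ L / (1 + L)`, so
`-log s ≤ log (1 + L) - a log 2` (`Real.log_rpow`); if not `Q F`, `s ≥ (1/(1+L)) (1/2)^T.card`. -/
theorem loc_one (K : Finset (Finset β)) (T : Finset β) (Q : Finset β → Prop) [DecidablePred Q]
    (a : ℝ) (h : ∀ F ∈ K, Q F → F ∩ T = ∅) :
    Ent K T ≤ ∑ F ∈ K, (Real.log (1 + 2 ^ a) +
      if Q F then -(a * Real.log 2) else T.card * Real.log 2) := by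
  have hL : (0 : ℝ) < 2 ^ a := Real.rpow_pos_of_pos (by norm_num) a
  have hlL : Real.log (2 ^ a) = a * Real.log 2 := Real.log_rpow (by norm_num) a
  set L : ℝ := 2 ^ a
  have hp : 0 < 1 / (1 + L) * (1 / 2 : ℝ) ^ T.card := by positivity
  have hlp : -Real.log (1 / (1 + L) * (1 / 2 : ℝ) ^ T.card) = Real.log (1 + L) + T.card * Real.log 2 := by
    rw [Real.log_mul (by positivity) (by positivity), Real.log_pow, one_div, one_div, Real.log_inv, Real.log_inv]
    ring
  refine (gibbs K T (fun v => (if v = ∅ then L / (1 + L) else 0) + 1 / (1 + L) * (1 / 2 : ℝ) ^ T.card)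
    (fun F _ => ?_) (fun v => ?_) ?_).trans (sum_le_sum fun F hF => ?_)
  · show 0 < (if F ∩ T = ∅ then L / (1 + L) else 0) + 1 / (1 + L) * (1 / 2 : ℝ) ^ T.card
    split_ifs <;> positivity
  · show 0 ≤ (if v = ∅ then L / (1 + L) else 0) + 1 / (1 + L) * (1 / 2 : ℝ) ^ T.card
    split_ifs <;> positivity
  · refine le_of_eq ?_
    rw [sum_add_distrib, sum_ite_eq', if_pos (empty_mem_powerset T), sum_const, card_powerset, nsmul_eq_mul]
    push_cast
    have h2 : (2 : ℝ) ^ T.card * (1 / (1 + L) * (1 / 2) ^ T.card) = 1 / (1 + L) := by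
      rw [one_div_pow]
      field_simp
    rw [h2]
    field_simp
    ring
  · show -Real.log ((if F ∩ T = ∅ then L / (1 + L) else 0) + 1 / (1 + L) * (1 / 2 : ℝ) ^ T.card) ≤ _
    by_cases hQ : Q F
    · rw [if_pos hQ, if_pos (h F hF hQ)]
      have h3 : Real.log (L / (1 + L)) ≤ Real.log (L / (1 + L) + 1 / (1 + L) * (1 / 2 : ℝ) ^ T.card) :=
        Real.log_le_log (by positivity) (by linarith)
      rw [Real.log_div hL.ne' (by positivity), hlL] at h3
      linarith
    · rw [if_neg hQ]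
      have h3 : Real.log (1 / (1 + L) * (1 / 2 : ℝ) ^ T.card) ≤
          Real.log ((if F ∩ T = ∅ then L / (1 + L) else 0) + 1 / (1 + L) * (1 / 2 : ℝ) ^ T.card) := by
        refine Real.log_le_log hp ?_
        have h4 : (0 : ℝ) ≤ if F ∩ T = ∅ then L / (1 + L) else 0 := by
          split_ifs <;> positivity
        linarith
      linarith

/-- Local bound 2: if `Q F` implies that the trace on `T` has at most one element.

Proof. `L = 2 ^ a`, `f = T.card ≥ 2`. `gibbs` with
`s v = (if v = ∅ then (L / (1 + L)) * (1 - 1/f) else 0) +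
 (if v.card = 1 then (L / (1 + L)) / f^2 else 0) + (1 / (1 + L)) * (1/2)^f`.
The sum over the powerset is `L/(1+L) (1 - 1/f) + f (L/(1+L)) / f^2 + 1/(1+L) = 1`
(`T` has `f` subsets of size one: `Finset.card_powersetCard`, `Finset.powersetCard_eq_filter`).
If `Q F` and the trace is empty: `-log s ≤ log (1+L) - a log 2 - log (1 - 1/f)` and
`-log (1 - 1/f) = log (f/(f-1)) ≤ 1/(f-1)`. If `Q F` and the trace has one element:
`-log s ≤ log (1+L) - a log 2 + 2 log f`. If not `Q F`: `-log s ≤ log (1+L) + f log 2`. -/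
theorem loc_two (K : Finset (Finset β)) (T : Finset β) (Q : Finset β → Prop) [DecidablePred Q]
    (a : ℝ) (hT : 2 ≤ T.card) (h : ∀ F ∈ K, Q F → (F ∩ T).card ≤ 1) :
    Ent K T ≤ ∑ F ∈ K, (Real.log (1 + 2 ^ a) +
      (if Q F then -(a * Real.log 2) else T.card * Real.log 2) + 1 / ((T.card : ℝ) - 1) +
      (if Q F ∧ (F ∩ T).card = 1 then 2 * Real.log T.card else 0)) := by
  have hL : (0 : ℝ) < 2 ^ a := Real.rpow_pos_of_pos (by norm_num) a
  have hlL : Real.log (2 ^ a) = a * Real.log 2 := Real.log_rpow (by norm_num) a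
  set L : ℝ := 2 ^ a
  have hf : (2 : ℝ) ≤ T.card := by exact_mod_cast hT
  have hf1 : (0 : ℝ) < (T.card : ℝ) - 1 := by linarith
  have hf0 : (0 : ℝ) < T.card := by linarith
  have hq : (0 : ℝ) < 1 - 1 / T.card := by
    rw [sub_pos, div_lt_one hf0]
    linarith
  have hp : 0 < 1 / (1 + L) * (1 / 2 : ℝ) ^ T.card := by positivity
  have hlp : -Real.log (1 / (1 + L) * (1 / 2 : ℝ) ^ T.card) = Real.log (1 + L) + T.card * Real.log 2 := by
    rw [Real.log_mul (by positivity) (by positivity), Real.log_pow, one_div, one_div, Real.log_inv, Real.log_inv]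
    ring
  have ha : 0 < L / (1 + L) * (1 - 1 / T.card) := by positivity
  have hb : 0 < L / (1 + L) / (T.card : ℝ) ^ 2 := by positivity
  have hA : ∀ v : Finset β, (0 : ℝ) ≤ if v = ∅ then L / (1 + L) * (1 - 1 / T.card) else 0 := by
    intro v
    split_ifs
    · exact ha.le
    · exact le_rfl
  have hB : ∀ v : Finset β, (0 : ℝ) ≤ if v.card = 1 then L / (1 + L) / (T.card : ℝ) ^ 2 else 0 := by
    intro v
    split_ifs
    · exact hb.le
    · exact le_rfl
  refine (gibbs K T (fun v => (if v = ∅ then L / (1 + L) * (1 - 1 / T.card) else 0) +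
    (if v.card = 1 then L / (1 + L) / (T.card : ℝ) ^ 2 else 0) + 1 / (1 + L) * (1 / 2 : ℝ) ^ T.card)
    (fun F _ => ?_) (fun v => ?_) ?_).trans (sum_le_sum fun F hF => ?_)
  · have h1 := hA (F ∩ T)
    have h2 := hB (F ∩ T)
    show 0 < (if F ∩ T = ∅ then L / (1 + L) * (1 - 1 / T.card) else 0) +
      (if (F ∩ T).card = 1 then L / (1 + L) / (T.card : ℝ) ^ 2 else 0) + 1 / (1 + L) * (1 / 2 : ℝ) ^ T.card
    linarith
  · have h1 := hA v
    have h2 := hB v
    show 0 ≤ (if v = ∅ then L / (1 + L) * (1 - 1 / T.card) else 0) +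
      (if v.card = 1 then L / (1 + L) / (T.card : ℝ) ^ 2 else 0) + 1 / (1 + L) * (1 / 2 : ℝ) ^ T.card
    linarith
  · refine le_of_eq ?_
    rw [sum_add_distrib, sum_add_distrib, sum_ite_eq', if_pos (empty_mem_powerset T), sum_const, card_powerset,
      nsmul_eq_mul, ← sum_filter, sum_const, nsmul_eq_mul, ← powersetCard_eq_filter, card_powersetCard,
      Nat.choose_one_right]
    push_cast
    have h2 : (2 : ℝ) ^ T.card * (1 / (1 + L) * (1 / 2) ^ T.card) = 1 / (1 + L) := by
      rw [one_div_pow]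
      field_simp
    rw [h2]
    field_simp
    ring
  · show -Real.log ((if F ∩ T = ∅ then L / (1 + L) * (1 - 1 / T.card) else 0) +
      (if (F ∩ T).card = 1 then L / (1 + L) / (T.card : ℝ) ^ 2 else 0) + 1 / (1 + L) * (1 / 2 : ℝ) ^ T.card) ≤ _
    have h1 := hA (F ∩ T)
    have h2 := hB (F ∩ T)
    have hfi : (0 : ℝ) ≤ 1 / ((T.card : ℝ) - 1) := by positivity
    by_cases hQ : Q F
    · rw [if_pos hQ]
      have h3 := h F hF hQ
      rcases Nat.eq_zero_or_pos (F ∩ T).card with h4 | h4
      · have h5 : F ∩ T = ∅ := card_eq_zero.1 h4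
        have h6 : ¬ (Q F ∧ (F ∩ T).card = 1) := fun h7 => by
          rw [h4] at h7
          exact absurd h7.2 (by norm_num)
        rw [if_neg h6, if_pos h5]
        have h7 : Real.log (L / (1 + L) * (1 - 1 / T.card)) ≤ Real.log (L / (1 + L) * (1 - 1 / T.card) +
            (if (F ∩ T).card = 1 then L / (1 + L) / (T.card : ℝ) ^ 2 else 0) +
            1 / (1 + L) * (1 / 2 : ℝ) ^ T.card) :=
          Real.log_le_log ha (by linarith)
        rw [Real.log_mul (by positivity) hq.ne', Real.log_div hL.ne' (by positivity), hlL] at h7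
        have h8 : -Real.log (1 - 1 / T.card) ≤ 1 / ((T.card : ℝ) - 1) := by
          rw [← Real.log_inv]
          refine (Real.log_le_sub_one_of_pos (inv_pos.2 hq)).trans (le_of_eq ?_)
          have h9 : (T.card : ℝ) - 1 ≠ 0 := hf1.ne'
          have h10 : (1 : ℝ) - 1 / T.card = (T.card - 1) / T.card := by
            field_simp
          rw [h10, inv_div]
          field_simp
          ring
        linarith
      · have h5 : (F ∩ T).card = 1 := le_antisymm h3 h4
        have h10 : Q F ∧ (F ∩ T).card = 1 := ⟨hQ, h5⟩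
        rw [if_pos h10]
        have h7 : Real.log (L / (1 + L) / (T.card : ℝ) ^ 2) ≤
            Real.log ((if F ∩ T = ∅ then L / (1 + L) * (1 - 1 / T.card) else 0) +
            (if (F ∩ T).card = 1 then L / (1 + L) / (T.card : ℝ) ^ 2 else 0) +
            1 / (1 + L) * (1 / 2 : ℝ) ^ T.card) := by
          refine Real.log_le_log hb ?_
          rw [if_pos h5]
          linarith
        rw [Real.log_div (by positivity) (by positivity), Real.log_div hL.ne' (by positivity), hlL,
          Real.log_pow] at h7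
        push_cast at h7
        linarith
    · rw [if_neg hQ]
      have h6 : ¬ (Q F ∧ (F ∩ T).card = 1) := fun h7 => hQ h7.1
      rw [if_neg h6]
      have h7 : Real.log (1 / (1 + L) * (1 / 2 : ℝ) ^ T.card) ≤
          Real.log ((if F ∩ T = ∅ then L / (1 + L) * (1 - 1 / T.card) else 0) +
          (if (F ∩ T).card = 1 then L / (1 + L) / (T.card : ℝ) ^ 2 else 0) +
          1 / (1 + L) * (1 / 2 : ℝ) ^ T.card) :=
        Real.log_le_log hp (by linarith)
      linarith

end Pool.Agent.Lib.MP_380ab1_coE
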