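import Pool.Agent.Lib.MP_380ab1_co.Final
import Pool.Agent.Lib.MP_380ab1_coE.Chain
import Pool.Agent.Lib.MP_380ab1_coE.Code

/-!
# Main: the two bounds for `mooreNumber n` and for `numD n m`
-/

namespace Pool.Agent.Lib.MP_380ab1_coE

open Finset Pool.Agent.BoolD

theorem moore_lower {n : ℕ} (hn : 3 ≤ n) :
    (1 + 1 / ((n : ℝ) + 2)) * n.choose (n / 2) ≤ Real.logb 2 (mooreNumber n) := by
  have h := lower_bound hn
  rw [Real.logb, le_div_iff₀ (Real.log_pos (by norm_num)), mooreNumber_eq]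
  linarith

theorem moore_upper {n : ℕ} (hn : 2 ≤ n) :
    Real.logb 2 (mooreNumber n) ≤ (1 + 154 * Real.logb 2 n / n) * n.choose (n / 2) := by
  have h := upper_bound (α := Fin n) (by rw [Fintype.card_fin]; exact hn)
  rw [Fintype.card_fin] at h
  have hL : 0 < Real.log 2 := Real.log_pos (by norm_num)
  rw [Real.logb, div_le_iff₀ hL, mooreNumber_eq]
  refine h.trans (le_of_eq ?_)
  rw [Real.logb]
  have hn0 : (n : ℝ) ≠ 0 := by positivity
  field_simp

/-- A polynomial is smaller than the slack between the two lower bounds. -/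
theorem poly_le {n : ℕ} (hn : 40 ≤ n) :
    1 + (n : ℝ) ^ 2 ≤ (1 / ((n : ℝ) + 2) - 1 / ((n : ℝ) + 3)) * n.choose (n / 2) := by
  have h1 := two_pow_ge hn
  have h2 := choose_middle_ge n
  have h3 : (32 : ℝ) * n ^ 6 ≤ ((n : ℝ) + 1) * n.choose (n / 2) := by
    have : ((32 * n ^ 6 : ℕ) : ℝ) ≤ (((n + 1) * n.choose (n / 2) : ℕ) : ℝ) := by
      exact_mod_cast h1.trans h2
    push_cast at this
    exact this
  have hn' : (40 : ℝ) ≤ n := by exact_mod_cast hn
  have e1 : (1 / ((n : ℝ) + 2) - 1 / ((n : ℝ) + 3)) * n.choose (n / 2) =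
      n.choose (n / 2) / (((n : ℝ) + 2) * ((n : ℝ) + 3)) := by
    field_simp
    ring
  rw [e1, le_div_iff₀ (by positivity)]
  have h4 : (1 + (n : ℝ) ^ 2) * (((n : ℝ) + 2) * ((n : ℝ) + 3)) * ((n : ℝ) + 1) ≤ 32 * (n : ℝ) ^ 6 := by
    have a1 : 1 + (n : ℝ) ^ 2 ≤ 2 * n ^ 2 := by nlinarith
    have a2 : ((n : ℝ) + 2) * ((n : ℝ) + 3) ≤ 4 * n ^ 2 := by nlinarith
    have a3 : (n : ℝ) + 1 ≤ 2 * n := by linarith
    calc (1 + (n : ℝ) ^ 2) * (((n : ℝ) + 2) * ((n : ℝ) + 3)) * ((n : ℝ) + 1)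
        ≤ (2 * n ^ 2) * (4 * n ^ 2) * (2 * n) := by gcongr
      _ = 16 * (n : ℝ) ^ 5 := by ring
      _ ≤ 32 * (n : ℝ) ^ 6 := by
          have : (n : ℝ) ^ 5 ≤ n ^ 6 := pow_le_pow_right₀ (by linarith) (by norm_num)
          nlinarith [pow_nonneg (show (0 : ℝ) ≤ n by linarith) 6]
  have h5 : (0 : ℝ) < (n : ℝ) + 1 := by linarith
  have h6 := h4.trans h3
  rw [mul_comm ((n : ℝ) + 1) ((n.choose (n / 2) : ℝ))] at h6
  exact le_of_mul_le_mul_right h6 h5

theorem numD_bounds {n m : ℕ} (hn : 40 ≤ n) (hm : 2 ^ n ≤ m) :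
    (1 + 1 / ((n : ℝ) + 3)) * n.choose (n / 2) ≤ Real.logb 2 (numD n m) ∧
    Real.logb 2 (numD n m) ≤ (1 + 154 * Real.logb 2 n / n) * n.choose (n / 2) := by
  have hq := quantitative hn hm
  have hM : (0 : ℝ) < mooreNumber n := by exact_mod_cast mooreNumber_pos n
  have hn' : (40 : ℝ) ≤ n := by exact_mod_cast hn
  have hL : 0 < Real.log 2 := Real.log_pos (by norm_num)
  have hhalf : (2 : ℝ) ^ (-((2 : ℝ) ^ n / (n : ℝ) ^ 5)) ≤ 1 / 2 := by
    have h1 : (1 : ℝ) ≤ (2 : ℝ) ^ n / (n : ℝ) ^ 5 := by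
      rw [le_div_iff₀ (by positivity), one_mul]
      have h2 : ((32 * n ^ 6 : ℕ) : ℝ) ≤ ((2 ^ n : ℕ) : ℝ) := by exact_mod_cast two_pow_ge hn
      push_cast at h2
      have h3 : (n : ℝ) ^ 5 ≤ n ^ 6 := pow_le_pow_right₀ (by linarith) (by norm_num)
      nlinarith [pow_nonneg (show (0 : ℝ) ≤ n by linarith) 6]
    calc (2 : ℝ) ^ (-((2 : ℝ) ^ n / (n : ℝ) ^ 5)) ≤ (2 : ℝ) ^ (-1 : ℝ) :=
          Real.rpow_le_rpow_of_exponent_le (by norm_num) (by linarith)
      _ = 1 / 2 := by rw [Real.rpow_neg_one]; norm_num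
  have hab := abs_le.1 (hq.trans hhalf)
  have hf : (1 : ℝ) ≤ (n.factorial : ℝ) := by exact_mod_cast Nat.factorial_pos n
  have hd1 : (mooreNumber n : ℝ) / 2 ≤ n.factorial * numD n m := by
    have h1 : (1 : ℝ) / 2 ≤ (n.factorial * numD n m : ℝ) / mooreNumber n := by linarith
    rw [le_div_iff₀ hM] at h1
    linarith
  have hd2 : (n.factorial * numD n m : ℝ) ≤ 3 / 2 * mooreNumber n := by
    have h1 : (n.factorial * numD n m : ℝ) / mooreNumber n ≤ 3 / 2 := by linarith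
    rwa [div_le_iff₀ hM] at h1
  have hDpos : (0 : ℝ) < numD n m := by
    by_contra h
    push Not at h
    have h0 : (numD n m : ℝ) = 0 := le_antisymm h (Nat.cast_nonneg _)
    rw [h0, mul_zero] at hd1
    linarith
  constructor
  · -- lower bound
    have h1 : Real.logb 2 (mooreNumber n) ≤
        Real.logb 2 (2 * n.factorial * numD n m) := by
      apply Real.logb_le_logb_of_le (by norm_num) hM
      linarith
    have h2 : Real.logb 2 (2 * n.factorial * numD n m) =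
        1 + Real.logb 2 n.factorial + Real.logb 2 (numD n m) := by
      rw [Real.logb_mul (by positivity) hDpos.ne', Real.logb_mul (by norm_num) (by positivity),
        Real.logb_self_eq_one (by norm_num)]
    have h3 : Real.logb 2 n.factorial ≤ (n : ℝ) ^ 2 := by
      have e1 : (n.factorial : ℝ) ≤ (n : ℝ) ^ n := by exact_mod_cast Nat.factorial_le_pow n
      have e2 : Real.logb 2 n.factorial ≤ Real.logb 2 ((n : ℝ) ^ n) :=
        Real.logb_le_logb_of_le (by norm_num) (by positivity) e1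
      have e3 : Real.logb 2 ((n : ℝ) ^ n) = n * Real.logb 2 n := Real.logb_pow 2 (n : ℝ) n
      have e4 : Real.logb 2 n ≤ n := by
        rw [Real.logb_le_iff_le_rpow (by norm_num) (by linarith), Real.rpow_natCast]
        exact_mod_cast Nat.lt_two_pow_self.le
      rw [e3] at e2
      nlinarith
    have h4 := moore_lower (n := n) (by omega)
    have h5 := poly_le hn
    have h6 : (1 + 1 / ((n : ℝ) + 3)) * n.choose (n / 2) =
        (1 + 1 / ((n : ℝ) + 2)) * n.choose (n / 2) -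
          (1 / ((n : ℝ) + 2) - 1 / ((n : ℝ) + 3)) * n.choose (n / 2) := by ring
    rw [h6]
    linarith
  · -- upper bound
    refine le_trans ?_ (moore_upper (n := n) (by omega))
    apply Real.logb_le_logb_of_le (by norm_num) hDpos
    have h2 : (2 : ℝ) ≤ n.factorial := by
      have := Nat.factorial_le (show 2 ≤ n by omega)
      have h : ((Nat.factorial 2 : ℕ) : ℝ) ≤ (n.factorial : ℝ) := by exact_mod_cast this
      simpa using h
    nlinarith

end Pool.Agent.Lib.MP_380ab1_coE
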