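import Pool.Agent.Lib.MP_380ab1_coE.Cov

/-!
# Pers: persistence along the levels, for every single family
-/

namespace Pool.Agent.Lib.MP_380ab1_coE

open Finset Pool.Agent.BoolD

variable {α : Type*} [DecidableEq α] [Fintype α]

omit [Fintype α] in
/-- If `|A(F, B)| ≥ 2`, at most two `b ∈ B` have `|A(F, B \ b)| ≤ 1`: such a `b` lies in
`A(F, B)`, which has exactly two elements. -/
theorem few_drop (F : Finset (Finset α)) (B : Finset α) (h : 2 ≤ (AA F B).card) :
    (B.filter (fun b => (AA F (B.erase b)).card ≤ 1)).card ≤ 2 := by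
  have key : ∀ b ∈ B, (AA F (B.erase b)).card ≤ 1 → b ∈ AA F B ∧ (AA F B).card = 2 := by
    intro b hb h1
    have h2 : (AA F B).erase b ⊆ AA F (B.erase b) := by
      intro a ha
      rw [mem_erase] at ha
      exact AA_inter (erase_subset b B)
        (mem_inter.2 ⟨ha.2, mem_erase.2 ⟨ha.1, AA_subset F B ha.2⟩⟩)
    have h3 := card_le_card h2
    by_cases hm : b ∈ AA F B
    · rw [card_erase_of_mem hm] at h3
      exact ⟨hm, by omega⟩
    · rw [erase_eq_of_notMem hm] at h3
      omega
  by_cases hne : (B.filter (fun b => (AA F (B.erase b)).card ≤ 1)).Nonempty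
  · obtain ⟨b, hb⟩ := hne
    rw [mem_filter] at hb
    have h4 := (key b hb.1 hb.2).2
    rw [← h4]
    apply card_le_card
    intro a ha
    rw [mem_filter] at ha
    exact (key a ha.1 ha.2).1
  · rw [not_nonempty_iff_eq_empty] at hne
    rw [hne, card_empty]
    omega

/-- The pairs `(B, b)` with `|B| = i + 1`, `b ∈ B`, `|A(F, B \ b)| ≤ 1`, counted from below. -/
theorem Pers_count (F : Finset (Finset α)) (i : ℕ) :
    ∑ B ∈ (Lv (i + 1) : Finset (Finset α)),
      (B.filter (fun b => (AA F (B.erase b)).card ≤ 1)).card =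
      (Fintype.card α - i) * RR F i := by
  have h1 := sum_upper_lower_nat (α := α) i (fun x _ => if (AA F x).card ≤ 1 then 1 else 0)
  have h2 : ∑ B ∈ (Lv (i + 1) : Finset (Finset α)),
      (B.filter (fun b => (AA F (B.erase b)).card ≤ 1)).card =
      ∑ B ∈ (Lv (i + 1) : Finset (Finset α)), ∑ b ∈ B,
        if (AA F (B.erase b)).card ≤ 1 then 1 else 0 := by
    apply sum_congr rfl
    intro B _
    rw [card_filter]
  rw [h2, ← h1, RR, card_filter, mul_sum]
  apply sum_congr rfl
  intro x hx
  rw [sum_const, card_upper (mem_Lv.1 hx), smul_eq_mul]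

/-- Persistence inequality. -/
theorem pers {F : Finset (Finset α)} {j : ℕ} (hj : 1 ≤ j) (hjn : j ≤ Fintype.card α) :
    PP F j + (Fintype.card α - (j - 1)) * RR F (j - 1) ≤
      j * RR F j + 2 * (Fintype.card α).choose j := by
  obtain ⟨i, rfl⟩ : ∃ i, j = i + 1 := ⟨j - 1, by omega⟩
  rw [Nat.add_sub_cancel, ← Pers_count, ← sum_filter_add_sum_filter_not
    (Lv (i + 1) : Finset (Finset α)) (fun B => (AA F B).card ≤ 1)]
  have h1 : PP F (i + 1) + ∑ B ∈ (Lv (i + 1)).filter (fun B => (AA F B).card ≤ 1),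
      (B.filter (fun b => (AA F (B.erase b)).card ≤ 1)).card = (i + 1) * RR F (i + 1) := by
    rw [PP, ← sum_add_distrib, RR, mul_comm, ← smul_eq_mul, ← sum_const]
    apply sum_congr rfl
    intro B hB
    rw [mem_filter, mem_Lv] at hB
    have h3 := card_filter_add_card_filter_not (s := B)
      (fun b => 2 ≤ (AA F (B.erase b)).card)
    have h4 : B.filter (fun b => ¬ 2 ≤ (AA F (B.erase b)).card) =
        B.filter (fun b => (AA F (B.erase b)).card ≤ 1) := by
      apply filter_congr
      intro b _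
      omega
    rw [h4, hB.1] at h3
    exact h3
  have h2 : ∑ B ∈ (Lv (i + 1)).filter (fun B => ¬ (AA F B).card ≤ 1),
      (B.filter (fun b => (AA F (B.erase b)).card ≤ 1)).card ≤
      2 * (Fintype.card α).choose (i + 1) := by
    calc ∑ B ∈ (Lv (i + 1)).filter (fun B => ¬ (AA F B).card ≤ 1),
        (B.filter (fun b => (AA F (B.erase b)).card ≤ 1)).card
        ≤ ∑ _B ∈ (Lv (i + 1)).filter (fun B => ¬ (AA F B).card ≤ 1), 2 := by
          apply sum_le_sum
          intro B hB
          rw [mem_filter] at hB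
          exact few_drop F B (by omega)
      _ = ((Lv (i + 1)).filter (fun B => ¬ (AA F B).card ≤ 1)).card * 2 := by
          rw [sum_const, smul_eq_mul]
      _ ≤ (Fintype.card α).choose (i + 1) * 2 := by
          apply Nat.mul_le_mul_right
          rw [← card_Lv]
          exact card_le_card (filter_subset _ _)
      _ = 2 * (Fintype.card α).choose (i + 1) := mul_comm _ _
  omega

omit [Fintype α] in
/-- If `|A(F, B)| = 1` and `v(F, B)` is nonforced, at most two `b ∈ B` have
`|A(F, B \ b)| ≤ 1`. -/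
theorem Pers_few {F : Finset (Finset α)} (hF : UC F) {B : Finset α} (h : (AA F B).card = 1)
    (hv : vv F (vv F B) ≠ vv F B) :
    (B.filter (fun b => (AA F (B.erase b)).card ≤ 1)).card ≤ 2 := by
  obtain ⟨c, hc⟩ := card_eq_one.1 h
  have hcA : c ∈ AA F B := by
    rw [hc]
    exact mem_singleton_self c
  have hv1 : ∀ C : Finset α, AA F C = {c} → vv F C = C.erase c := by
    intro C hC
    have h1 : C \ vv F C = {c} := hC
    rw [erase_eq, ← h1, Finset.sdiff_sdiff_eq_self (vv_subset F C)]
  have hvB := hv1 B hc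
  have h2 : ((B.filter (fun b => (AA F (B.erase b)).card ≤ 1)).erase c).card ≤ 1 := by
    rw [card_le_one]
    intro a ha b hb
    rw [mem_erase, mem_filter] at ha hb
    by_contra hab
    have key : ∀ b, b ≠ c → b ∈ B → (AA F (B.erase b)).card ≤ 1 →
        (B.erase c).erase b ∈ F := by
      intro b hbc hbB hb1
      have h3 : c ∈ AA F (B.erase b) :=
        AA_inter (erase_subset b B)
          (mem_inter.2 ⟨hcA, mem_erase.2 ⟨fun h => hbc h.symm, AA_subset F B hcA⟩⟩)
      have h4 : AA F (B.erase b) = {c} := by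
        apply eq_singleton_iff_unique_mem.2
        refine ⟨h3, fun x hx => ?_⟩
        exact card_le_one.1 hb1 x hx c h3
      have h5 := hv1 _ h4
      rw [erase_right_comm, ← h5]
      exact vv_mem hF _
    have ka := key a ha.1 ha.2.1 ha.2.2
    have kb := key b hb.1 hb.2.1 hb.2.2
    apply hv
    rw [hvB]
    apply (vv_subset F _).antisymm
    have sa : (B.erase c).erase a ⊂ B.erase c := erase_ssubset (mem_erase.2 ⟨ha.1, ha.2.1⟩)
    have sb : (B.erase c).erase b ⊂ B.erase c := erase_ssubset (mem_erase.2 ⟨hb.1, hb.2.1⟩)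
    intro x hx
    by_cases hxa : x = a
    · have : x ∈ (B.erase c).erase b := mem_erase.2 ⟨fun h => hab (hxa.symm.trans h), hx⟩
      exact le_vv kb sb this
    · exact le_vv ka sa (mem_erase.2 ⟨hxa, hx⟩)
  have h6 := pred_card_le_card_erase
    (s := B.filter (fun b => (AA F (B.erase b)).card ≤ 1)) (a := c)
  omega

/-- New type one sets are few. -/
theorem SS_le {F : Finset (Finset α)} (hF : UC F) (j : ℕ) :
    j * SS F j ≤ PP F j + 2 * SS F j := by
  have hsub : (Lv j).filter (fun B => (AA F B).card = 1 ∧ vv F (vv F B) ≠ vv F B) ⊆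
      (Lv j).filter (fun B => (AA F B).card ≤ 1) := by
    intro B hB
    rw [mem_filter] at hB ⊢
    exact ⟨hB.1, by omega⟩
  have h1 : ∑ B ∈ (Lv j).filter (fun B => (AA F B).card = 1 ∧ vv F (vv F B) ≠ vv F B),
      (B.filter (fun b => 2 ≤ (AA F (B.erase b)).card)).card ≤ PP F j := by
    rw [PP]
    exact sum_le_sum_of_subset hsub
  have h2 : j * SS F j ≤
      ∑ B ∈ (Lv j).filter (fun B => (AA F B).card = 1 ∧ vv F (vv F B) ≠ vv F B),
      ((B.filter (fun b => 2 ≤ (AA F (B.erase b)).card)).card + 2) := by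
    rw [SS, mul_comm, ← smul_eq_mul, ← sum_const]
    apply sum_le_sum
    intro B hB
    rw [mem_filter, mem_Lv] at hB
    have h3 := card_filter_add_card_filter_not (s := B)
      (fun b => 2 ≤ (AA F (B.erase b)).card)
    have h4 : B.filter (fun b => ¬ 2 ≤ (AA F (B.erase b)).card) =
        B.filter (fun b => (AA F (B.erase b)).card ≤ 1) := by
      apply filter_congr
      intro b _
      omega
    rw [h4, hB.1] at h3
    have h5 := Pers_few hF hB.2.1 hB.2.2
    omega
  rw [sum_add_distrib, sum_const, smul_eq_mul] at h2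
  have h6 : ((Lv j).filter (fun B => (AA F B).card = 1 ∧ vv F (vv F B) ≠ vv F B)).card =
      SS F j := rfl
  rw [h6] at h2
  omega

theorem SS_le_choose (F : Finset (Finset α)) (j : ℕ) : SS F j ≤ (Fintype.card α).choose j := by
  rw [← card_Lv]
  exact card_le_card (filter_subset _ _)

theorem RR_le_choose (F : Finset (Finset α)) (j : ℕ) : RR F j ≤ (Fintype.card α).choose j := by
  rw [← card_Lv]
  exact card_le_card (filter_subset _ _)

/-- Forced sets force most of their upper covers already. -/
theorem Ww_upper (F : Finset (Finset α)) (i : ℕ) :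
    (Fintype.card α - i) * (Ww F i).card ≤
      (Fintype.card α).choose (i + 1) + (i + 1) * (B2 F i).card := by
  have h1 : (Fintype.card α - i) * (Ww F i).card =
      ∑ x ∈ Ww F i, ∑ _B ∈ (Lv (i + 1)).filter (fun B => x ⊆ B), 1 := by
    rw [mul_comm, ← smul_eq_mul, ← sum_const]
    apply sum_congr rfl
    intro x hx
    rw [sum_const, card_upper (mem_Ww.1 hx).1, smul_eq_mul, mul_one]
  have h2 : ∑ x ∈ Ww F i, ∑ _B ∈ (Lv (i + 1)).filter (fun B => x ⊆ B), 1 =
      ∑ B ∈ (Lv (i + 1) : Finset (Finset α)), ∑ _x ∈ (Ww F i).filter (fun x => x ⊆ B), 1 := by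
    apply sum_comm'
    intro x B
    rw [mem_filter, mem_filter]
    tauto
  have h3 : ∀ B : Finset α, ∑ _x ∈ (Ww F i).filter (fun x => x ⊆ B), 1 =
      ((Ww F i).filter (fun x => x ⊆ B)).card := by
    intro B
    rw [sum_const, smul_eq_mul, mul_one]
  rw [h1, h2]
  simp only [h3]
  rw [← sum_filter_add_sum_filter_not (Lv (i + 1) : Finset (Finset α))
    (fun B => vv (Gg F i) B = B)]
  have h4 : ∑ B ∈ (Lv (i + 1)).filter (fun B => vv (Gg F i) B = B),
      ((Ww F i).filter (fun x => x ⊆ B)).card ≤ (B2 F i).card * (i + 1) := by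
    rw [B2, ← smul_eq_mul, ← sum_const]
    apply sum_le_sum
    intro B hB
    rw [mem_filter, mem_Lv] at hB
    calc ((Ww F i).filter (fun x => x ⊆ B)).card
        ≤ ((Lv i).filter (fun x => x ⊆ B)).card := by
          apply card_le_card
          apply filter_subset_filter
          intro x hx
          exact mem_Lv.2 (mem_Ww.1 hx).1
      _ = (B.image (fun b => B.erase b)).card := by rw [lower_eq hB.1]
      _ ≤ B.card := card_image_le
      _ = i + 1 := hB.1
  have h5 : ∑ B ∈ (Lv (i + 1)).filter (fun B => ¬ vv (Gg F i) B = B),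
      ((Ww F i).filter (fun x => x ⊆ B)).card ≤ (Fintype.card α).choose (i + 1) := by
    calc ∑ B ∈ (Lv (i + 1)).filter (fun B => ¬ vv (Gg F i) B = B),
        ((Ww F i).filter (fun x => x ⊆ B)).card
        ≤ ∑ _B ∈ (Lv (i + 1)).filter (fun B => ¬ vv (Gg F i) B = B), 1 := by
          apply sum_le_sum
          intro B hB
          have hB' : B ∈ Nn F i := hB
          rw [card_le_one]
          intro x hx y hy
          rw [mem_filter] at hx hy
          exact Ww_unique hB' hx.1 hy.1 hx.2 hy.2
      _ = ((Lv (i + 1)).filter (fun B => ¬ vv (Gg F i) B = B)).card := by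
          rw [sum_const, smul_eq_mul, mul_one]
      _ ≤ (Fintype.card α).choose (i + 1) := by
          rw [← card_Lv]
          exact card_le_card (filter_subset _ _)
  rw [mul_comm] at h4
  omega

end Pool.Agent.Lib.MP_380ab1_coE
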