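import Pool.Agent.Lib.MP_380ab1_coE.Sub
import Pool.Agent.Lib.MP_380ab1_coE.Loc

/-!
# Shear: Shearer inequality with real weights and a residual
-/

namespace Pool.Agent.Lib.MP_380ab1_coE

open Finset

variable {β : Type*} [DecidableEq β]

/-- One new coordinate adds at most one bit. -/
theorem Ent_insert_le (K : Finset (Finset β)) (x : β) (T : Finset β) :
    Ent K (insert x T) ≤ Ent K T + K.card * Real.log 2 := by
  have h1 := Ent_submod (Finset.empty_subset T) x K
  have h2 := Ent_single_le K x
  rw [Ent_empty, insert_empty_eq] at h1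
  linarith

/-- Shearer inequality with weights. -/
theorem shearer {ι : Type*} [DecidableEq ι] (K : Finset (Finset β)) (V : Finset β) (I : Finset ι)
    (S : ι → Finset β) (w : ι → ℝ) (hw : ∀ B ∈ I, 0 ≤ w B) :
    Ent K V ≤ ∑ B ∈ I, w B * Ent K (S B ∩ V) +
      K.card * Real.log 2 * ∑ x ∈ V, max 0 (1 - ∑ B ∈ I.filter (fun B => x ∈ S B), w B) := by
  induction V using Finset.induction_on with
  | empty =>
    rw [sum_empty, mul_zero, add_zero, Ent_empty]
    apply sum_nonneg
    intro B _
    rw [inter_empty, Ent_empty, mul_zero]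
  | insert x V hx ih =>
    rw [sum_insert hx]
    set c : ℝ := ∑ B ∈ I.filter (fun B => x ∈ S B), w B with hc
    set d : ℝ := Ent K (insert x V) - Ent K V with hd
    have hd0 : 0 ≤ d := sub_nonneg.2 (Ent_mono (subset_insert x V) K)
    have hd1 : d ≤ K.card * Real.log 2 := by
      have := Ent_insert_le K x V
      linarith
    have h1 : ∀ B ∈ I, w B * Ent K (S B ∩ V) + (if x ∈ S B then w B * d else 0) ≤
        w B * Ent K (S B ∩ insert x V) := by
      intro B hB
      by_cases hxB : x ∈ S B
      · rw [if_pos hxB, ← mul_add]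
        apply mul_le_mul_of_nonneg_left _ (hw B hB)
        rw [inter_insert_of_mem hxB]
        have := Ent_submod (inter_subset_right : S B ∩ V ⊆ V) x K
        linarith
      · rw [if_neg hxB, add_zero, inter_insert_of_notMem hxB]
    have h2 : ∑ B ∈ I, w B * Ent K (S B ∩ V) + c * d ≤
        ∑ B ∈ I, w B * Ent K (S B ∩ insert x V) := by
      have h3 := sum_le_sum h1
      rw [sum_add_distrib, ← sum_filter, ← sum_mul] at h3
      exact h3
    have h4 : d ≤ c * d + K.card * Real.log 2 * max 0 (1 - c) := by
      have h5 : d * (1 - c) ≤ d * max 0 (1 - c) := mul_le_mul_of_nonneg_left (le_max_right _ _) hd0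
      have h6 : d * max 0 (1 - c) ≤ K.card * Real.log 2 * max 0 (1 - c) :=
        mul_le_mul_of_nonneg_right hd1 (le_max_left _ _)
      linarith
    rw [mul_add]
    linarith

end Pool.Agent.Lib.MP_380ab1_coE
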