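import Pool.Agent.Lib.MP_380ab1_coE.Defs

/-!
# Str: elementary facts on `vv`, `AA` and the levels
-/

namespace Pool.Agent.Lib.MP_380ab1_coE

open Finset Pool.Agent.BoolD

section

variable {α : Type*} [DecidableEq α]

theorem vv_subset (F : Finset (Finset α)) (C : Finset α) : vv F C ⊆ C :=
  Finset.sup_le fun _ hB => (mem_filter.1 hB).2.1

theorem mem_vv {F : Finset (Finset α)} {C : Finset α} {a : α} :
    a ∈ vv F C ↔ ∃ B ∈ F, B ⊂ C ∧ a ∈ B := by
  unfold vv
  rw [Finset.mem_sup]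
  constructor
  · rintro ⟨B, hB, ha⟩
    exact ⟨B, (mem_filter.1 hB).1, (mem_filter.1 hB).2, ha⟩
  · rintro ⟨B, hB, h, ha⟩
    exact ⟨B, mem_filter.2 ⟨hB, h⟩, ha⟩

theorem le_vv {F : Finset (Finset α)} {B C : Finset α} (hB : B ∈ F) (h : B ⊂ C) : B ⊆ vv F C :=
  fun _ ha => mem_vv.2 ⟨B, hB, h, ha⟩

theorem vv_mono {F F' : Finset (Finset α)} (h : F ⊆ F') (C : Finset α) : vv F C ⊆ vv F' C := by
  intro a ha
  obtain ⟨B, hB, h1, h2⟩ := mem_vv.1 ha
  exact mem_vv.2 ⟨B, h hB, h1, h2⟩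

theorem vv_mem {F : Finset (Finset α)} (hF : UC F) (C : Finset α) : vv F C ∈ F :=
  hF.sup_mem (filter_subset _ _)

theorem mem_of_vv_eq {F : Finset (Finset α)} (hF : UC F) {C : Finset α} (h : vv F C = C) :
    C ∈ F := h ▸ vv_mem hF C

/-- `vv F C` depends only on the members of size smaller than that of `C`. -/
theorem vv_congr {F F' : Finset (Finset α)} {C : Finset α}
    (h : ∀ x : Finset α, x.card < C.card → (x ∈ F ↔ x ∈ F')) : vv F C = vv F' C := by
  ext a
  rw [mem_vv, mem_vv]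
  constructor
  · rintro ⟨B, hB, h1, h2⟩
    exact ⟨B, (h B (card_lt_card h1)).1 hB, h1, h2⟩
  · rintro ⟨B, hB, h1, h2⟩
    exact ⟨B, (h B (card_lt_card h1)).2 hB, h1, h2⟩

/-- Persistence: what is uncovered in the big set is uncovered in the small one. -/
theorem AA_inter {F : Finset (Finset α)} {C E : Finset α} (h : C ⊆ E) :
    AA F E ∩ C ⊆ AA F C := by
  intro a ha
  rw [mem_inter, AA, mem_sdiff] at ha
  rw [AA, mem_sdiff]
  refine ⟨ha.2, fun hc => ha.1.2 ?_⟩
  obtain ⟨B, hB, h1, h2⟩ := mem_vv.1 hc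
  exact mem_vv.2 ⟨B, hB, lt_of_lt_of_le h1 h, h2⟩

theorem AA_subset (F : Finset (Finset α)) (C : Finset α) : AA F C ⊆ C := sdiff_subset

theorem AA_card_add (F : Finset (Finset α)) (C : Finset α) :
    (AA F C).card + (vv F C).card = C.card := by
  unfold AA
  exact card_sdiff_add_card_eq_card (vv_subset F C)

theorem AA_eq_empty_iff {F : Finset (Finset α)} {C : Finset α} : AA F C = ∅ ↔ vv F C = C := by
  unfold AA
  rw [sdiff_eq_empty_iff_subset]
  exact ⟨fun h => (vv_subset F C).antisymm h, fun h => h.symm ▸ subset_rfl⟩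

theorem AA_ne_empty_iff {F : Finset (Finset α)} {C : Finset α} : 0 < (AA F C).card ↔ vv F C ≠ C := by
  rw [card_pos, nonempty_iff_ne_empty, Ne, AA_eq_empty_iff]

end

section

variable {α : Type*} [DecidableEq α] [Fintype α]

omit [DecidableEq α] in
theorem mem_Lv {i : ℕ} {x : Finset α} : x ∈ (Lv i : Finset (Finset α)) ↔ x.card = i := by
  unfold Lv
  rw [mem_powersetCard]
  exact ⟨fun h => h.2, fun h => ⟨subset_univ _, h⟩⟩

omit [DecidableEq α] in
theorem card_Lv (i : ℕ) : (Lv i : Finset (Finset α)).card = (Fintype.card α).choose i := by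
  unfold Lv
  rw [card_powersetCard, card_univ]

theorem mem_Uu {F : Finset (Finset α)} {i : ℕ} {x : Finset α} :
    x ∈ Uu F i ↔ x.card = i ∧ vv F x ≠ x := by
  unfold Uu
  rw [mem_filter, mem_Lv]

theorem mem_Ww {F : Finset (Finset α)} {i : ℕ} {x : Finset α} :
    x ∈ Ww F i ↔ x.card = i ∧ vv F x = x := by
  unfold Ww
  rw [mem_filter, mem_Lv]

theorem Ww_subset {F : Finset (Finset α)} (hF : UC F) (i : ℕ) : Ww F i ⊆ F :=
  fun _ hx => mem_of_vv_eq hF (mem_Ww.1 hx).2

theorem mem_Gg {F : Finset (Finset α)} {i : ℕ} {x : Finset α} :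
    x ∈ Gg F i ↔ (x ∈ F ∧ x.card < i) ∨ x ∈ Ww F i := by
  unfold Gg
  rw [mem_union, mem_filter]

theorem Gg_subset {F : Finset (Finset α)} (hF : UC F) (i : ℕ) : Gg F i ⊆ F := by
  intro x hx
  rcases mem_Gg.1 hx with h | h
  · exact h.1
  · exact Ww_subset hF i h

theorem mem_Nn {F : Finset (Finset α)} {i : ℕ} {B : Finset α} :
    B ∈ Nn F i ↔ B.card = i + 1 ∧ vv (Gg F i) B ≠ B := by
  unfold Nn
  rw [mem_filter, mem_Lv]

theorem mem_B0 {F : Finset (Finset α)} {i : ℕ} {B : Finset α} :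
    B ∈ B0 F i ↔ B ∈ Nn F i ∧ ∀ x ∈ Ww F i, ¬ x ⊆ B := by
  unfold B0
  rw [mem_filter]

theorem mem_B1 {F : Finset (Finset α)} {i : ℕ} {B : Finset α} :
    B ∈ B1 F i ↔ B ∈ Nn F i ∧ ∃ x ∈ Ww F i, x ⊆ B := by
  unfold B1
  rw [mem_filter]

theorem mem_B2 {F : Finset (Finset α)} {i : ℕ} {B : Finset α} :
    B ∈ B2 F i ↔ B.card = i + 1 ∧ vv (Gg F i) B = B := by
  unfold B2
  rw [mem_filter, mem_Lv]

theorem Nn_add_B2 (F : Finset (Finset α)) (i : ℕ) :
    (Nn F i).card + (B2 F i).card = (Fintype.card α).choose (i + 1) := by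
  rw [← card_Lv, Nn, B2, add_comm]
  exact card_filter_add_card_filter_not (s := (Lv (i + 1) : Finset (Finset α)))
    (fun B => vv (Gg F i) B = B)

theorem B0_add_B1 (F : Finset (Finset α)) (i : ℕ) :
    (B0 F i).card + (B1 F i).card = (Nn F i).card := by
  rw [B0, B1, add_comm, ← card_filter_add_card_filter_not (s := Nn F i)
    (fun B => ∃ x ∈ Ww F i, x ⊆ B)]
  congr 2
  ext B
  simp only [mem_filter, not_exists, not_and]

theorem Uu_add_Ww (F : Finset (Finset α)) (i : ℕ) :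
    (Uu F i).card + (Ww F i).card = (Fintype.card α).choose i := by
  rw [← card_Lv, Uu, Ww, add_comm]
  exact card_filter_add_card_filter_not (s := (Lv i : Finset (Finset α)))
    (fun B => vv F B = B)

theorem upper_eq {i : ℕ} {x : Finset α} (hx : x.card = i) :
    (Lv (i + 1) : Finset (Finset α)).filter (fun B => x ⊆ B) = (xᶜ).image (fun a => insert a x) := by
  ext B
  rw [mem_filter, mem_Lv, mem_image]
  constructor
  · rintro ⟨hB, hxB⟩
    have h1 : (B \ x).card = 1 := by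
      rw [card_sdiff_of_subset hxB, hB, hx]
      omega
    obtain ⟨a, ha⟩ := card_eq_one.1 h1
    have ha' : a ∈ B \ x := by rw [ha]; exact mem_singleton_self a
    refine ⟨a, mem_compl.2 (mem_sdiff.1 ha').2, ?_⟩
    rw [insert_eq, ← ha, sdiff_union_of_subset hxB]
  · rintro ⟨a, ha, rfl⟩
    exact ⟨by rw [card_insert_of_notMem (mem_compl.1 ha), hx], subset_insert _ _⟩

/-- A set of size `i` has `n - i` upper covers. -/
theorem card_upper {i : ℕ} {x : Finset α} (hx : x.card = i) :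
    ((Lv (i + 1) : Finset (Finset α)).filter (fun B => x ⊆ B)).card = Fintype.card α - i := by
  rw [upper_eq hx, card_image_of_injOn, card_compl, hx]
  intro a ha b hb h
  have h1 : a ∈ insert b x := by
    have : a ∈ insert a x := mem_insert_self a x
    rwa [show insert a x = insert b x from h] at this
  rcases mem_insert.1 h1 with h2 | h2
  · exact h2
  · exact absurd h2 (mem_compl.1 ha)

theorem lower_eq {i : ℕ} {B : Finset α} (hB : B.card = i + 1) :
    (Lv i : Finset (Finset α)).filter (fun x => x ⊆ B) = B.image (fun b => B.erase b) := by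
  ext x
  rw [mem_filter, mem_Lv, mem_image]
  constructor
  · rintro ⟨hx, hxB⟩
    have h1 : (B \ x).card = 1 := by
      rw [card_sdiff_of_subset hxB, hB, hx]
      omega
    obtain ⟨a, ha⟩ := card_eq_one.1 h1
    have ha' : a ∈ B \ x := by rw [ha]; exact mem_singleton_self a
    refine ⟨a, (mem_sdiff.1 ha').1, ?_⟩
    rw [erase_eq, ← ha, Finset.sdiff_sdiff_eq_self hxB]
  · rintro ⟨b, hb, rfl⟩
    exact ⟨by rw [card_erase_of_mem hb, hB]; rfl, erase_subset _ _⟩

omit [Fintype α] in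
theorem eraseInjOn {B : Finset α} : Set.InjOn (fun b => B.erase b) (B : Set α) := by
  intro a ha b hb h
  by_contra hne
  have h1 : a ∈ B.erase b := mem_erase.2 ⟨hne, ha⟩
  rw [← show B.erase a = B.erase b from h] at h1
  exact absurd h1 (notMem_erase a B)

/-- Double counting of the pairs lower cover / upper cover. -/
theorem sum_upper_lower (i : ℕ) (f : Finset α → Finset α → ℝ) :
    ∑ x ∈ (Lv i : Finset (Finset α)), ∑ B ∈ (Lv (i + 1)).filter (fun B => x ⊆ B), f x B =
      ∑ B ∈ (Lv (i + 1) : Finset (Finset α)), ∑ b ∈ B, f (B.erase b) B := by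
  have h1 : ∑ x ∈ (Lv i : Finset (Finset α)), ∑ B ∈ (Lv (i + 1)).filter (fun B => x ⊆ B), f x B =
      ∑ B ∈ (Lv (i + 1) : Finset (Finset α)), ∑ x ∈ (Lv i).filter (fun x => x ⊆ B), f x B := by
    apply sum_comm'
    intro x B
    rw [mem_filter, mem_filter]
    tauto
  rw [h1]
  apply sum_congr rfl
  intro B hB
  rw [lower_eq (mem_Lv.1 hB), sum_image eraseInjOn]

/-- The same with natural numbers. -/
theorem sum_upper_lower_nat (i : ℕ) (f : Finset α → Finset α → ℕ) :
    ∑ x ∈ (Lv i : Finset (Finset α)), ∑ B ∈ (Lv (i + 1)).filter (fun B => x ⊆ B), f x B =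
      ∑ B ∈ (Lv (i + 1) : Finset (Finset α)), ∑ b ∈ B, f (B.erase b) B := by
  have h1 : ∑ x ∈ (Lv i : Finset (Finset α)), ∑ B ∈ (Lv (i + 1)).filter (fun B => x ⊆ B), f x B =
      ∑ B ∈ (Lv (i + 1) : Finset (Finset α)), ∑ x ∈ (Lv i).filter (fun x => x ⊆ B), f x B := by
    apply sum_comm'
    intro x B
    rw [mem_filter, mem_filter]
    tauto
  rw [h1]
  apply sum_congr rfl
  intro B hB
  rw [lower_eq (mem_Lv.1 hB), sum_image eraseInjOn]

end

end Pool.Agent.Lib.MP_380ab1_coE
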