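import Pool.Agent.Lib.MP_380ab1_coE.Ent

/-!
# JOB Sub: submodularity of the entropy
-/

namespace Pool.Agent.Lib.MP_380ab1_coE

open Finset

variable {β : Type*} [DecidableEq β]

private theorem Sub_sub {A B U V : Finset β} (h : U ⊆ V) (h1 : A ∩ V = B ∩ V) : A ∩ U = B ∩ U := by
  rw [← inter_eq_right.2 h, ← inter_assoc, ← inter_assoc, h1]

private theorem Sub_z {T T' : Finset β} (h : T ⊆ T') (x : β) : insert x T' = T' ∪ insert x T := by
  ext y
  have h1 := @h y
  simp only [mem_insert, mem_union]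
  tauto

private theorem Sub_inner {T T' : Finset β} (h : T ⊆ T') (x : β) (K : Finset (Finset β))
    {G H : Finset β} (hG : G ∈ K) :
    ∑ F ∈ K, (if G ∩ T' = F ∩ T' ∧ H ∩ insert x T = F ∩ insert x T then
      1 / ((cnt K (insert x T') F : ℝ) * cnt K T F) else 0) ≤
      if H ∩ T = G ∩ T then 1 / (cnt K T G : ℝ) else 0 := by
  rw [← Finset.sum_filter]
  by_cases he : (K.filter fun F => G ∩ T' = F ∩ T' ∧ H ∩ insert x T = F ∩ insert x T).Nonempty
  · obtain ⟨F0, hF0⟩ := he
    rw [mem_filter] at hF0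
    obtain ⟨h0, h1, h2⟩ := hF0
    have h3 : H ∩ T = G ∩ T := by
      rw [Sub_sub (subset_insert x T) h2, Sub_sub h h1]
    rw [if_pos h3]
    have hz : ∀ F ∈ K.filter (fun F => G ∩ T' = F ∩ T' ∧ H ∩ insert x T = F ∩ insert x T),
        F ∩ insert x T' = F0 ∩ insert x T' := by
      intro F hF
      rw [mem_filter] at hF
      rw [Sub_z h x, inter_union_distrib_left, inter_union_distrib_left, ← hF.2.1, ← hF.2.2, h1, h2]
    have hc : ∀ F ∈ K.filter (fun F => G ∩ T' = F ∩ T' ∧ H ∩ insert x T = F ∩ insert x T),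
        1 / ((cnt K (insert x T') F : ℝ) * cnt K T F) =
          1 / ((cnt K (insert x T') F0 : ℝ) * cnt K T G) := by
      intro F hF
      have h4 := hz F hF
      rw [mem_filter] at hF
      rw [cnt_eq h4, cnt_eq (Sub_sub h hF.2.1)]
    rw [sum_congr rfl hc, sum_const, nsmul_eq_mul]
    have h5 : ((K.filter (fun F => G ∩ T' = F ∩ T' ∧ H ∩ insert x T = F ∩ insert x T)).card : ℝ) ≤
        cnt K (insert x T') F0 := by
      exact_mod_cast card_le_card fun F hF =>
        mem_filter.2 ⟨(mem_filter.1 hF).1, hz F hF⟩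
    have hp : (0 : ℝ) < cnt K (insert x T') F0 := by exact_mod_cast cnt_pos h0
    have hq : (0 : ℝ) < cnt K T G := by exact_mod_cast cnt_pos hG
    calc _ ≤ (cnt K (insert x T') F0 : ℝ) * (1 / ((cnt K (insert x T') F0 : ℝ) * cnt K T G)) :=
          mul_le_mul_of_nonneg_right h5 (by positivity)
      _ = 1 / cnt K T G := by field_simp
  · rw [not_nonempty_iff_eq_empty] at he
    rw [he, sum_empty]
    split_ifs
    · positivity
    · exact le_rfl

/-- The counting inequality behind submodularity.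

Proof. For `F ∈ K` write `F ~T G` for `F ∩ T = G ∩ T`, `X = insert x T`, `Z = insert x T'`.
`cnt K T' F * cnt K X F = ∑ G ∈ K, ∑ H ∈ K, [G ~T' F] [H ~X F]`. Swap the sums:
the left side is `∑ G, ∑ H, ∑ F, [G ~T' F] [H ~X F] / (cnt K Z F * cnt K T F)`.
For fixed `G, H` there is a term `F` only if `G ~T H` (as `T ⊆ T'`, `T ⊆ X`), and then
`cnt K T F = cnt K T G`. All `F` with `G ~T' F`, `H ~X F` have the same trace on `Z` (it is
determined on `T'` by `G` and at `x` by `H`), so if `F0` is one of them, they all lie in the class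
of `F0`, `cnt K Z F = cnt K Z F0` and there are at most `cnt K Z F0` of them: the inner sum over
`F` of `1 / cnt K Z F` is at most `1`. Hence the left side is at most
`∑ G, ∑ H, [G ~T H] / cnt K T G = ∑ G, 1 = K.card`. -/
theorem sum_cnt_le {T T' : Finset β} (h : T ⊆ T') (x : β) (K : Finset (Finset β)) :
    ∑ F ∈ K, ((cnt K T' F : ℝ) * cnt K (insert x T) F) / (cnt K (insert x T') F * cnt K T F) ≤
      K.card := by
  have h1 : ∀ F ∈ K, ((cnt K T' F : ℝ) * cnt K (insert x T) F) / (cnt K (insert x T') F * cnt K T F) =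
      ∑ G ∈ K, ∑ H ∈ K, (if G ∩ T' = F ∩ T' ∧ H ∩ insert x T = F ∩ insert x T then
        1 / ((cnt K (insert x T') F : ℝ) * cnt K T F) else 0) := by
    intro F _
    have a1 : (cnt K T' F : ℝ) = ∑ G ∈ K, if G ∩ T' = F ∩ T' then (1 : ℝ) else 0 := by
      rw [cnt, natCast_card_filter]
    have a2 : (cnt K (insert x T) F : ℝ) =
        ∑ H ∈ K, if H ∩ insert x T = F ∩ insert x T then (1 : ℝ) else 0 := by
      rw [cnt, natCast_card_filter]
    rw [a1, a2, sum_mul_sum, sum_div]
    refine sum_congr rfl fun G _ => ?_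
    rw [sum_div]
    refine sum_congr rfl fun H _ => ?_
    by_cases b1 : G ∩ T' = F ∩ T'
    · by_cases b2 : H ∩ insert x T = F ∩ insert x T
      · rw [if_pos b1, if_pos b2, if_pos ⟨b1, b2⟩, mul_one]
      · have b3 : ¬(G ∩ T' = F ∩ T' ∧ H ∩ insert x T = F ∩ insert x T) := fun b => b2 b.2
        rw [if_neg b2, if_neg b3, mul_zero, zero_div]
    · have b3 : ¬(G ∩ T' = F ∩ T' ∧ H ∩ insert x T = F ∩ insert x T) := fun b => b1 b.1
      rw [if_neg b1, if_neg b3, zero_mul, zero_div]
  rw [sum_congr rfl h1, sum_comm]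
  have h2 : ∀ G ∈ K, ∑ F ∈ K, ∑ H ∈ K, (if G ∩ T' = F ∩ T' ∧ H ∩ insert x T = F ∩ insert x T then
        1 / ((cnt K (insert x T') F : ℝ) * cnt K T F) else 0) ≤ 1 := by
    intro G hG
    rw [sum_comm]
    have hq : (0 : ℝ) < cnt K T G := by exact_mod_cast cnt_pos hG
    calc _ ≤ ∑ H ∈ K, (if H ∩ T = G ∩ T then 1 / (cnt K T G : ℝ) else 0) :=
          sum_le_sum fun H _ => Sub_inner h x K hG
      _ = 1 := by
        rw [← Finset.sum_filter, sum_const, nsmul_eq_mul]
        exact mul_one_div_cancel hq.ne'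
  calc _ ≤ ∑ G ∈ K, (1 : ℝ) := sum_le_sum h2
    _ = K.card := by rw [sum_const, nsmul_eq_mul, mul_one]

/-- Submodularity. Proof: the difference `left - right` is
`∑ F ∈ K, log ((cnt T' F * cnt (insert x T) F) / (cnt (insert x T') F * cnt T F))`
and `log t ≤ t - 1` (`Real.log_le_sub_one_of_pos`); then `sum_cnt_le`. -/
theorem Ent_submod {T T' : Finset β} (h : T ⊆ T') (x : β) (K : Finset (Finset β)) :
    Ent K (insert x T') + Ent K T ≤ Ent K (insert x T) + Ent K T' := by
  have h1 : ∀ F ∈ K, Real.log ((K.card : ℝ) / (cnt K (insert x T') F : ℝ)) +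
      Real.log ((K.card : ℝ) / (cnt K T F : ℝ)) ≤
      Real.log ((K.card : ℝ) / (cnt K (insert x T) F : ℝ)) + Real.log ((K.card : ℝ) / (cnt K T' F : ℝ)) +
        (((cnt K T' F : ℝ) * cnt K (insert x T) F) / (cnt K (insert x T') F * cnt K T F) - 1) := by
    intro F hF
    have c0 : (0 : ℝ) < K.card := by exact_mod_cast card_pos.2 ⟨F, hF⟩
    have c1 : (0 : ℝ) < cnt K T' F := by exact_mod_cast cnt_pos hF
    have c2 : (0 : ℝ) < cnt K (insert x T) F := by exact_mod_cast cnt_pos hF
    have c3 : (0 : ℝ) < cnt K (insert x T') F := by exact_mod_cast cnt_pos hF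
    have c4 : (0 : ℝ) < cnt K T F := by exact_mod_cast cnt_pos hF
    have h2 := Real.log_le_sub_one_of_pos (div_pos (mul_pos c1 c2) (mul_pos c3 c4))
    rw [Real.log_div (mul_pos c1 c2).ne' (mul_pos c3 c4).ne', Real.log_mul c1.ne' c2.ne',
      Real.log_mul c3.ne' c4.ne'] at h2
    rw [Real.log_div c0.ne' c1.ne', Real.log_div c0.ne' c2.ne', Real.log_div c0.ne' c3.ne',
      Real.log_div c0.ne' c4.ne']
    linarith
  have h2 := sum_le_sum h1
  rw [sum_add_distrib, sum_add_distrib, sum_add_distrib, sum_sub_distrib, sum_const, nsmul_eq_mul,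
    mul_one] at h2
  have h3 := sum_cnt_le h x K
  unfold Ent
  linarith

end Pool.Agent.Lib.MP_380ab1_coE
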