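import Pool.Agent.Lib.MP_380ab1_coE.LevB
import Pool.Agent.Lib.MP_380ab1_coE.LamB
import Pool.Agent.Lib.MP_380ab1_coE.Pers
import Pool.Agent.Lib.MP_380ab1_coE.BinB

/-!
# Tot: the total of all level bounds, for every single family
-/

namespace Pool.Agent.Lib.MP_380ab1_coE

open Finset Pool.Agent.BoolD

section

variable {α : Type*} [DecidableEq α] [Fintype α]

/-- `j C(n, j) = (n - j + 1) C(n, j - 1)`. -/
theorem choose_pred {n j : ℕ} (hj : 1 ≤ j) (hjn : j ≤ n) :
    (n.choose (j - 1) : ℝ) / j = n.choose j / ((n : ℝ) - j + 1) := by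
  obtain ⟨k, rfl⟩ : ∃ k, j = k + 1 := ⟨j - 1, by omega⟩
  have h1 := Nat.choose_succ_right_eq n k
  have h2 : ((n.choose (k + 1) : ℕ) : ℝ) * ((k : ℝ) + 1) = (n.choose k : ℝ) * ((n : ℝ) - k) := by
    have := congrArg (fun t : ℕ => (t : ℝ)) h1
    push_cast [Nat.cast_sub (show k ≤ n by omega)] at this
    exact this
  have h3 : (0 : ℝ) < (n : ℝ) - k := by
    have : ((k + 1 : ℕ) : ℝ) ≤ n := by exact_mod_cast hjn
    push_cast at this
    linarith
  have h4 : (0 : ℝ) < (k : ℝ) + 1 := by positivity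
  rw [Nat.add_sub_cancel]
  push_cast
  rw [show (n : ℝ) - ((k : ℝ) + 1) + 1 = (n : ℝ) - k by ring]
  rw [div_eq_div_iff h4.ne' h3.ne']
  linarith

/-- The density of the sets with at most one uncovered element. -/
noncomputable def rr (F : Finset (Finset α)) (j : ℕ) : ℝ :=
  (RR F j : ℝ) / (Fintype.card α).choose j

theorem rr_nonneg (F : Finset (Finset α)) (j : ℕ) : 0 ≤ rr F j := by
  unfold rr
  positivity

theorem rr_le_one (F : Finset (Finset α)) (j : ℕ) : rr F j ≤ 1 := by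
  unfold rr
  exact div_le_one_of_le₀ (by exact_mod_cast RR_le_choose F j) (by positivity)

theorem PP_term (F : Finset (Finset α)) {j : ℕ} (hj : 1 ≤ j) (hjn : j ≤ Fintype.card α) :
    (PP F j : ℝ) / (j * ((Fintype.card α : ℝ) - j + 1)) ≤
      ((Fintype.card α + 1).choose j : ℝ) / (Fintype.card α + 1) * (rr F j - rr F (j - 1)) +
      2 / (Fintype.card α + 1) * (((Fintype.card α + 1).choose j : ℝ) / j) := by
  have h0 := pers (F := F) hj hjn
  set n := Fintype.card α with hn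
  have h1 : (PP F j : ℝ) + ((n : ℝ) - j + 1) * RR F (j - 1) ≤
      j * RR F j + 2 * n.choose j := by
    have h2 : ((PP F j + (n - (j - 1)) * RR F (j - 1) : ℕ) : ℝ) ≤
        ((j * RR F j + 2 * n.choose j : ℕ) : ℝ) := by exact_mod_cast h0
    push_cast [Nat.cast_sub (show j - 1 ≤ n by omega), Nat.cast_sub hj] at h2
    linarith
  have hj0 : (0 : ℝ) < j := by exact_mod_cast hj
  have hd : (0 : ℝ) < (n : ℝ) - j + 1 := by
    have : (j : ℝ) ≤ n := by exact_mod_cast hjn
    linarith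
  have hC : (0 : ℝ) < n.choose j := by exact_mod_cast Nat.choose_pos hjn
  have hC' : (0 : ℝ) < n.choose (j - 1) := by
    exact_mod_cast Nat.choose_pos (show j - 1 ≤ n by omega)
  have e1 := choose_div hjn
  have e2 := choose_pred hj hjn
  have e3 : (RR F j : ℝ) = rr F j * n.choose j := by
    unfold rr
    rw [← hn]
    field_simp
  have e4 : (RR F (j - 1) : ℝ) = rr F (j - 1) * n.choose (j - 1) := by
    unfold rr
    rw [← hn]
    field_simp
  have e5 : (n.choose (j - 1) : ℝ) * ((n : ℝ) - j + 1) = n.choose j * j := by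
    rw [div_eq_div_iff hj0.ne' hd.ne'] at e2
    linarith
  rw [← e1, div_le_iff₀ (by positivity)]
  have e6 : (2 : ℝ) / (n + 1) * (((n + 1).choose j : ℝ) / j) =
      2 * (n.choose j / ((n : ℝ) - j + 1)) / j := by
    rw [e1]
    ring
  rw [e6]
  have e7 : ((n.choose j : ℝ) / ((n : ℝ) - j + 1) * (rr F j - rr F (j - 1)) +
      2 * (n.choose j / ((n : ℝ) - j + 1)) / j) * (j * ((n : ℝ) - j + 1)) =
      n.choose j * j * (rr F j - rr F (j - 1)) + 2 * n.choose j := by
    field_simp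
  rw [e7, mul_sub]
  have e8 : (n.choose j : ℝ) * j * rr F (j - 1) = ((n : ℝ) - j + 1) * RR F (j - 1) := by
    rw [e4, ← e5]
    ring
  have e9 : (n.choose j : ℝ) * j * rr F j = j * RR F j := by
    rw [e3]
    ring
  rw [e8, e9]
  linarith

theorem sum_tail (n : ℕ) :
    ∑ j ∈ Icc 2 n, (2 : ℝ) / (n + 1) * (((n + 1).choose j : ℝ) / j) ≤
      16 * (n.choose (n / 2) : ℝ) / (n + 1) := by
  rw [← mul_sum]
  have h1 : ∑ j ∈ Icc 2 n, ((n + 1).choose j : ℝ) / j ≤ 8 * n.choose (n / 2) := by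
    refine le_trans ?_ (sum_choose_div n)
    apply sum_le_sum_of_subset_of_nonneg (Icc_subset_Icc (by norm_num) le_rfl)
    intro j _ _
    positivity
  have h2 : (0 : ℝ) ≤ 2 / (n + 1) := by positivity
  calc (2 : ℝ) / (n + 1) * ∑ j ∈ Icc 2 n, ((n + 1).choose j : ℝ) / j
      ≤ 2 / (n + 1) * (8 * n.choose (n / 2)) := mul_le_mul_of_nonneg_left h1 h2
    _ = _ := by ring

theorem sumP (F : Finset (Finset α)) (hn : 2 ≤ Fintype.card α) :
    ∑ j ∈ Icc 2 (Fintype.card α), (PP F j : ℝ) / (j * ((Fintype.card α : ℝ) - j + 1)) ≤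
      18 * ((Fintype.card α).choose (Fintype.card α / 2) : ℝ) / Fintype.card α := by
  have h1 : ∑ j ∈ Icc 2 (Fintype.card α), (PP F j : ℝ) / (j * ((Fintype.card α : ℝ) - j + 1)) ≤
      ∑ j ∈ Icc 2 (Fintype.card α),
        (((Fintype.card α + 1).choose j : ℝ) / (Fintype.card α + 1) * (rr F j - rr F (j - 1)) +
        2 / (Fintype.card α + 1) * (((Fintype.card α + 1).choose j : ℝ) / j)) := by
    apply sum_le_sum
    intro j hj
    rw [mem_Icc] at hj
    exact PP_term F (by omega) hj.2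
  rw [sum_add_distrib] at h1
  have h2 := abel_choose (Fintype.card α) (rr_nonneg F) (rr_le_one F)
  have h3 := sum_tail (Fintype.card α)
  set n := Fintype.card α
  have hn0 : (0 : ℝ) < n := by exact_mod_cast (show 0 < n by omega)
  have h4 : 2 * (n.choose (n / 2) : ℝ) / (n + 1) + 16 * (n.choose (n / 2) : ℝ) / (n + 1) ≤
      18 * (n.choose (n / 2) : ℝ) / n := by
    rw [← add_div]
    rw [show 2 * (n.choose (n / 2) : ℝ) + 16 * (n.choose (n / 2) : ℝ) =
      18 * (n.choose (n / 2) : ℝ) by ring]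
    exact div_le_div_of_nonneg_left (by positivity) hn0 (by linarith)
  linarith

theorem sumS {F : Finset (Finset α)} (hF : UC F) (hn : 2 ≤ Fintype.card α) :
    ∑ j ∈ Icc 2 (Fintype.card α), (SS F j : ℝ) / ((Fintype.card α : ℝ) - j + 1) ≤
      34 * ((Fintype.card α).choose (Fintype.card α / 2) : ℝ) / Fintype.card α := by
  have h1 : ∑ j ∈ Icc 2 (Fintype.card α), (SS F j : ℝ) / ((Fintype.card α : ℝ) - j + 1) ≤
      ∑ j ∈ Icc 2 (Fintype.card α), ((PP F j : ℝ) / (j * ((Fintype.card α : ℝ) - j + 1)) +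
        2 / (Fintype.card α + 1) * (((Fintype.card α + 1).choose j : ℝ) / j)) := by
    apply sum_le_sum
    intro j hj
    rw [mem_Icc] at hj
    have hj0 : (0 : ℝ) < j := by exact_mod_cast (show 0 < j by omega)
    have hd : (0 : ℝ) < (Fintype.card α : ℝ) - j + 1 := by
      have : (j : ℝ) ≤ Fintype.card α := by exact_mod_cast hj.2
      linarith
    have e0 : (j : ℝ) * SS F j ≤ PP F j + 2 * SS F j := by exact_mod_cast SS_le hF j
    have e1 : (SS F j : ℝ) ≤ (Fintype.card α).choose j := by exact_mod_cast SS_le_choose F j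
    have e2 := choose_div hj.2
    have e3 : (2 : ℝ) / (Fintype.card α + 1) * (((Fintype.card α + 1).choose j : ℝ) / j) =
        2 * ((Fintype.card α).choose j) / (j * ((Fintype.card α : ℝ) - j + 1)) := by
      have : (2 : ℝ) / (Fintype.card α + 1) * (((Fintype.card α + 1).choose j : ℝ) / j) =
        2 * (((Fintype.card α + 1).choose j : ℝ) / (Fintype.card α + 1)) / j := by ring
      rw [this, ← e2]
      field_simp
    rw [e3, ← add_div, div_le_div_iff₀ hd (by positivity)]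
    have e4 : (j : ℝ) * SS F j ≤ PP F j + 2 * (Fintype.card α).choose j := by linarith
    nlinarith [mul_le_mul_of_nonneg_right e4 hd.le]
  rw [sum_add_distrib] at h1
  have h2 := sumP F hn
  have h3 := sum_tail (Fintype.card α)
  set n := Fintype.card α
  have hn0 : (0 : ℝ) < n := by exact_mod_cast (show 0 < n by omega)
  have h4 : 16 * (n.choose (n / 2) : ℝ) / (n + 1) ≤ 16 * (n.choose (n / 2) : ℝ) / n :=
    div_le_div_of_nonneg_left (by positivity) hn0 (by linarith)
  have h5 : 18 * (n.choose (n / 2) : ℝ) / n + 16 * (n.choose (n / 2) : ℝ) / n =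
      34 * (n.choose (n / 2) : ℝ) / n := by ring
  linarith

end

section

variable {α : Type*} [DecidableEq α] [Fintype α]

noncomputable def g1 (n j : ℕ) : ℝ :=
  (n.choose j : ℝ) * ((n : ℝ) - 2 * j + 2) / ((n : ℝ) - j + 1) ^ 2

noncomputable def g2 (n j : ℕ) : ℝ :=
  2 * (n.choose j : ℝ) / (((n : ℝ) - 2 * j + 1) * ((n : ℝ) - j + 1))

noncomputable def g3 (n j : ℕ) : ℝ :=
  (n.choose j : ℝ) * ((n : ℝ) - 2 * j + 1) / (j * ((n : ℝ) - j + 1))

noncomputable def gP (F : Finset (Finset α)) (j : ℕ) : ℝ :=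
  (PP F j : ℝ) / (j * ((Fintype.card α : ℝ) - j + 1))

noncomputable def g5 (n j : ℕ) : ℝ :=
  (n.choose j : ℝ) / ((n : ℝ) - j + 1) * (2 * (2 : ℝ) ^ (-((n : ℝ) - 2 * j + 1)))

noncomputable def g6 (n j : ℕ) : ℝ :=
  (n.choose j : ℝ) / ((n : ℝ) - j + 1) * (2 : ℝ) ^ ((n : ℝ) - 2 * j + 2)

noncomputable def g7 (n j : ℕ) : ℝ :=
  (n.choose j : ℝ) / ((n : ℝ) - j + 1) * (1 / ((j : ℝ) - 1))

noncomputable def gS (F : Finset (Finset α)) (j : ℕ) : ℝ :=
  (SS F j : ℝ) / ((Fintype.card α : ℝ) - j + 1)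

/-- The inequality behind the choice of `K` in `Lam_le`. -/
theorem Lam_B2 {F : Finset (Finset α)} (hF : UC F) {i : ℕ} (hi : 1 ≤ i)
    (hin : 2 * (i + 1) ≤ Fintype.card α) :
    (Lam F i : ℝ) / ((Fintype.card α : ℝ) - i) ^ 2 -
      (B2 F i).card * (((Fintype.card α : ℝ) - 2 * i - 1) / ((Fintype.card α : ℝ) - i)) ≤
    g2 (Fintype.card α) (i + 1) + g3 (Fintype.card α) (i + 1) + gP F (i + 1) := by
  have hW := Ww_upper F i
  have hL := fun K hK => Lam_le hF (i := i) (show i ≤ Fintype.card α by omega) (K := K) hK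
  unfold g2 g3 gP
  set n := Fintype.card α
  have hi0 : (0 : ℝ) < i := by exact_mod_cast hi
  have hinR : 2 * ((i : ℝ) + 1) ≤ n := by exact_mod_cast hin
  obtain ⟨d, hd⟩ : ∃ d : ℝ, d = (n : ℝ) - 2 * i - 1 := ⟨_, rfl⟩
  obtain ⟨a, ha⟩ : ∃ a : ℝ, a = (n : ℝ) - i := ⟨_, rfl⟩
  have hd1 : 1 ≤ d := by rw [hd]; linarith
  have had : a = d + i + 1 := by rw [ha, hd]; ring
  have ha0 : 0 < a := by rw [had]; linarith
  have hai : (i : ℝ) * (i + 1) ≤ a ^ 2 := by rw [had]; nlinarith
  push_cast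
  rw [show (n : ℝ) - 2 * ((i : ℝ) + 1) + 1 = d by rw [hd]; ring,
    show (n : ℝ) - ((i : ℝ) + 1) + 1 = a by rw [ha]; ring, ← ha, ← hd]
  have hK1 : 1 ≤ d * a ^ 2 / (i * (i + 1)) := by
    rw [le_div_iff₀ (by positivity)]
    nlinarith [mul_le_mul hd1 hai (by positivity) (by linarith)]
  have hL' := hL _ hK1
  have hWR : a * (Ww F i).card ≤ n.choose (i + 1) + (i + 1) * (B2 F i).card := by
    have : (((n - i) * (Ww F i).card : ℕ) : ℝ) ≤
        ((n.choose (i + 1) + (i + 1) * (B2 F i).card : ℕ) : ℝ) := by exact_mod_cast hW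
    push_cast [Nat.cast_sub (show i ≤ n by omega)] at this
    rw [ha]
    exact this
  rw [← ha] at hL'
  generalize hC : (n.choose (i + 1) : ℝ) = C at *
  have hC0 : 0 ≤ C := by rw [← hC]; positivity
  generalize hw : ((Ww F i).card : ℝ) = w at *
  generalize hb : ((B2 F i).card : ℝ) = b at *
  generalize hp : (PP F (i + 1) : ℝ) = p at *
  have hp0 : 0 ≤ p := by rw [← hp]; positivity
  have s1 : (Lam F i : ℝ) / a ^ 2 ≤
      (d * a ^ 2 / (i * (i + 1)) * (i * w) + 2 * a * C / (d * a ^ 2 / (i * (i + 1))) + p) / a ^ 2 :=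
    div_le_div_of_nonneg_right hL' (by positivity)
  have s2 : (d * a ^ 2 / (i * (i + 1)) * (i * w) + 2 * a * C / (d * a ^ 2 / (i * (i + 1))) + p) /
      a ^ 2 = d * w / (i + 1) + 2 * C / (d * a) * ((i * (i + 1)) / a ^ 2) + p / a ^ 2 := by
    have hd0 : d ≠ 0 := by linarith
    field_simp
  have s3 : d * w / (i + 1) ≤ C * d / ((i + 1) * a) + b * (d / a) := by
    have e1 : C * d / ((i + 1) * a) + b * (d / a) = d * (C + (i + 1) * b) / ((i + 1) * a) := by
      field_simp
    rw [e1, div_le_div_iff₀ (by positivity) (by positivity)]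
    have e2 : d * w * ((i + 1) * a) = d * (a * w) * (i + 1) := by ring
    rw [e2]
    have e3 : d * (a * w) ≤ d * (C + (i + 1) * b) := mul_le_mul_of_nonneg_left hWR (by linarith)
    exact mul_le_mul_of_nonneg_right e3 (by positivity)
  have s4 : 2 * C / (d * a) * ((i * (i + 1)) / a ^ 2) ≤ 2 * C / (d * a) := by
    have e1 : (i * (i + 1)) / a ^ 2 ≤ 1 := div_le_one_of_le₀ hai (by positivity)
    have e2 : 0 ≤ 2 * C / (d * a) := by
      have : 0 < d := by linarith
      positivity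
    nlinarith
  have s5 : p / a ^ 2 ≤ p / ((i + 1) * a) := by
    apply div_le_div_of_nonneg_left hp0 (by positivity)
    rw [had]
    nlinarith
  rw [s2] at s1
  linarith

/-- The bound of `PhiL` (with `j = i + 1`). -/
theorem PhiL_le {F : Finset (Finset α)} (hF : UC F) {i : ℕ} (hi : 1 ≤ i)
    (hin : 2 * (i + 1) ≤ Fintype.card α) :
    PhiL F i ≤ Real.log 2 * ((Uu F i).card - (Uu F (i + 1)).card) +
      Real.log 2 * ((Fintype.card α).choose (i + 1) - (Fintype.card α).choose i) +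
      Real.log 2 * (g1 (Fintype.card α) (i + 1) + g2 (Fintype.card α) (i + 1) +
        g3 (Fintype.card α) (i + 1) + gP F (i + 1)) +
      g5 (Fintype.card α) (i + 1) + g7 (Fintype.card α) (i + 1) +
      2 * Real.log (Fintype.card α) * gS F (i + 1) := by
  have h1 := Lam_B2 hF hi hin
  have h2 := choose_tele (n := Fintype.card α) (j := i + 1) (by omega) (by omega)
  have h3 : ((Nn F i).card : ℝ) = (Fintype.card α).choose (i + 1) - (B2 F i).card := by
    have := Nn_add_B2 F i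
    have h : (((Nn F i).card + (B2 F i).card : ℕ) : ℝ) = ((Fintype.card α).choose (i + 1) : ℝ) := by
      exact_mod_cast this
    push_cast at h
    linarith
  have hS : Real.log (i + 1) ≤ Real.log (Fintype.card α) := by
    apply Real.log_le_log (by positivity)
    have : ((i + 1 : ℕ) : ℝ) ≤ Fintype.card α := by exact_mod_cast (show i + 1 ≤ Fintype.card α by omega)
    push_cast at this
    exact this
  unfold PhiL
  unfold g1 g5 g7 gS
  generalize hG : g2 (Fintype.card α) (i + 1) + g3 (Fintype.card α) (i + 1) + gP F (i + 1) = G at h1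
  have hG2 : ∀ x : ℝ, x + g2 (Fintype.card α) (i + 1) + g3 (Fintype.card α) (i + 1) + gP F (i + 1) =
      x + G := fun x => by rw [← hG]; ring
  rw [hG2, h3]
  set n := Fintype.card α
  have hi0 : (0 : ℝ) < i := by exact_mod_cast hi
  have hinR : 2 * ((i : ℝ) + 1) ≤ n := by exact_mod_cast hin
  obtain ⟨d, hd⟩ : ∃ d : ℝ, d = (n : ℝ) - 2 * i - 1 := ⟨_, rfl⟩
  obtain ⟨a, ha⟩ : ∃ a : ℝ, a = (n : ℝ) - i := ⟨_, rfl⟩
  have hd1 : 1 ≤ d := by rw [hd]; linarith
  have had : a = d + i + 1 := by rw [ha, hd]; ring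
  have ha0 : 0 < a := by rw [had]; linarith
  rw [Nat.add_sub_cancel] at h2
  push_cast at h2 ⊢
  rw [show (n : ℝ) - 2 * ((i : ℝ) + 1) + 1 = d by rw [hd]; ring,
    show (n : ℝ) - ((i : ℝ) + 1) + 1 = a by rw [ha]; ring] at h2 ⊢
  rw [← ha, ← hd] at h1 ⊢
  rw [show (n : ℝ) - 2 * ((i : ℝ) + 1) + 2 = d + 1 by rw [hd]; ring,
    show (n : ℝ) - 2 * i = d + 1 by rw [hd]; ring,
    show (i : ℝ) + 1 - 1 = i by ring]
  generalize hC : (n.choose (i + 1) : ℝ) = C at *
  have hC0 : 0 ≤ C := by rw [← hC]; positivity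
  generalize hb : ((B2 F i).card : ℝ) = b at *
  have hb0 : 0 ≤ b := by rw [← hb]; positivity
  have hL2 : 0 < Real.log 2 := Real.log_pos (by norm_num)
  have t1 : (C - b) * (d / a + (d + 1) / a ^ 2) ≤ C * (d / a) - b * (d / a) + C * (d + 1) / a ^ 2 := by
    have e1 : 0 ≤ (d + 1) / a ^ 2 := by
      have : 0 ≤ d + 1 := by linarith
      positivity
    have e2 : C * (d + 1) / a ^ 2 = C * ((d + 1) / a ^ 2) := by ring
    rw [e2]
    nlinarith [mul_nonneg hb0 e1]
  have t2 : (((Uu F i).card : ℝ) - (Uu F (i + 1)).card + (Lam F i : ℝ) / a ^ 2 +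
      (C - b) * (d / a + (d + 1) / a ^ 2)) ≤
      ((Uu F i).card - (Uu F (i + 1)).card) + (C - n.choose i) +
      (C * (d + 1) / a ^ 2 + G) := by linarith
  have t3 := mul_le_mul_of_nonneg_left t2 hL2.le
  have t4 : 1 / a * (2 * Real.log (i + 1) * SS F (i + 1)) ≤
      2 * Real.log n * ((SS F (i + 1) : ℝ) / a) := by
    have e1 : 1 / a * (2 * Real.log (i + 1) * SS F (i + 1)) =
        2 * Real.log (i + 1) * ((SS F (i + 1) : ℝ) / a) := by ring
    rw [e1]
    apply mul_le_mul_of_nonneg_right (by linarith) (by positivity)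
  have t5 : C / a * (2 * 2 ^ (-d) + 1 / (i : ℝ)) = C / a * (2 * 2 ^ (-d)) + C / a * (1 / i) := by ring
  rw [t5]
  linarith

theorem PhiU_le {F : Finset (Finset α)} {i : ℕ} (hi : 1 ≤ i)
    (hin : i + 1 ≤ Fintype.card α) :
    PhiU F i ≤ Real.log 2 * ((Uu F i).card - (Uu F (i + 1)).card) +
      g6 (Fintype.card α) (i + 1) + g7 (Fintype.card α) (i + 1) +
      2 * Real.log (Fintype.card α) * gS F (i + 1) := by
  have hS : Real.log (i + 1) ≤ Real.log (Fintype.card α) := by
    apply Real.log_le_log (by positivity)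
    have : ((i + 1 : ℕ) : ℝ) ≤ Fintype.card α := by exact_mod_cast hin
    push_cast at this
    exact this
  unfold PhiU g6 g7 gS
  set n := Fintype.card α
  obtain ⟨a, ha⟩ : ∃ a : ℝ, a = (n : ℝ) - i := ⟨_, rfl⟩
  have ha0 : 0 < a := by
    have : ((i + 1 : ℕ) : ℝ) ≤ n := by exact_mod_cast hin
    push_cast at this
    rw [ha]; linarith
  push_cast
  rw [show (n : ℝ) - ((i : ℝ) + 1) + 1 = a by rw [ha]; ring, ← ha,
    show (n : ℝ) - 2 * ((i : ℝ) + 1) + 2 = (n : ℝ) - 2 * i by ring,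
    show (i : ℝ) + 1 - 1 = i by ring]
  have t4 : 1 / a * (2 * Real.log (i + 1) * SS F (i + 1)) ≤
      2 * Real.log n * ((SS F (i + 1) : ℝ) / a) := by
    have e1 : 1 / a * (2 * Real.log (i + 1) * SS F (i + 1)) =
        2 * Real.log (i + 1) * ((SS F (i + 1) : ℝ) / a) := by ring
    rw [e1]
    apply mul_le_mul_of_nonneg_right (by linarith) (by positivity)
  have t5 : (n.choose (i + 1) : ℝ) / a * (2 ^ ((n : ℝ) - 2 * i) + 1 / (i : ℝ)) =
      (n.choose (i + 1) : ℝ) / a * 2 ^ ((n : ℝ) - 2 * i) + (n.choose (i + 1) : ℝ) / a * (1 / i) := by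
    ring
  rw [t5]
  linarith

theorem sum_shift (g : ℕ → ℝ) (a b : ℕ) :
    ∑ i ∈ Ico a b, g (i + 1) = ∑ j ∈ Icc (a + 1) b, g j := by
  rw [sum_Ico_add' g a b 1]
  apply sum_congr _ (fun _ _ => rfl)
  ext x
  rw [mem_Ico, mem_Icc]
  omega

theorem sum_tele (u : ℕ → ℝ) {a b : ℕ} (h : a ≤ b) :
    ∑ i ∈ Ico a b, (u i - u (i + 1)) = u a - u b := by
  induction b, h using Nat.le_induction with
  | base => simp
  | succ b hb ih =>
    rw [sum_Ico_succ_top hb, ih]
    ring

/-- The total of the level bounds. -/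
theorem total_le {F : Finset (Finset α)} (hF : UC F) (hn : 2 ≤ Fintype.card α) :
    ∑ i ∈ Ico 1 (Fintype.card α / 2), PhiL F i +
      ∑ i ∈ Ico (Fintype.card α / 2) (Fintype.card α), PhiU F i +
      Real.log 2 * (Uu F (Fintype.card α)).card ≤
    Real.log 2 * (Fintype.card α).choose (Fintype.card α / 2) +
      154 * Real.log (Fintype.card α) *
        (Fintype.card α).choose (Fintype.card α / 2) / Fintype.card α := by
  have hm1 : 1 ≤ Fintype.card α / 2 := by omega
  have hL := sum_le_sum (s := Ico 1 (Fintype.card α / 2)) (fun i hi => PhiL_le hF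
    (mem_Ico.1 hi).1 (show 2 * (i + 1) ≤ Fintype.card α by have := (mem_Ico.1 hi).2; omega))
  have hU := sum_le_sum (s := Ico (Fintype.card α / 2) (Fintype.card α)) (fun i hi =>
    PhiU_le (F := F) (show 1 ≤ i by have := (mem_Ico.1 hi).1; omega) (mem_Ico.1 hi).2)
  simp only [sum_add_distrib, ← mul_sum] at hL hU
  have hu1 : ((Uu F 1).card : ℝ) ≤ (Fintype.card α).choose 1 := by
    have := Uu_add_Ww F 1
    exact_mod_cast (show (Uu F 1).card ≤ (Fintype.card α).choose 1 by omega)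
  have hP := sumP F hn
  have hSS := sumS hF hn
  rw [sum_tele (fun i => ((Uu F i).card : ℝ)) hm1] at hL
  rw [sum_tele (fun i => ((Uu F i).card : ℝ)) (show Fintype.card α / 2 ≤ Fintype.card α by omega)]
    at hU
  have hc : ∑ i ∈ Ico 1 (Fintype.card α / 2), (((Fintype.card α).choose (i + 1) : ℝ) -
      (Fintype.card α).choose i) =
      (Fintype.card α).choose (Fintype.card α / 2) - (Fintype.card α).choose 1 := by
    have := sum_tele (fun i => -((Fintype.card α).choose i : ℝ)) hm1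
    rw [show ((Fintype.card α).choose (Fintype.card α / 2) : ℝ) - (Fintype.card α).choose 1 =
      -((Fintype.card α).choose 1 : ℝ) - -((Fintype.card α).choose (Fintype.card α / 2) : ℝ) by ring,
      ← this]
    apply sum_congr rfl
    intro i _
    ring
  rw [hc] at hL
  rw [sum_shift (g1 _), sum_shift (g2 _), sum_shift (g3 _), sum_shift (gP F),
    sum_shift (g5 _), sum_shift (g7 _), sum_shift (gS F)] at hL
  rw [sum_shift (g6 _), sum_shift (g7 _), sum_shift (gS F)] at hU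
  have E1 : ∑ j ∈ Icc (1 + 1) (Fintype.card α / 2), g1 (Fintype.card α) j ≤ _ := sumE1 hn
  have E2 : ∑ j ∈ Icc (1 + 1) (Fintype.card α / 2), g2 (Fintype.card α) j ≤ _ := sumE2 hn
  have E3 : ∑ j ∈ Icc (1 + 1) (Fintype.card α / 2), g3 (Fintype.card α) j ≤ _ := sumE3 hn
  have E5 : ∑ j ∈ Icc (1 + 1) (Fintype.card α / 2), g5 (Fintype.card α) j ≤ _ := sumE5 hn
  have E6 : ∑ j ∈ Icc (Fintype.card α / 2 + 1) (Fintype.card α), g6 (Fintype.card α) j ≤ _ := sumE6 hn
  have E7 : ∑ j ∈ Icc 2 (Fintype.card α), g7 (Fintype.card α) j ≤ _ := sumE7 hn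
  have split : ∀ g : ℕ → ℝ, ∑ j ∈ Icc 2 (Fintype.card α), g j =
      ∑ j ∈ Icc (1 + 1) (Fintype.card α / 2), g j +
        ∑ j ∈ Icc (Fintype.card α / 2 + 1) (Fintype.card α), g j := by
    intro g
    have e1 : Icc 2 (Fintype.card α) = Ico 2 (Fintype.card α + 1) := by
      ext x; rw [mem_Icc, mem_Ico]; omega
    have e2 : Icc (1 + 1) (Fintype.card α / 2) = Ico 2 (Fintype.card α / 2 + 1) := by
      ext x; rw [mem_Icc, mem_Ico]; omega
    have e3 : Icc (Fintype.card α / 2 + 1) (Fintype.card α) =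
        Ico (Fintype.card α / 2 + 1) (Fintype.card α + 1) := by
      ext x; rw [mem_Icc, mem_Ico]; omega
    rw [e1, e2, e3, sum_Ico_consecutive _ (by omega) (by omega)]
  have EP : ∑ j ∈ Icc (1 + 1) (Fintype.card α / 2), gP F j ≤
      18 * ((Fintype.card α).choose (Fintype.card α / 2) : ℝ) / Fintype.card α := by
    refine le_trans ?_ hP
    apply sum_le_sum_of_subset_of_nonneg (Icc_subset_Icc le_rfl (by omega))
    intro j hj _
    rw [mem_Icc] at hj
    have : (0 : ℝ) < (Fintype.card α : ℝ) - j + 1 := by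
      have : (j : ℝ) ≤ Fintype.card α := by exact_mod_cast hj.2
      linarith
    unfold gP
    positivity
  have ES : ∑ j ∈ Icc (1 + 1) (Fintype.card α / 2), gS F j +
      ∑ j ∈ Icc (Fintype.card α / 2 + 1) (Fintype.card α), gS F j ≤
      34 * ((Fintype.card α).choose (Fintype.card α / 2) : ℝ) / Fintype.card α := by
    rw [← split (gS F)]
    exact hSS
  rw [split (g7 _)] at E7
  have hn0 : (0 : ℝ) < Fintype.card α := by exact_mod_cast (show 0 < Fintype.card α by omega)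
  have hlog : Real.log 2 ≤ Real.log (Fintype.card α) :=
    Real.log_le_log (by norm_num) (by exact_mod_cast hn)
  have hL2 : 0.6931 < Real.log 2 := lt_trans (by norm_num) Real.log_two_gt_d9
  have hL2' : Real.log 2 < 0.6932 := lt_trans Real.log_two_lt_d9 (by norm_num)
  set n := Fintype.card α
  obtain ⟨q, hq⟩ : ∃ q : ℝ, q = (n.choose (n / 2) : ℝ) / n := ⟨_, rfl⟩
  have hq0 : 0 ≤ q := by rw [hq]; positivity
  have r1 : ∀ c : ℝ, c * (n.choose (n / 2) : ℝ) / n = c * q := fun c => by rw [hq]; ring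
  rw [r1] at E1 E2 E3 E5 E6 E7 EP ES
  rw [show 154 * Real.log n * (n.choose (n / 2) : ℝ) / n = 154 * Real.log n * q by rw [hq]; ring]
  have F1 := mul_le_mul_of_nonneg_left (add_le_add (add_le_add (add_le_add E1 E2) E3) EP)
    (show 0 ≤ Real.log 2 by linarith)
  have F2 := mul_le_mul_of_nonneg_left ES (show 0 ≤ 2 * Real.log n by linarith)
  have F3 := mul_le_mul_of_nonneg_left hu1 (show 0 ≤ Real.log 2 by linarith)
  -- the constants
  have F4 : Real.log 2 * (8 * q + 4 * q * (1 + Real.log n) + 15 * q + 18 * q) + 4 * q + 6 * q +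
      16 * q + 2 * Real.log n * (34 * q) ≤ 154 * Real.log n * q := by
    have e1 : Real.log 2 * (8 * q + 4 * q * (1 + Real.log n) + 15 * q + 18 * q) + 4 * q + 6 * q +
      16 * q + 2 * Real.log n * (34 * q) =
      (Real.log 2 * (45 + 4 * Real.log n) + 26 + 68 * Real.log n) * q := by ring
    rw [e1]
    apply mul_le_mul_of_nonneg_right _ hq0
    nlinarith
  nlinarith

end

end Pool.Agent.Lib.MP_380ab1_coE
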